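import Mathlib

/-!
Words with three periods: the combinatorial heart.  If `x i ++ P = P ++ y i` for `i = 0, 1, 2`,
`y i` starts with the block `m i, d, …, d` of length `v i`, `P` is empty or starts with a marker and
`2 |P| + ∑ v i = ∑ |x i|`, then the lengths `|x i|` are obtained from `v` by the moves
`V ↦ (V i, V j + V i (j ≠ i))`.
-/

set_option autoImplicit false

namespace Run7.h452

/-- vectors obtained from `v` by the moves which add one coordinate to the two others -/
inductive Reach (v : Fin 3 → ℕ) : (Fin 3 → ℕ) → Prop
  | refl : Reach v v
  | step (V : Fin 3 → ℕ) (i : Fin 3) : Reach v V → Reach v (fun j => if j = i then V j else V j + V i)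

/-- the block of length `n` with first letter `a` and the other letters `d` -/
def blk {σ : Type} (a d : σ) (n : ℕ) : List σ := a :: List.replicate (n - 1) d

theorem blk_length {σ : Type} (a d : σ) (n : ℕ) (hn : 1 ≤ n) : (blk a d n).length = n := by
  simp [blk]; omega

theorem blk_get {σ : Type} (a d : σ) (n k : ℕ) (t : List σ) (h0 : 0 < k) (hk : k < n) :
    (blk a d n ++ t)[k]? = some d := by
  obtain ⟨k, rfl⟩ : ∃ k', k = k' + 1 := ⟨k - 1, by omega⟩
  rw [blk, List.cons_append, List.getElem?_cons_succ, List.getElem?_append_left (by simp; omega),
    List.getElem?_replicate, if_pos (by omega)]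

/-- prefix extraction -/
theorem pre_of_le {σ : Type} {a b c e : List σ} (h : a ++ b = c ++ e) (hl : a.length ≤ c.length) :
    ∃ c', c = a ++ c' ∧ b = c' ++ e := by
  rcases List.append_eq_append_iff.1 h with ⟨a', h1, h2⟩ | ⟨c', h1, h2⟩
  · exact ⟨a', h1, h2⟩
  · have : c'.length = 0 := by
      have := congrArg List.length h1
      simp at this
      omega
    rw [List.length_eq_zero_iff] at this
    subst this
    refine ⟨[], by simpa using h1.symm, by simpa using h2.symm⟩

theorem ar_sound {σ : Type} (m : Fin 3 → σ) (d : σ) (hm : Function.Injective m)
    (hd : ∀ i, m i ≠ d) (v : Fin 3 → ℕ) (hv : ∀ i, 1 ≤ v i) :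
    ∀ (n : ℕ) (P : List σ) (x y : Fin 3 → List σ), P.length = n →
      (∀ i, x i ++ P = P ++ y i) → (∀ i, ∃ t, y i = blk (m i) d (v i) ++ t) →
      (P = [] ∨ ∃ i P', P = m i :: P') →
      2 * P.length + (v 0 + v 1 + v 2) = (x 0).length + (x 1).length + (x 2).length →
      Reach v (fun i => (x i).length) := by
  intro n
  induction n using Nat.strong_induction_on with
  | _ n ih =>
  intro P x y hn hxy hz hP hsum
  have hlen : ∀ i, (y i).length = (x i).length := by
    intro i
    have := congrArg List.length (hxy i)
    simp at this
    omega
  rcases hP with rfl | ⟨i0, P0, rfl⟩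
  · -- empty `P`
    have h1 : ∀ i, v i ≤ (x i).length := by
      intro i
      obtain ⟨t, ht⟩ := hz i
      have := congrArg List.length ht
      rw [List.length_append, blk_length _ _ _ (hv i)] at this
      have := hlen i
      omega
    have h2 : (fun i => (x i).length) = v := by
      have a0 := h1 0
      have a1 := h1 1
      have a2 := h1 2
      simp at hsum
      funext i
      fin_cases i
      · show (x 0).length = v 0
        omega
      · show (x 1).length = v 1
        omega
      · show (x 2).length = v 2
        omega
    rw [h2]
    exact Reach.refl
  · set P := m i0 :: P0 with hPdef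
    have hPpos : 0 < P.length := by simp [hPdef]
    obtain ⟨α, hα⟩ := Finite.exists_min (fun i => (x i).length)
    have hle : (x α).length ≤ P.length := by
      by_contra hcon
      have hbig : ∀ j, P.length + v j ≤ (x j).length := by
        intro j
        have hj : P.length < (x j).length := by
          have := hα j
          omega
        obtain ⟨t', ht1, ht2⟩ := pre_of_le (hxy j).symm hj.le
        obtain ⟨t, ht⟩ := hz j
        rw [ht1, List.length_append]
        by_contra hc
        have hpos : 0 < t'.length := by
          have := congrArg List.length ht1
          rw [List.length_append] at this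
          omega
        have e1 : (y j)[t'.length]? = some d := by
          rw [ht]
          exact blk_get _ _ _ _ _ hpos (by omega)
        have e2 : (y j)[t'.length]? = some (m i0) := by
          rw [ht2, List.getElem?_append_right (le_refl _), Nat.sub_self, hPdef]
          rfl
        rw [e1] at e2
        exact hd i0 (Option.some.inj e2).symm
      have b0 := hbig 0
      have b1 := hbig 1
      have b2 := hbig 2
      omega
    obtain ⟨P', hP1, hP2⟩ := pre_of_le (hxy α) hle
    -- `P = x α ++ P'` and `P = P' ++ y α`
    have hxpos : 0 < (x α).length := by
      obtain ⟨t, ht⟩ := hz α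
      have := congrArg List.length ht
      rw [List.length_append, blk_length _ _ _ (hv α)] at this
      have := hlen α
      have := hv α
      omega
    have key : ∀ j, j ≠ α → ∃ x' y', x j = x α ++ x' ∧ y j = y' ++ y α ∧
        x' ++ P' = P' ++ y' ∧ ∃ t, y' = blk (m j) d (v j) ++ t := by
      intro j hj
      have e1 : x α ++ (P' ++ y j) = x j ++ P := by
        rw [hxy j]
        conv_rhs => rw [hP1]
        rw [List.append_assoc]
      obtain ⟨x', hx', e2⟩ := pre_of_le e1 (hα j)
      -- `P' ++ y j = x' ++ P`
      have e3 : (x' ++ P') ++ y α = P' ++ y j := by
        rw [List.append_assoc, ← hP2, e2]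
      have l1 : (x j).length = (x α).length + x'.length := by
        rw [hx', List.length_append]
      obtain ⟨y', hy1, hy2⟩ := pre_of_le e3.symm (by
        rw [List.length_append]; omega)
      -- `x' ++ P' = P' ++ y'`, `y j = y' ++ y α`
      refine ⟨x', y', hx', hy2, hy1, ?_⟩
      obtain ⟨t, ht⟩ := hz j
      obtain ⟨tα, htα⟩ := hz α
      have hge : v j ≤ y'.length := by
        by_contra hc
        have e5 : (y j)[y'.length]? = some (m α) := by
          rw [hy2, List.getElem?_append_right (le_refl _), Nat.sub_self, htα]
          rfl
        rcases Nat.eq_zero_or_pos y'.length with h0 | hpos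
        · rw [h0, ht] at e5
          have : some (m j) = some (m α) := by
            rw [← e5]; rfl
          exact hj (hm (Option.some.inj this))
        · have e6 : (y j)[y'.length]? = some d := by
            rw [ht]
            exact blk_get _ _ _ _ _ hpos (by omega)
          rw [e6] at e5
          exact hd α (Option.some.inj e5).symm
      have e7 : blk (m j) d (v j) ++ t = y' ++ y α := by rw [← ht, hy2]
      obtain ⟨t2, ht2, -⟩ := pre_of_le e7 (by rw [blk_length _ _ _ (hv j)]; exact hge)
      exact ⟨t2, ht2⟩
    choose! x' y' hx' hy' hxy' hz' using key
    have hP'len : P.length = (x α).length + P'.length := by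
      rw [← List.length_append, ← hP1]
    let X : Fin 3 → List σ := fun j => if j = α then x α else x' j
    let Y : Fin 3 → List σ := fun j => if j = α then y α else y' j
    have hlenX : ∀ j, (x j).length = if j = α then (X j).length else (X j).length + (X α).length := by
      intro j
      by_cases hj : j = α
      · subst hj
        simp [X]
      · simp only [X, hj, if_false, if_true]
        rw [hx' j hj, List.length_append]
        omega
    have hR := ih P'.length (by omega) P' X Y rfl ?_ ?_ ?_ ?_
    · have := Reach.step (v := v) _ α hR
      have e : (fun i => (x i).length) = (fun j => if j = α then (fun i => (X i).length) j else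
          (fun i => (X i).length) j + (fun i => (X i).length) α) := by
        funext j
        exact hlenX j
      rw [e]
      exact this
    · intro j
      by_cases hj : j = α
      · subst hj
        simp only [X, Y, if_true]
        rw [← hP1, ← hP2]
      · simp only [X, Y, hj, if_false]
        exact hxy' j hj
    · intro j
      by_cases hj : j = α
      · subst hj
        simp only [Y, if_true]
        exact hz j
      · simp only [Y, hj, if_false]
        exact hz' j hj
    · rcases P' with _ | ⟨a, P''⟩
      · left; rfl
      · right
        rw [hPdef, List.cons_append] at hP2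
        refine ⟨i0, P'', ?_⟩
        rw [(List.cons.inj hP2).1]
    · have a0 := hlenX 0
      have a1 := hlenX 1
      have a2 := hlenX 2
      have hXα : (X α).length = (x α).length := by simp [X]
      fin_cases α
      · simp at a0 a1 a2 hXα hP'len
        omega
      · simp at a0 a1 a2 hXα hP'len
        omega
      · simp at a0 a1 a2 hXα hP'len
        omega

end Run7.h452
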