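import Mathlib
import Pool.Agent.Run7.h452.Words

/-!
Rigidity: if `v`, `(T-1)v`, `(T²-1)v` reach `V`, `(T-1)V`, `(T²-1)V`, then `V = T^j v`, `3 ∣ j`,
where `T (p,q,r) = (r, p+r, q+r)`.
-/

set_option autoImplicit false

namespace Run7.h452

/-- the relation `Reach` for integer coordinates -/
inductive Rch (a b c : ℤ) : ℤ → ℤ → ℤ → Prop
  | refl : Rch a b c a b c
  | s0 (p q r : ℤ) : Rch a b c p q r → Rch a b c p (q + p) (r + p)
  | s1 (p q r : ℤ) : Rch a b c p q r → Rch a b c (p + q) q (r + q)
  | s2 (p q r : ℤ) : Rch a b c p q r → Rch a b c (p + r) (q + r) r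

theorem Reach.toRch {v V : Fin 3 → ℕ} (h : Reach v V) :
    Rch (v 0) (v 1) (v 2) (V 0) (V 1) (V 2) := by
  induction h with
  | refl => exact Rch.refl
  | step V i _ ih =>
    fin_cases i
    · simpa using Rch.s0 _ _ _ ih
    · simpa using Rch.s1 _ _ _ ih
    · simpa using Rch.s2 _ _ _ ih

theorem Rch.le {a b c p q r : ℤ} (h : Rch a b c p q r) (ha : 0 < a) (hb : 0 < b) (hc : 0 < c) :
    a ≤ p ∧ b ≤ q ∧ c ≤ r := by
  induction h with
  | refl => omega
  | s0 p q r _ ih => omega
  | s1 p q r _ ih => omega
  | s2 p q r _ ih => omega

theorem Rch.tri {a b c p q r : ℤ} (h : Rch a b c p q r) (ha : 0 < a) (hb : 0 < b) (hc : 0 < c)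
    (h1 : a < b + c) (h2 : b < a + c) (h3 : c < a + b) : p < q + r ∧ q < p + r ∧ r < p + q := by
  induction h with
  | refl => omega
  | s0 p q r h ih => have := h.le ha hb hc; omega
  | s1 p q r h ih => have := h.le ha hb hc; omega
  | s2 p q r h ih => have := h.le ha hb hc; omega

theorem Rch.rot {a b c p q r : ℤ} (h : Rch a b c p q r) : Rch b c a q r p := by
  induction h with
  | refl => exact Rch.refl
  | s0 p q r _ ih => exact Rch.s2 _ _ _ ih
  | s1 p q r _ ih => exact Rch.s0 _ _ _ ih
  | s2 p q r _ ih => exact Rch.s1 _ _ _ ih

/-- if the first coordinate is the smallest and we are not at the start, the last move was `s0` -/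
theorem Rch.inv0 {a b c p q r : ℤ} (h : Rch a b c p q r) (ha : 0 < a) (hb : 0 < b) (hc : 0 < c)
    (hq : p < q) (hr : p < r) : (p = a ∧ q = b ∧ r = c) ∨ Rch b c a (q - p) (r - p) p := by
  cases h with
  | refl => left; exact ⟨rfl, rfl, rfl⟩
  | s0 p q r h =>
    right
    have := h.rot
    simpa using this
  | s1 p q r h =>
    have := h.le ha hb hc
    omega
  | s2 p q r h =>
    have := h.le ha hb hc
    omega

/-- the map `T` -/
def Tm (x : ℤ × ℤ × ℤ) : ℤ × ℤ × ℤ := (x.2.2, x.1 + x.2.2, x.2.1 + x.2.2)

/-- the three rotated bases -/
def RR (s : ℕ) (a b c p q r : ℤ) : Prop :=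
  if s = 0 then Rch a b c p q r else if s = 1 then Rch b c a p q r else Rch c a b p q r

theorem RR.le0 {s : ℕ} {a b c p q r : ℤ} (h : RR s a b c p q r) (ha : 0 < a) (hb : 0 < b)
    (hc : 0 < c) : 0 < p ∧ 0 < q ∧ 0 < r := by
  unfold RR at h
  split_ifs at h
  · have := h.le ha hb hc; omega
  · have := h.le hb hc ha; omega
  · have := h.le hc ha hb; omega

theorem RR.tri {s : ℕ} {a b c p q r : ℤ} (h : RR s a b c p q r) (ha : 0 < a) (hb : 0 < b)
    (hc : 0 < c) (h1 : a < b + c) (h2 : b < a + c) (h3 : c < a + b) :
    p < q + r ∧ q < p + r ∧ r < p + q := by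
  unfold RR at h
  split_ifs at h
  · exact Rch.tri h ha hb hc h1 h2 h3
  · exact Rch.tri h hb hc ha (by omega) (by omega) (by omega)
  · exact Rch.tri h hc ha hb (by omega) (by omega) (by omega)

theorem orb_main (a b c : ℤ) (ha : 0 < a) (hab : a < b) (hbc : b < c) (hc : c < a + b) :
    ∀ (n : ℕ) (s : ℕ) (p q r : ℤ), s < 3 → p + q + r ≤ n →
      RR s a b c p q r →
      RR s (c - a) (a + c - b) b (r - p) (p + r - q) q →
      RR s (b + c - a) (2 * c) (a + b + c) (q + r - p) (2 * r) (p + q + r) →
      ∃ j : ℕ, (p, q, r) = Tm^[j] (a, b, c) ∧ (j + s) % 3 = 0 := by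
  intro n
  induction n with
  | zero =>
    intro s p q r _ hn h _ _
    have := h.le0 ha (by omega) (by omega)
    omega
  | succ n ih =>
    intro s p q r hs hn hV hU hW
    have pV := hV.le0 ha (by omega) (by omega)
    have pU := hU.le0 (by omega) (by omega) (by omega)
    have tV := hV.tri ha (by omega) (by omega) (by omega) (by omega) (by omega)
    have tU := hU.tri (by omega) (by omega) (by omega) (by omega) (by omega) (by omega)
    have tW := hW.tri (by omega) (by omega) (by omega) (by omega) (by omega) (by omega)
    have key : (s = 0 ∧ p = a ∧ q = b ∧ r = c) ∨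
        (RR ((s + 1) % 3) a b c (q - p) (r - p) p ∧
         RR ((s + 1) % 3) (c - a) (a + c - b) b (2 * p - q) (p + q - r) (r - p) ∧
         RR ((s + 1) % 3) (b + c - a) (2 * c) (a + b + c) (r + p - q) (2 * p) (q + r - p)) := by
      have hs' : s = 0 ∨ s = 1 ∨ s = 2 := by omega
      rcases hs' with rfl | rfl | rfl
      · simp only [RR, if_true, Nat.zero_add, Nat.reduceMod, one_ne_zero, if_false] at *
        have cV := hV.le ha (by omega) (by omega)
        have cU := hU.le (by omega) (by omega) (by omega)
        have cW := hW.le (by omega) (by omega) (by omega)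
        rcases hV.inv0 ha (by omega) (by omega) (by omega) (by omega) with h | h1
        · left; exact ⟨trivial, h⟩
        · right
          rcases hW.inv0 (by omega) (by omega) (by omega) (by omega) (by omega) with h | h3
          · exfalso
            have := h1.le (by omega) (by omega) ha
            omega
          · have tW' := Rch.tri h3 (by omega) (by omega) (by omega) (by omega) (by omega) (by omega)
            rcases hU.inv0 (by omega) (by omega) (by omega) (by omega) (by omega) with h | h2
            · exfalso
              have := h1.le (by omega) (by omega) ha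
              omega
            · refine ⟨h1, ?_, ?_⟩
              · convert h2 using 1 <;> ring
              · convert h3 using 1 <;> ring
      · simp only [RR, Nat.reduceAdd, Nat.reduceMod, one_ne_zero, if_false, if_true,
          OfNat.ofNat_ne_zero, OfNat.ofNat_ne_one] at *
        have cV := hV.le (by omega) (by omega) ha
        have cU := hU.le (by omega) (by omega) (by omega)
        have cW := hW.le (by omega) (by omega) (by omega)
        right
        rcases hV.inv0 (by omega) (by omega) ha (by omega) (by omega) with h | h1
        · exfalso; omega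
        · rcases hW.inv0 (by omega) (by omega) (by omega) (by omega) (by omega) with h | h3
          · exfalso; omega
          · have tW' := Rch.tri h3 (by omega) (by omega) (by omega) (by omega) (by omega) (by omega)
            rcases hU.inv0 (by omega) (by omega) (by omega) (by omega) (by omega) with h | h2
            · exfalso; omega
            · refine ⟨h1, ?_, ?_⟩
              · convert h2 using 1 <;> ring
              · convert h3 using 1 <;> ring
      · simp only [RR, Nat.reduceAdd, Nat.reduceMod, one_ne_zero, if_false, if_true,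
          OfNat.ofNat_ne_zero, OfNat.ofNat_ne_one] at *
        have cV := hV.le (by omega) ha (by omega)
        have cU := hU.le (by omega) (by omega) (by omega)
        have cW := hW.le (by omega) (by omega) (by omega)
        right
        rcases hV.inv0 (by omega) ha (by omega) (by omega) (by omega) with h | h1
        · exfalso; omega
        · rcases hW.inv0 (by omega) (by omega) (by omega) (by omega) (by omega) with h | h3
          · exfalso; omega
          · have tW' := Rch.tri h3 (by omega) (by omega) (by omega) (by omega) (by omega) (by omega)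
            rcases hU.inv0 (by omega) (by omega) (by omega) (by omega) (by omega) with h | h2
            · exfalso; omega
            · refine ⟨h1, ?_, ?_⟩
              · convert h2 using 1 <;> ring
              · convert h3 using 1 <;> ring
    rcases key with ⟨rfl, rfl, rfl, rfl⟩ | ⟨h1, h2, h3⟩
    · exact ⟨0, rfl, rfl⟩
    · obtain ⟨j, hj, hjs⟩ := ih ((s + 1) % 3) (q - p) (r - p) p (Nat.mod_lt _ (by norm_num))
        (by push_cast at hn; omega) h1 (by convert h2 using 1 <;> ring) (by convert h3 using 1 <;> ring)
      refine ⟨j + 1, ?_, by omega⟩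
      rw [Function.iterate_succ_apply', ← hj]
      simp [Tm]

end Run7.h452
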