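import Mathlib

/-!
Relations on integers which are definable by finite systems of word equations over `Fin k` (all
words nonempty) together with integer linear constraints on the lengths of the words and the
integer parameters.
-/

set_option autoImplicit false

namespace Run7.h452

/-- a word over letters and word variables -/
abbrev Wd (k : ℕ) : Type := List (Fin k ⊕ ℕ)

/-- value of a word -/
def val {k : ℕ} (s : ℕ → List (Fin k)) (w : Wd k) : List (Fin k) :=
  w.flatMap (Sum.elim (fun a => [a]) s)

/-- a linear form in the parameters and the lengths -/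
abbrev Lin (α : Type) : Type := List ((α ⊕ ℕ) × ℤ)

def Lin.ev {α : Type} (x : α → ℤ) (y : ℕ → ℤ) (l : Lin α) : ℤ :=
  (l.map (fun t => t.2 * Sum.elim x y t.1)).sum

/-- a system: word equations, and linear equations `form = constant` -/
structure LS (k : ℕ) (α : Type) where
  eqs : List (Wd k × Wd k)
  lens : List (Lin α × ℤ)

/-- lengths of an assignment -/
def len {k : ℕ} (s : ℕ → List (Fin k)) : ℕ → ℤ := fun i => ((s i).length : ℤ)

def LS.Sat {k : ℕ} {α : Type} (S : LS k α) (x : α → ℤ) (s : ℕ → List (Fin k)) : Prop :=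
  (∀ i, s i ≠ []) ∧ (∀ e ∈ S.eqs, val s e.1 = val s e.2) ∧
    (∀ c ∈ S.lens, Lin.ev x (len s) c.1 = c.2)

def LS.Holds {k : ℕ} {α : Type} (S : LS k α) (x : α → ℤ) : Prop := ∃ s, S.Sat x s

/-- both sides of every equation are nonempty words -/
def LS.Ne {k : ℕ} {α : Type} (S : LS k α) : Prop := ∀ e ∈ S.eqs, e.1 ≠ [] ∧ e.2 ≠ []

/-- definable relation -/
def D (k : ℕ) {α : Type} (R : (α → ℤ) → Prop) : Prop :=
  ∃ S : LS k α, S.Ne ∧ ∀ x, R x ↔ S.Holds x

variable {k : ℕ} {α γ : Type}

theorem D.congr {R R' : (α → ℤ) → Prop} (h : D k R) (e : ∀ x, R x ↔ R' x) : D k R' := by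
  obtain ⟨S, h1, h2⟩ := h
  exact ⟨S, h1, fun x => (e x).symm.trans (h2 x)⟩

theorem val_map (f : ℕ → ℕ) (s : ℕ → List (Fin k)) (w : Wd k) :
    val s (w.map (Sum.map id f)) = val (s ∘ f) w := by
  unfold val
  rw [List.flatMap_map]
  congr 1
  funext a
  rcases a with a | a <;> rfl

theorem Lin.ev_nil (x : α → ℤ) (y : ℕ → ℤ) : Lin.ev x y [] = 0 := rfl

theorem Lin.ev_cons (x : α → ℤ) (y : ℕ → ℤ) (t : (α ⊕ ℕ) × ℤ) (l : Lin α) :
    Lin.ev x y (t :: l) = t.2 * Sum.elim x y t.1 + Lin.ev x y l := by
  simp [Lin.ev]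

theorem Lin.ev_append (x : α → ℤ) (y : ℕ → ℤ) (l l' : Lin α) :
    Lin.ev x y (l ++ l') = Lin.ev x y l + Lin.ev x y l' := by
  simp [Lin.ev]

/-- rename the word variables -/
def Lin.ren (f : ℕ → ℕ) (l : Lin α) : Lin α := l.map (fun t => (Sum.map id f t.1, t.2))

theorem Lin.ev_ren (f : ℕ → ℕ) (x : α → ℤ) (y : ℕ → ℤ) (l : Lin α) :
    Lin.ev x y (l.ren f) = Lin.ev x (y ∘ f) l := by
  unfold Lin.ev Lin.ren
  rw [List.map_map]
  congr 1
  apply List.map_congr_left
  intro t _
  rcases t with ⟨a | a, c⟩ <;> rfl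

def LS.ren (f : ℕ → ℕ) (S : LS k α) : LS k α :=
  ⟨S.eqs.map (fun e => (e.1.map (Sum.map id f), e.2.map (Sum.map id f))),
   S.lens.map (fun c => (c.1.ren f, c.2))⟩

theorem len_comp (f : ℕ → ℕ) (s : ℕ → List (Fin k)) : len s ∘ f = len (s ∘ f) := rfl

/-- the equation part and constraint part of satisfaction -/
def LS.Core (S : LS k α) (x : α → ℤ) (s : ℕ → List (Fin k)) : Prop :=
  (∀ e ∈ S.eqs, val s e.1 = val s e.2) ∧ (∀ c ∈ S.lens, Lin.ev x (len s) c.1 = c.2)

theorem LS.core_ren (f : ℕ → ℕ) (S : LS k α) (x : α → ℤ) (s : ℕ → List (Fin k)) :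
    (S.ren f).Core x s ↔ S.Core x (s ∘ f) := by
  unfold LS.Core LS.ren
  constructor
  · rintro ⟨h1, h2⟩
    refine ⟨fun e he => ?_, fun c hc => ?_⟩
    · have := h1 _ (List.mem_map_of_mem (f := fun e : Wd k × Wd k =>
        (e.1.map (Sum.map id f), e.2.map (Sum.map id f))) he)
      simpa [val_map] using this
    · have := h2 _ (List.mem_map_of_mem (f := fun c : Lin α × ℤ => (c.1.ren f, c.2)) hc)
      simpa [Lin.ev_ren, len_comp] using this
  · rintro ⟨h1, h2⟩
    refine ⟨fun e he => ?_, fun c hc => ?_⟩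
    · obtain ⟨e', he', rfl⟩ := List.mem_map.1 he
      simpa [val_map] using h1 e' he'
    · obtain ⟨c', hc', rfl⟩ := List.mem_map.1 hc
      simpa [Lin.ev_ren, len_comp] using h2 c' hc'

theorem LS.ne_ren (f : ℕ → ℕ) {S : LS k α} (h : S.Ne) : (S.ren f).Ne := by
  intro e he
  obtain ⟨e', he', rfl⟩ := List.mem_map.1 he
  have := h e' he'
  simpa using this

theorem D.and {R R' : (α → ℤ) → Prop} (h : D k R) (h' : D k R') :
    D k (fun x => R x ∧ R' x) := by
  obtain ⟨S, n1, h1⟩ := h
  obtain ⟨S', n2, h2⟩ := h'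
  let A := S.ren (fun i => 2 * i)
  let B := S'.ren (fun i => 2 * i + 1)
  refine ⟨⟨A.eqs ++ B.eqs, A.lens ++ B.lens⟩, ?_, fun x => ?_⟩
  · intro e he
    rcases List.mem_append.1 he with he | he
    · exact LS.ne_ren _ n1 e he
    · exact LS.ne_ren _ n2 e he
  · have key : ∀ s, (LS.mk (A.eqs ++ B.eqs) (A.lens ++ B.lens) : LS k α).Core x s ↔
        S.Core x (s ∘ (fun i => 2 * i)) ∧ S'.Core x (s ∘ (fun i => 2 * i + 1)) := by
      intro s
      rw [← LS.core_ren, ← LS.core_ren]
      unfold LS.Core
      simp only [List.mem_append, or_imp, forall_and]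
      tauto
    beta_reduce
    rw [h1, h2]
    constructor
    · rintro ⟨⟨s, hs1, hs2⟩, ⟨s', hs1', hs2'⟩⟩
      refine ⟨fun n => if n % 2 = 0 then s (n / 2) else s' (n / 2), ?_, (key _).2 ⟨?_, ?_⟩⟩
      · intro i
        dsimp only
        split_ifs
        · exact hs1 _
        · exact hs1' _
      · have : (fun n => if n % 2 = 0 then s (n / 2) else s' (n / 2)) ∘ (fun i => 2 * i) = s := by
          funext i
          simp
        rw [this]
        exact hs2
      · have : (fun n => if n % 2 = 0 then s (n / 2) else s' (n / 2)) ∘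
            (fun i => 2 * i + 1) = s' := by
          funext i
          have e1 : (2 * i + 1) % 2 = 1 := by omega
          have e2 : (2 * i + 1) / 2 = i := by omega
          simp [e1, e2]
        rw [this]
        exact hs2'
    · rintro ⟨s, hs1, hs2⟩
      obtain ⟨c1, c2⟩ := (key s).1 hs2
      exact ⟨⟨_, fun i => hs1 _, c1⟩, ⟨_, fun i => hs1 _, c2⟩⟩

/-! ### affine functions -/

/-- affine function with integer coefficients -/
def Aff (f : (γ → ℤ) → ℤ) : Prop :=
  ∃ (l : List (γ × ℤ)) (c : ℤ), ∀ w, f w = (l.map (fun t => t.2 * w t.1)).sum + c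

theorem Aff.var (g : γ) : Aff (fun w : γ → ℤ => w g) := ⟨[(g, 1)], 0, fun w => by simp⟩

theorem Aff.const (c : ℤ) : Aff (fun _ : γ → ℤ => c) := ⟨[], c, fun w => by simp⟩

theorem Aff.add {f g : (γ → ℤ) → ℤ} (hf : Aff f) (hg : Aff g) : Aff (fun w => f w + g w) := by
  obtain ⟨l, c, h⟩ := hf
  obtain ⟨l', c', h'⟩ := hg
  refine ⟨l ++ l', c + c', fun w => ?_⟩
  beta_reduce
  rw [h, h', List.map_append, List.sum_append]
  ring

theorem Aff.smul {f : (γ → ℤ) → ℤ} (e : ℤ) (hf : Aff f) : Aff (fun w => e * f w) := by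
  obtain ⟨l, c, h⟩ := hf
  refine ⟨l.map (fun t => (t.1, e * t.2)), e * c, fun w => ?_⟩
  beta_reduce
  rw [h, List.map_map, mul_add]
  congr 1
  rw [← List.sum_map_mul_left]
  congr 1
  apply List.map_congr_left
  intro t _
  simp only [Function.comp]
  ring

theorem Aff.neg {f : (γ → ℤ) → ℤ} (hf : Aff f) : Aff (fun w => - f w) := by
  obtain ⟨l, c, h⟩ := hf.smul (-1)
  exact ⟨l, c, fun w => by rw [← h]; ring⟩

theorem Aff.sub {f g : (γ → ℤ) → ℤ} (hf : Aff f) (hg : Aff g) : Aff (fun w => f w - g w) := by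
  obtain ⟨l, c, h⟩ := hf.add hg.neg
  exact ⟨l, c, fun w => by rw [← h]; ring⟩

theorem Aff.mul_const {f : (γ → ℤ) → ℤ} (hf : Aff f) (e : ℤ) : Aff (fun w => f w * e) := by
  obtain ⟨l, c, h⟩ := hf.smul e
  exact ⟨l, c, fun w => by rw [← h]; ring⟩

/-- substitution of affine functions for the parameters -/
theorem D.comp {R : (α → ℤ) → Prop} (h : D k R) {f : α → (γ → ℤ) → ℤ} (hf : ∀ a, Aff (f a)) :
    D k (fun w => R (fun a => f a w)) := by
  obtain ⟨S, n1, h1⟩ := h
  choose l c hl using hf
  -- transform a linear form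
  let T : Lin α → Lin γ := fun L => L.flatMap (fun t => Sum.elim
    (fun a => (l a).map (fun u => (Sum.inl u.1, t.2 * u.2))) (fun i => [(Sum.inr i, t.2)]) t.1)
  let C : Lin α → ℤ := fun L => (L.map (fun t => Sum.elim (fun a => t.2 * c a) (fun _ => 0) t.1)).sum
  have key : ∀ (w : γ → ℤ) (y : ℕ → ℤ) (L : Lin α),
      Lin.ev (fun a => f a w) y L = Lin.ev w y (T L) + C L := by
    intro w y L
    induction L with
    | nil => simp [Lin.ev, T, C]
    | cons t L ih =>
      rw [Lin.ev_cons, ih]
      have e1 : T (t :: L) = Sum.elim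
        (fun a => (l a).map (fun u => ((Sum.inl u.1 : γ ⊕ ℕ), t.2 * u.2)))
          (fun i => [(Sum.inr i, t.2)]) t.1 ++ T L := by
        simp [T]
      have e2 : C (t :: L) = Sum.elim (fun a => t.2 * c a) (fun _ => 0) t.1 + C L := by
        simp [C]
      rw [e1, e2, Lin.ev_append]
      rcases t with ⟨a | i, e⟩
      · simp only [Sum.elim_inl, hl, Lin.ev, List.map_map]
        have : ((l a).map ((fun t : (γ ⊕ ℕ) × ℤ => t.2 * Sum.elim w y t.1) ∘
            fun u : γ × ℤ => (Sum.inl u.1, e * u.2))).sum =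
            e * ((l a).map (fun t => t.2 * w t.1)).sum := by
          rw [← List.sum_map_mul_left]
          congr 1
          apply List.map_congr_left
          intro t _
          simp only [Function.comp, Sum.elim_inl]
          ring
        rw [this]
        ring
      · simp only [Sum.elim_inr, Lin.ev, List.map_cons, List.map_nil, List.sum_cons, List.sum_nil]
        ring
  refine ⟨⟨S.eqs, S.lens.map (fun d => (T d.1, d.2 - C d.1))⟩, n1, fun w => ?_⟩
  beta_reduce
  rw [h1]
  unfold LS.Holds LS.Sat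
  refine exists_congr fun s => and_congr Iff.rfl (and_congr Iff.rfl ?_)
  constructor
  · intro h d hd
    obtain ⟨d', hd', rfl⟩ := List.mem_map.1 hd
    have := h d' hd'
    rw [key] at this
    simp only
    linarith
  · intro h d hd
    have := h _ (List.mem_map_of_mem (f := fun d : Lin α × ℤ => (T d.1, d.2 - C d.1)) hd)
    simp only at this
    rw [key]
    linarith

/-! ### existential quantifiers -/

theorem exists_len [NeZero k] (n : ℕ) : ∃ w : List (Fin k), w ≠ [] ∧ w.length = n + 1 :=
  ⟨List.replicate (n + 1) 0, by simp, by simp⟩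

/-- quantification over integers: an integer is a difference of two lengths -/
theorem D.exs [NeZero k] {m : ℕ} {R : (α ⊕ Fin m → ℤ) → Prop} (h : D k R) :
    D k (fun x : α → ℤ => ∃ y : Fin m → ℤ, R (Sum.elim x y)) := by
  obtain ⟨S, n1, h1⟩ := h
  let sh : ℕ → ℕ := fun i => 2 * m + i
  let T : Lin (α ⊕ Fin m) → Lin α := fun L => L.flatMap (fun t => Sum.elim
    (Sum.elim (fun a => [(Sum.inl a, t.2)])
      (fun j : Fin m => [(Sum.inr (2 * j.val), t.2), (Sum.inr (2 * j.val + 1), -t.2)]))
    (fun i => [(Sum.inr (sh i), t.2)]) t.1)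
  have key : ∀ (x : α → ℤ) (y : ℕ → ℤ) (L : Lin (α ⊕ Fin m)),
      Lin.ev x y (T L) =
        Lin.ev (Sum.elim x (fun j : Fin m => y (2 * j.val) - y (2 * j.val + 1))) (y ∘ sh) L := by
    intro x y L
    induction L with
    | nil => simp [Lin.ev, T]
    | cons t L ih =>
      rw [Lin.ev_cons, ← ih]
      rcases t with ⟨(a | j) | i, e⟩
      · simp [T, Lin.ev]
      · simp [T, Lin.ev]
        ring
      · simp [T, Lin.ev]
  refine ⟨⟨S.eqs.map (fun e => (e.1.map (Sum.map id sh), e.2.map (Sum.map id sh))),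
    S.lens.map (fun d => (T d.1, d.2))⟩, ?_, fun x => ?_⟩
  · intro e he
    obtain ⟨e', he', rfl⟩ := List.mem_map.1 he
    have := n1 e' he'
    simpa using this
  · constructor
    · rintro ⟨y, hy⟩
      obtain ⟨s, hs1, hs2, hs3⟩ := (h1 _).1 hy
      -- positive and negative parts
      have hp : ∀ j : Fin m, ∃ u w : List (Fin k), u ≠ [] ∧ w ≠ [] ∧
          (u.length : ℤ) - w.length = y j := by
        intro j
        obtain ⟨u, hu, hu'⟩ := exists_len (k := k) (y j).toNat
        obtain ⟨w, hw, hw'⟩ := exists_len (k := k) (-y j).toNat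
        refine ⟨u, w, hu, hw, ?_⟩
        rw [hu', hw']
        push_cast
        omega
      choose u w hu hw huw using hp
      let s' : ℕ → List (Fin k) := fun n => if h : n < 2 * m then
        (if n % 2 = 0 then u ⟨n / 2, by omega⟩ else w ⟨n / 2, by omega⟩) else s (n - 2 * m)
      have hsh : s' ∘ sh = s := by
        funext i
        simp only [Function.comp, s', sh]
        rw [dif_neg (by omega)]
        congr 1
        omega
      have e0 : ∀ j : Fin m, s' (2 * j.val) = u j := by
        intro j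
        simp only [s']
        rw [dif_pos (by omega), if_pos (by omega)]
        congr 1
        apply Fin.ext
        simp
      have e1 : ∀ j : Fin m, s' (2 * j.val + 1) = w j := by
        intro j
        simp only [s']
        rw [dif_pos (by omega), if_neg (by omega)]
        congr 1
        apply Fin.ext
        simp
        omega
      refine ⟨s', ?_, ?_, ?_⟩
      · intro i
        simp only [s']
        split_ifs
        · exact hu _
        · exact hw _
        · exact hs1 _
      · intro e he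
        obtain ⟨e', he', rfl⟩ := List.mem_map.1 he
        simp only [val_map, hsh]
        exact hs2 e' he'
      · intro d hd
        obtain ⟨d', hd', rfl⟩ := List.mem_map.1 hd
        simp only
        rw [key, len_comp, hsh]
        have : (fun j : Fin m => len s' (2 * j.val) - len s' (2 * j.val + 1)) = y := by
          funext j
          simp only [len]
          rw [e0, e1]
          exact huw j
        rw [this]
        exact hs3 d' hd'
    · rintro ⟨s, hs1, hs2, hs3⟩
      refine ⟨fun j : Fin m => len s (2 * j.val) - len s (2 * j.val + 1), (h1 _).2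
        ⟨s ∘ sh, fun i => hs1 _, ?_, ?_⟩⟩
      · intro e he
        have := hs2 _ (List.mem_map_of_mem (f := fun e : Wd k × Wd k =>
          (e.1.map (Sum.map id sh), e.2.map (Sum.map id sh))) he)
        simpa [val_map] using this
      · intro d hd
        have := hs3 _ (List.mem_map_of_mem (f := fun d : Lin (α ⊕ Fin m) × ℤ => (T d.1, d.2)) hd)
        simp only at this
        rw [key, len_comp] at this
        exact this

/-! ### linear equations and inequalities -/

theorem D.eq [NeZero k] {f g : (α → ℤ) → ℤ} (hf : Aff f) (hg : Aff g) : D k (fun x => f x = g x) := by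
  obtain ⟨l, c, h⟩ := hf.sub hg
  refine ⟨⟨[], [(l.map (fun t => (Sum.inl t.1, t.2)), -c)]⟩, by intro e he; simp at he, fun x => ?_⟩
  have key : ∀ s : ℕ → List (Fin k), Lin.ev x (len s) (l.map (fun t => (Sum.inl t.1, t.2))) =
      (l.map (fun t => t.2 * x t.1)).sum := by
    intro s
    simp [Lin.ev, List.map_map, Function.comp_def]
  have hx := h x
  constructor
  · intro e
    refine ⟨fun _ => [0], by simp, by simp, ?_⟩
    intro d hd
    rw [List.mem_singleton] at hd
    subst hd
    simp only
    rw [key]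
    linarith
  · rintro ⟨s, -, -, h3⟩
    have := h3 _ (List.mem_singleton.2 rfl)
    simp only at this
    rw [key] at this
    linarith

theorem D.lt [NeZero k] {f g : (α → ℤ) → ℤ} (hf : Aff f) (hg : Aff g) : D k (fun x => f x < g x) := by
  obtain ⟨l, c, h⟩ := hg.sub hf
  refine ⟨⟨[], [((Sum.inr 0, -1) :: l.map (fun t => (Sum.inl t.1, t.2)), -c)]⟩,
    by intro e he; simp at he, fun x => ?_⟩
  have key : ∀ s : ℕ → List (Fin k), Lin.ev x (len s)
      ((Sum.inr 0, -1) :: l.map (fun t => (Sum.inl t.1, t.2))) =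
      (l.map (fun t => t.2 * x t.1)).sum - len s 0 := by
    intro s
    simp [Lin.ev, List.map_map, Function.comp_def]
    ring
  have hx := h x
  constructor
  · intro e
    refine ⟨fun _ => List.replicate (g x - f x).toNat 0, ?_, by simp, ?_⟩
    · intro i
      simp
      omega
    intro d hd
    rw [List.mem_singleton] at hd
    subst hd
    simp only
    rw [key]
    simp only [len, List.length_replicate]
    have : (((g x - f x).toNat : ℕ) : ℤ) = g x - f x := Int.toNat_of_nonneg (by linarith)
    rw [this]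
    linarith
  · rintro ⟨s, hs, -, h3⟩
    have := h3 _ (List.mem_singleton.2 rfl)
    simp only at this
    rw [key] at this
    have h0 : 0 < len s 0 := by
      simp only [len]
      have := List.length_pos_iff.2 (hs 0)
      exact_mod_cast this
    linarith

theorem D.le [NeZero k] {f g : (α → ℤ) → ℤ} (hf : Aff f) (hg : Aff g) : D k (fun x => f x ≤ g x) :=
  (D.lt hf (hg.add (Aff.const 1))).congr fun x => by
    constructor <;> intro h <;> omega

end Run7.h452
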