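import Mathlib
import Pool.Agent.Run7.h452.Words

/-!
Completeness: the words of `ar_sound` exist for the iterates of the move `M` (moves 2, 1, 0).
-/

set_option autoImplicit false

namespace Run7.h452

variable {σ : Type} (m : Fin 3 → σ) (d : σ) (v : Fin 3 → ℕ)

/-- state of the construction -/
structure St (P : List σ) (x y : Fin 3 → List σ) (V : Fin 3 → ℕ) : Prop where
  comm : ∀ i, x i ++ P = P ++ y i
  pre : ∀ i, ∃ t, y i = blk (m i) d (v i) ++ t
  sum : 2 * P.length + (v 0 + v 1 + v 2) = V 0 + V 1 + V 2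
  len : ∀ i, (x i).length = V i

/-- one move on vectors -/
def mv (i : Fin 3) (V : Fin 3 → ℕ) : Fin 3 → ℕ := fun j => if j = i then V j else V j + V i

variable {m d v}

theorem St.step {P : List σ} {x y : Fin 3 → List σ} {V : Fin 3 → ℕ} (h : St m d v P x y V)
    (i : Fin 3) : St m d v (x i ++ P) (fun j => if j = i then x j else x i ++ x j)
      (fun j => if j = i then y j else y j ++ y i) (mv i V) := by
  refine ⟨?_, ?_, ?_, ?_⟩
  · intro j
    by_cases hj : j = i
    · subst hj
      simp only [if_true]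
      conv_lhs => rw [h.comm j]
      rw [List.append_assoc]
    · simp only [hj, if_false]
      calc (x i ++ x j) ++ (x i ++ P) = x i ++ (x j ++ (x i ++ P)) := by rw [List.append_assoc]
        _ = x i ++ (x j ++ (P ++ y i)) := by rw [h.comm i]
        _ = x i ++ ((x j ++ P) ++ y i) := by rw [List.append_assoc]
        _ = x i ++ ((P ++ y j) ++ y i) := by rw [h.comm j]
        _ = (x i ++ P) ++ (y j ++ y i) := by simp [List.append_assoc]
  · intro j
    obtain ⟨t, ht⟩ := h.pre j
    by_cases hj : j = i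
    · subst hj
      simp only [if_true]
      exact ⟨t, ht⟩
    · simp only [hj, if_false]
      exact ⟨t ++ y i, by rw [ht, List.append_assoc]⟩
  · have hs := h.sum
    have hl := h.len i
    rw [List.length_append, hl]
    fin_cases i
    · simp [mv]
      omega
    · simp [mv]
      omega
    · simp [mv]
      omega
  · intro j
    by_cases hj : j = i
    · subst hj
      simp [mv, h.len]
    · simp [mv, hj, h.len]
      omega

/-- strict extension of the block -/
def SE (m : Fin 3 → σ) (d : σ) (v : Fin 3 → ℕ) (y : Fin 3 → List σ) (i : Fin 3) : Prop :=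
  ∃ t, t ≠ [] ∧ y i = blk (m i) d (v i) ++ t

theorem St.y_ne {P : List σ} {x y : Fin 3 → List σ} {V : Fin 3 → ℕ} (h : St m d v P x y V)
    (i : Fin 3) : y i ≠ [] := by
  obtain ⟨t, ht⟩ := h.pre i
  rw [ht]
  simp [blk]

theorem St.se_step {P : List σ} {x y : Fin 3 → List σ} {V : Fin 3 → ℕ} (h : St m d v P x y V)
    (i j : Fin 3) (hj : j ≠ i) : SE m d v (fun j => if j = i then y j else y j ++ y i) j := by
  obtain ⟨t, ht⟩ := h.pre j
  refine ⟨t ++ y i, ?_, ?_⟩
  · simp [h.y_ne i]
  · simp only [hj, if_false]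
    rw [ht, List.append_assoc]

theorem se_keep {y : Fin 3 → List σ} (i j : Fin 3) (h : SE m d v y j) :
    SE m d v (fun j => if j = i then y j else y j ++ y i) j := by
  obtain ⟨t, ht, hy⟩ := h
  by_cases hj : j = i
  · refine ⟨t, ht, ?_⟩
    simp only [hj, if_true]
    rw [← hj]
    exact hy
  · refine ⟨t ++ y i, ?_, ?_⟩
    · simp [ht]
    · simp only [hj, if_false]
      rw [hy, List.append_assoc]

/-- full invariant -/
def Full (m : Fin 3 → σ) (d : σ) (v V : Fin 3 → ℕ) : Prop :=
  ∃ (P : List σ) (x y : Fin 3 → List σ), St m d v P x y V ∧ (∃ P0, P = m 2 :: P0) ∧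
    ∀ i, SE m d v y i

theorem Full.step {V : Fin 3 → ℕ} (h : Full m d v V) (i : Fin 3) : Full m d v (mv i V) := by
  obtain ⟨P, x, y, h1, ⟨P0, h2⟩, h3⟩ := h
  refine ⟨_, _, _, h1.step i, ?_, fun j => se_keep i j (h3 j)⟩
  rw [h1.comm i, h2]
  exact ⟨P0 ++ y i, rfl⟩

theorem full_start (hv : ∀ i, 1 ≤ v i) : Full m d v (mv 0 (mv 1 (mv 2 v))) := by
  have h0 : St m d v [] (fun i => blk (m i) d (v i)) (fun i => blk (m i) d (v i)) v :=
    ⟨fun i => by simp, fun i => ⟨[], by simp⟩, by simp, fun i => blk_length _ _ _ (hv i)⟩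
  have h1 := h0.step 2
  have h2 := h1.step 1
  have hfull : Full m d v (mv 1 (mv 2 v)) := by
    refine ⟨_, _, _, h2, ?_, ?_⟩
    · rw [h1.comm 1]
      simp [blk]
    · intro j
      by_cases hj : j = 1
      · subst hj
        exact se_keep 1 1 (h0.se_step 2 1 (by decide))
      · exact h1.se_step 1 j hj
  exact hfull.step 0

/-- the move `M` -/
def M3 (V : Fin 3 → ℕ) : Fin 3 → ℕ := mv 0 (mv 1 (mv 2 V))

theorem M3_0 (V : Fin 3 → ℕ) : M3 V 0 = V 0 + V 1 + 2 * V 2 := by
  simp [M3, mv]; ring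
theorem M3_1 (V : Fin 3 → ℕ) : M3 V 1 = V 0 + 2 * V 1 + 3 * V 2 := by
  simp [M3, mv]; ring
theorem M3_2 (V : Fin 3 → ℕ) : M3 V 2 = V 0 + 2 * V 1 + 4 * V 2 := by
  simp [M3, mv]; ring

theorem full_iter (hv : ∀ i, 1 ≤ v i) (j : ℕ) : Full m d v (M3^[j + 1] v) := by
  induction j with
  | zero => exact full_start hv
  | succ j ih =>
    rw [Function.iterate_succ_apply']
    exact ((ih.step 2).step 1).step 0

theorem rep_comm (n : ℕ) : d :: List.replicate n d = List.replicate n d ++ [d] := by
  rw [← List.replicate_succ, List.replicate_succ']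

/-- the words exist -/
theorem ar_complete (hv : ∀ i, 2 ≤ v i) (j : ℕ) :
    ∃ (P : List σ) (x f t : Fin 3 → List σ), P ≠ [] ∧ (∀ i, x i ≠ []) ∧ (∀ i, f i ≠ []) ∧
      (∀ i, t i ≠ []) ∧ (∀ i, x i ++ m 2 :: P = m 2 :: P ++ m i :: (f i ++ t i)) ∧
      (∀ i, d :: f i = f i ++ [d]) ∧ (∀ i, (x i).length = M3^[j + 1] v i) ∧
      (∀ i, (f i).length + 1 = v i) ∧
      2 * (P.length + 1) + (v 0 + v 1 + v 2) =
        M3^[j + 1] v 0 + M3^[j + 1] v 1 + M3^[j + 1] v 2 := by
  obtain ⟨P, x, y, h1, ⟨P0, rfl⟩, h3⟩ := full_iter (m := m) (d := d) (v := v)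
    (fun i => by have := hv i; omega) j
  choose t ht hy using h3
  refine ⟨P0, x, fun i => List.replicate (v i - 1) d, t, ?_, ?_, ?_, ht, ?_, ?_, h1.len, ?_, ?_⟩
  · rintro rfl
    -- then `|P| = 1`, but the sum is too big
    have hs := h1.sum
    have e : ∀ V : Fin 3 → ℕ, M3 V 0 + M3 V 1 + M3 V 2 = 3 * V 0 + 5 * V 1 + 9 * V 2 := by
      intro V
      rw [M3_0, M3_1, M3_2]; ring
    have mono : ∀ j, v 0 + v 1 + v 2 ≤ M3^[j] v 0 + M3^[j] v 1 + M3^[j] v 2 := by
      intro j
      induction j with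
      | zero => simp
      | succ j ih =>
        rw [Function.iterate_succ_apply', e]
        omega
    have h5 := mono j
    rw [Function.iterate_succ_apply', e] at hs
    simp at hs
    have := hv 0
    omega
  · intro i hx
    have := congrArg List.length (h1.comm i)
    rw [hx] at this
    have h7 := h1.y_ne i
    simp at this
    exact h7 this
  · intro i
    have := hv i
    simp
    omega
  · intro i
    have := h1.comm i
    rw [hy i] at this
    simpa [blk] using this
  · intro i
    exact rep_comm _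
  · intro i
    have := hv i
    simp
    omega
  · have := h1.sum
    simpa using this

end Run7.h452
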