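import Mathlib
import Pool.Agent.Run7.h452.Words2
import Pool.Agent.Run7.h452.Orbit
import Pool.Agent.Run7.h452.Sys

/-!
The system of word equations over four letters for the reachability relation, and the system for
divisibility.
-/

set_option autoImplicit false

namespace Run7.h452

theorem commute_rep {σ : Type} (d : σ) : ∀ f : List σ, d :: f = f ++ [d] →
    f = List.replicate f.length d := by
  intro f
  induction f with
  | nil => intro _; rfl
  | cons a f ih =>
    intro h
    rw [List.cons_append] at h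
    obtain ⟨h1, h2⟩ := List.cons.inj h
    subst h1
    rw [List.length_cons, List.replicate_succ, ← ih h2]

/-- markers -/
def mk4 : Fin 3 → Fin 4 := fun i => i.castSucc

theorem mk4_inj : Function.Injective mk4 := Fin.castSucc_injective 3

theorem mk4_ne (i : Fin 3) : mk4 i ≠ 3 := by
  intro h
  have := congrArg Fin.val h
  simp [mk4] at this
  omega

/-- the system for reachability; parameters `0,1,2` base vector, `3,4,5` target vector -/
def arS : LS 4 (Fin 6) where
  eqs := [
    ([Sum.inr 0, Sum.inl 2, Sum.inr 9], [Sum.inl 2, Sum.inr 9, Sum.inl 0, Sum.inr 3, Sum.inr 6]),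
    ([Sum.inr 1, Sum.inl 2, Sum.inr 9], [Sum.inl 2, Sum.inr 9, Sum.inl 1, Sum.inr 4, Sum.inr 7]),
    ([Sum.inr 2, Sum.inl 2, Sum.inr 9], [Sum.inl 2, Sum.inr 9, Sum.inl 2, Sum.inr 5, Sum.inr 8]),
    ([Sum.inl 3, Sum.inr 3], [Sum.inr 3, Sum.inl 3]),
    ([Sum.inl 3, Sum.inr 4], [Sum.inr 4, Sum.inl 3]),
    ([Sum.inl 3, Sum.inr 5], [Sum.inr 5, Sum.inl 3])]
  lens := [
    ([(Sum.inr 0, 1), (Sum.inl 3, -1)], 0),
    ([(Sum.inr 1, 1), (Sum.inl 4, -1)], 0),
    ([(Sum.inr 2, 1), (Sum.inl 5, -1)], 0),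
    ([(Sum.inr 3, 1), (Sum.inl 0, -1)], -1),
    ([(Sum.inr 4, 1), (Sum.inl 1, -1)], -1),
    ([(Sum.inr 5, 1), (Sum.inl 2, -1)], -1),
    ([(Sum.inr 9, 2), (Sum.inl 0, 1), (Sum.inl 1, 1), (Sum.inl 2, 1), (Sum.inl 3, -1),
      (Sum.inl 4, -1), (Sum.inl 5, -1)], -2)]

theorem arS_ne : arS.Ne := by
  intro e he
  simp only [arS, List.mem_cons, List.not_mem_nil, or_false] at he
  rcases he with rfl | rfl | rfl | rfl | rfl | rfl <;> simp

theorem arS_iff (x : Fin 6 → ℤ) : arS.Holds x ↔ ∃ s : ℕ → List (Fin 4), (∀ i, s i ≠ []) ∧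
    (s 0 ++ 2 :: s 9 = 2 :: s 9 ++ 0 :: (s 3 ++ s 6)) ∧
    (s 1 ++ 2 :: s 9 = 2 :: s 9 ++ 1 :: (s 4 ++ s 7)) ∧
    (s 2 ++ 2 :: s 9 = 2 :: s 9 ++ 2 :: (s 5 ++ s 8)) ∧
    (3 :: s 3 = s 3 ++ [3]) ∧ (3 :: s 4 = s 4 ++ [3]) ∧ (3 :: s 5 = s 5 ++ [3]) ∧
    ((s 0).length : ℤ) = x 3 ∧ ((s 1).length : ℤ) = x 4 ∧ ((s 2).length : ℤ) = x 5 ∧
    ((s 3).length : ℤ) + 1 = x 0 ∧ ((s 4).length : ℤ) + 1 = x 1 ∧ ((s 5).length : ℤ) + 1 = x 2 ∧
    2 * (((s 9).length : ℤ) + 1) + (x 0 + x 1 + x 2) = x 3 + x 4 + x 5 := by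
  unfold LS.Holds LS.Sat arS
  refine exists_congr fun s => and_congr Iff.rfl ?_
  simp only [List.mem_cons, List.not_mem_nil, or_false, forall_eq_or_imp, forall_eq, val,
    List.flatMap_cons, List.flatMap_nil, Sum.elim_inl, Sum.elim_inr, List.append_nil,
    List.singleton_append, List.cons_append, List.nil_append, Lin.ev, List.map_cons, List.map_nil,
    List.sum_cons, List.sum_nil, len]
  constructor
  · rintro ⟨⟨h1, h2, h3, h4, h5, h6⟩, h7, h8, h9, h10, h11, h12, h13⟩
    exact ⟨h1, h2, h3, h4, h5, h6, by linarith, by linarith, by linarith, by linarith,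
      by linarith, by linarith, by linarith⟩
  · rintro ⟨h1, h2, h3, h4, h5, h6, h7, h8, h9, h10, h11, h12, h13⟩
    exact ⟨⟨h1, h2, h3, h4, h5, h6⟩, by linarith, by linarith, by linarith, by linarith,
      by linarith, by linarith, by linarith⟩

theorem arS_sound {x : Fin 6 → ℤ} (h : arS.Holds x) :
    Rch (x 0) (x 1) (x 2) (x 3) (x 4) (x 5) ∧ 0 < x 0 ∧ 0 < x 1 ∧ 0 < x 2 := by
  obtain ⟨s, -, h0, h1, h2, h3, h4, h5, l3, l4, l5, l0, l1, l2, hs⟩ := (arS_iff x).1 h
  have c3 := commute_rep _ _ h3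
  have c4 := commute_rep _ _ h4
  have c5 := commute_rep _ _ h5
  have key := ar_sound mk4 3 mk4_inj mk4_ne
    (![(s 3).length + 1, (s 4).length + 1, (s 5).length + 1]) (by
      intro i; fin_cases i <;> simp) _ (2 :: s 9) (![s 0, s 1, s 2])
    (![0 :: (s 3 ++ s 6), 1 :: (s 4 ++ s 7), 2 :: (s 5 ++ s 8)]) rfl (by
      intro i
      fin_cases i
      · exact h0
      · exact h1
      · exact h2) (by
      intro i
      fin_cases i
      · refine ⟨s 6, ?_⟩
        show (0 : Fin 4) :: (s 3 ++ s 6) = blk 0 3 ((s 3).length + 1) ++ s 6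
        simp only [blk, Nat.add_sub_cancel]
        rw [← c3]
        rfl
      · refine ⟨s 7, ?_⟩
        show (1 : Fin 4) :: (s 4 ++ s 7) = blk 1 3 ((s 4).length + 1) ++ s 7
        simp only [blk, Nat.add_sub_cancel]
        rw [← c4]
        rfl
      · refine ⟨s 8, ?_⟩
        show (2 : Fin 4) :: (s 5 ++ s 8) = blk 2 3 ((s 5).length + 1) ++ s 8
        simp only [blk, Nat.add_sub_cancel]
        rw [← c5]
        rfl) (Or.inr ⟨2, s 9, rfl⟩) (by
      simp
      omega)
  have r := key.toRch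
  simp only [Matrix.cons_val_zero, Matrix.cons_val_one, Matrix.cons_val] at r
  push_cast at r
  rw [l0, l1, l2, l3, l4, l5] at r
  exact ⟨r, by omega, by omega, by omega⟩

theorem Tm_M3 (v : Fin 3 → ℕ) (j : ℕ) :
    (((M3^[j] v 0 : ℕ) : ℤ), ((M3^[j] v 1 : ℕ) : ℤ), ((M3^[j] v 2 : ℕ) : ℤ)) =
      Tm^[3 * j] (((v 0 : ℕ) : ℤ), ((v 1 : ℕ) : ℤ), ((v 2 : ℕ) : ℤ)) := by
  induction j with
  | zero => rfl
  | succ j ih =>
    rw [Function.iterate_succ_apply', show 3 * (j + 1) = 3 + 3 * j by ring,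
      Function.iterate_add_apply, ← ih]
    rw [M3_0, M3_1, M3_2]
    simp only [Function.iterate_succ, Function.iterate_zero, Function.comp, Tm, id]
    push_cast
    refine Prod.ext ?_ (Prod.ext ?_ ?_)
    · simp only; ring
    · simp only; ring
    · simp only; ring

theorem arS_complete (a b c : ℤ) (ha : 2 ≤ a) (hb : 2 ≤ b) (hc : 2 ≤ c) (j : ℕ) :
    arS.Holds (![a, b, c, (Tm^[3 * (j + 1)] (a, b, c)).1, (Tm^[3 * (j + 1)] (a, b, c)).2.1,
      (Tm^[3 * (j + 1)] (a, b, c)).2.2]) := by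
  obtain ⟨a, rfl⟩ := Int.eq_ofNat_of_zero_le (show 0 ≤ a by omega)
  obtain ⟨b, rfl⟩ := Int.eq_ofNat_of_zero_le (show 0 ≤ b by omega)
  obtain ⟨c, rfl⟩ := Int.eq_ofNat_of_zero_le (show 0 ≤ c by omega)
  let v : Fin 3 → ℕ := ![a, b, c]
  obtain ⟨P, x, f, t, hP, hx, hf, ht, h1, h2, h3, h4, h5⟩ := ar_complete (m := mk4) (d := 3)
    (v := v) (by
      intro i
      fin_cases i
      · show 2 ≤ a
        omega
      · show 2 ≤ b
        omega
      · show 2 ≤ c
        omega) j
  have e := Tm_M3 v (j + 1)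
  have e' : Tm^[3 * (j + 1)] ((a : ℤ), (b : ℤ), (c : ℤ)) =
      (((M3^[j + 1] v 0 : ℕ) : ℤ), ((M3^[j + 1] v 1 : ℕ) : ℤ), ((M3^[j + 1] v 2 : ℕ) : ℤ)) := by
    rw [e]; rfl
  rw [e']
  rw [arS_iff]
  refine ⟨fun n => if n = 0 then x 0 else if n = 1 then x 1 else if n = 2 then x 2 else
    if n = 3 then f 0 else if n = 4 then f 1 else if n = 5 then f 2 else
    if n = 6 then t 0 else if n = 7 then t 1 else if n = 8 then t 2 else P, ?_, ?_, ?_, ?_, ?_, ?_,
    ?_, ?_, ?_, ?_, ?_, ?_, ?_, ?_⟩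
  · intro i
    dsimp only
    split_ifs <;> first | exact hx _ | exact hf _ | exact ht _ | exact hP
  · exact h1 0
  · exact h1 1
  · exact h1 2
  · exact h2 0
  · exact h2 1
  · exact h2 2
  · exact congrArg Nat.cast (h3 0)
  · exact congrArg Nat.cast (h3 1)
  · exact congrArg Nat.cast (h3 2)
  · have h : (f 0).length + 1 = a := h4 0
    show (((f 0).length : ℕ) : ℤ) + 1 = (a : ℤ)
    exact_mod_cast h
  · have h : (f 1).length + 1 = b := h4 1
    show (((f 1).length : ℕ) : ℤ) + 1 = (b : ℤ)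
    exact_mod_cast h
  · have h : (f 2).length + 1 = c := h4 2
    show (((f 2).length : ℕ) : ℤ) + 1 = (c : ℤ)
    exact_mod_cast h
  · have h : 2 * (P.length + 1) + (a + b + c) =
        M3^[j + 1] v 0 + M3^[j + 1] v 1 + M3^[j + 1] v 2 := h5
    show 2 * (((P.length : ℕ) : ℤ) + 1) + ((a : ℤ) + (b : ℤ) + (c : ℤ)) =
      ((M3^[j + 1] v 0 : ℕ) : ℤ) + ((M3^[j + 1] v 1 : ℕ) : ℤ) + ((M3^[j + 1] v 2 : ℕ) : ℤ)
    exact_mod_cast h

/-! ### divisibility -/

/-- parameters: `0` divisor, `1` multiple.  `u = f·1`, `f ∈ 0⁺`, `x u = u x`. -/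
def dvdS : LS 4 (Fin 2) where
  eqs := [
    ([Sum.inl 0, Sum.inr 0], [Sum.inr 0, Sum.inl 0]),
    ([Sum.inr 1, Sum.inr 0, Sum.inl 1], [Sum.inr 0, Sum.inl 1, Sum.inr 1])]
  lens := [
    ([(Sum.inr 0, 1), (Sum.inl 0, -1)], -1),
    ([(Sum.inr 1, 1), (Sum.inl 1, -1)], 0)]

theorem dvdS_ne : dvdS.Ne := by
  intro e he
  simp only [dvdS, List.mem_cons, List.not_mem_nil, or_false] at he
  rcases he with rfl | rfl <;> simp

theorem dvd_words (n : ℕ) : ∀ (N : ℕ) (x : List (Fin 4)), x.length = N →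
    x ++ (List.replicate n 0 ++ [1]) = (List.replicate n 0 ++ [1]) ++ x → (n + 1) ∣ x.length := by
  intro N
  induction N using Nat.strong_induction_on with
  | _ N ih =>
  intro x hx h
  by_cases hl : n + 1 ≤ x.length
  · obtain ⟨x', h1, h2⟩ := pre_of_le h.symm (by simp; omega)
    -- `x = u ++ x'`, `x = x' ++ u`
    have h3 : x' ++ (List.replicate n 0 ++ [1]) = (List.replicate n 0 ++ [1]) ++ x' := by
      rw [← h1, ← h2]
    have h4 : x.length = (n + 1) + x'.length := by
      rw [h1]; simp; omega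
    obtain ⟨q, hq⟩ := ih x'.length (by omega) x' rfl h3
    exact ⟨q + 1, by rw [h4, hq]; ring⟩
  · -- `x` is a proper prefix of `u`, hence empty
    obtain ⟨u', h1, h2⟩ := pre_of_le h (by simp; omega)
    -- `u = x ++ u'`, `u = u' ++ x`
    rcases List.eq_nil_or_concat x with rfl | ⟨y, a, hya⟩
    · simp
    · exfalso
      rw [List.concat_eq_append] at hya
      subst hya
      -- last letter of `x` is `1`, but all letters of `x` are zero
      have e1 : a = 1 := by
        have : (List.replicate n (0 : Fin 4) ++ [1]).getLast? = (u' ++ (y ++ [a])).getLast? := by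
          rw [h2]
        rw [← List.append_assoc] at this
        simpa using this.symm
      have hu' : u' ≠ [] := by
        rintro rfl
        have := congrArg List.length h1
        simp at this hl
        omega
      have e2 : a ∈ List.replicate n (0 : Fin 4) := by
        have h3 : (y ++ [a]) ++ u' = List.replicate n (0 : Fin 4) ++ [1] := h1.symm
        obtain ⟨w, b, rfl⟩ : ∃ w b, u' = w ++ [b] := by
          rcases List.eq_nil_or_concat u' with h | ⟨w, b, h⟩
          · exact absurd h hu'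
          · exact ⟨w, b, by simpa using h⟩
        rw [← List.append_assoc] at h3
        have h4 := (List.append_inj' h3 rfl).1
        rw [← h4]
        simp
      rw [List.mem_replicate] at e2
      rw [e2.2] at e1
      exact absurd e1 (by decide)

theorem dvdS_holds (x : Fin 2 → ℤ) : dvdS.Holds x ↔ 2 ≤ x 0 ∧ 1 ≤ x 1 ∧ x 0 ∣ x 1 := by
  have iff1 : dvdS.Holds x ↔ ∃ s : ℕ → List (Fin 4), (∀ i, s i ≠ []) ∧ (0 :: s 0 = s 0 ++ [0]) ∧
      (s 1 ++ (s 0 ++ [1]) = s 0 ++ 1 :: s 1) ∧ ((s 0).length : ℤ) + 1 = x 0 ∧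
      ((s 1).length : ℤ) = x 1 := by
    unfold LS.Holds LS.Sat dvdS
    refine exists_congr fun s => and_congr Iff.rfl ?_
    simp only [List.mem_cons, List.not_mem_nil, or_false, forall_eq_or_imp, forall_eq, val,
      List.flatMap_cons, List.flatMap_nil, Sum.elim_inl, Sum.elim_inr, List.append_nil,
      List.singleton_append, List.cons_append, List.nil_append, Lin.ev, List.map_cons,
      List.map_nil, List.sum_cons, List.sum_nil, len]
    constructor
    · rintro ⟨⟨h1, h2⟩, h3, h4⟩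
      exact ⟨h1, h2, by linarith, by linarith⟩
    · rintro ⟨h1, h2, h3, h4⟩
      exact ⟨⟨h1, h2⟩, by linarith, by linarith⟩
  rw [iff1]
  constructor
  · rintro ⟨s, h0, h1, h2, h3, h4⟩
    have c := commute_rep _ _ h1
    have l0 := List.length_pos_iff.2 (h0 0)
    have l1 := List.length_pos_iff.2 (h0 1)
    rw [c] at h2
    have := dvd_words (s 0).length _ (s 1) rfl (by
      rw [h2]; simp)
    refine ⟨by omega, by omega, ?_⟩
    rw [← h3, ← h4]
    exact_mod_cast this
  · rintro ⟨h0, h1, q, hq⟩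
    have hq0 : 0 < q := by
      by_contra hc
      have : x 0 * q ≤ 0 := mul_nonpos_of_nonneg_of_nonpos (by omega) (by omega)
      omega
    let n := (x 0 - 1).toNat
    have hn : (n : ℤ) = x 0 - 1 := Int.toNat_of_nonneg (by omega)
    let u : List (Fin 4) := List.replicate n 0 ++ [1]
    let w : ℕ → List (Fin 4) := fun i => (List.replicate i u).flatten
    have hw : ∀ i, w i ++ u = u ++ w i := by
      intro i
      induction i with
      | zero => simp [w]
      | succ i ih =>
        have : w (i + 1) = u ++ w i := by simp [w, List.replicate_succ]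
        rw [this, List.append_assoc, ih]
    have hwl : ∀ i, (w i).length = (n + 1) * i := by
      intro i
      induction i with
      | zero => simp [w]
      | succ i ih =>
        have : w (i + 1) = u ++ w i := by simp [w, List.replicate_succ]
        rw [this, List.length_append, ih]
        simp [u]
        ring
    refine ⟨fun i => if i = 0 then List.replicate n 0 else w q.toNat, ?_, ?_, ?_, ?_, ?_⟩
    · intro i
      dsimp only
      split_ifs
      · simp
        omega
      · intro h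
        have := congrArg List.length h
        rw [hwl] at this
        simp at this
        omega
    · simpa using rep_comm n
    · have := hw q.toNat
      simp only [u] at this
      simp only [if_true, one_ne_zero, if_false]
      rw [this]
      simp
    · simp [hn]
    · simp only [one_ne_zero, if_false]
      rw [hwl]
      push_cast
      rw [hn, Int.toNat_of_nonneg hq0.le]
      rw [hq]
      ring

end Run7.h452
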