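import Mathlib
import Pool.Agent.Run7.h452.ArSys

/-!
The orbit relation `V = T^{3(j+1)} v` is definable, and so is a relation which bounds a number by
a cubic polynomial of another one.
-/

set_option autoImplicit false

namespace Run7.h452

/-- the orbit relation -/
def Orb (a b c p q r : ℤ) : Prop :=
  2 ≤ a ∧ a < b ∧ b < c ∧ c < a + b ∧ ∃ j : ℕ, (p, q, r) = Tm^[3 * (j + 1)] (a, b, c)

/-- `T - 1` -/
def Um (x : ℤ × ℤ × ℤ) : ℤ × ℤ × ℤ := (x.2.2 - x.1, x.1 + x.2.2 - x.2.1, x.2.1)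

/-- `T² - 1` -/
def Wm (x : ℤ × ℤ × ℤ) : ℤ × ℤ × ℤ :=
  (x.2.1 + x.2.2 - x.1, 2 * x.2.2, x.1 + x.2.1 + x.2.2)

theorem Um_Tm : Function.Commute Um Tm := by
  intro x
  simp only [Um, Tm]
  refine Prod.ext ?_ (Prod.ext ?_ ?_) <;> simp only <;> ring

theorem Wm_Tm : Function.Commute Wm Tm := by
  intro x
  simp only [Wm, Tm]
  refine Prod.ext ?_ (Prod.ext ?_ ?_) <;> simp only <;> ring

theorem arS_sum {x : Fin 6 → ℤ} (h : arS.Holds x) : x 0 + x 1 + x 2 < x 3 + x 4 + x 5 := by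
  obtain ⟨s, hs, -, -, -, -, -, -, -, -, -, -, -, -, hsum⟩ := (arS_iff x).1 h
  omega

theorem D_orb : D 4 (fun x : Fin 6 → ℤ => Orb (x 0) (x 1) (x 2) (x 3) (x 4) (x 5)) := by
  have hA : D 4 (fun x : Fin 6 → ℤ => arS.Holds x) := ⟨arS, arS_ne, fun _ => Iff.rfl⟩
  have v : ∀ i : Fin 6, Aff (fun x : Fin 6 → ℤ => x i) := fun i => Aff.var i
  have h1 := D.comp hA (f := ![fun x : Fin 6 → ℤ => x 2 - x 0, fun x => x 0 + x 2 - x 1,
    fun x => x 1, fun x => x 5 - x 3, fun x => x 3 + x 5 - x 4, fun x => x 4]) (by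
      intro i
      fin_cases i
      · exact (v 2).sub (v 0)
      · exact ((v 0).add (v 2)).sub (v 1)
      · exact v 1
      · exact (v 5).sub (v 3)
      · exact ((v 3).add (v 5)).sub (v 4)
      · exact v 4)
  have h2 := D.comp hA (f := ![fun x : Fin 6 → ℤ => x 1 + x 2 - x 0, fun x => 2 * x 2,
    fun x => x 0 + x 1 + x 2, fun x => x 4 + x 5 - x 3, fun x => 2 * x 5,
    fun x => x 3 + x 4 + x 5]) (by
      intro i
      fin_cases i
      · exact ((v 1).add (v 2)).sub (v 0)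
      · exact (v 2).smul 2
      · exact ((v 0).add (v 1)).add (v 2)
      · exact ((v 4).add (v 5)).sub (v 3)
      · exact (v 5).smul 2
      · exact ((v 3).add (v 4)).add (v 5))
  refine ((D.le (Aff.const 2) (v 0)).and ((D.lt (v 0) (v 1)).and ((D.lt (v 1) (v 2)).and
    ((D.lt (v 2) ((v 0).add (v 1))).and (hA.and (h1.and h2)))))).congr fun x => ?_
  constructor
  · rintro ⟨e0, e1, e2, e3, g0, g1, g2⟩
    refine ⟨e0, e1, e2, e3, ?_⟩
    have r0 := (arS_sound g0).1
    have r1 := (arS_sound g1).1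
    have r2 := (arS_sound g2).1
    simp only [Matrix.cons_val_zero, Matrix.cons_val_one, Matrix.cons_val] at r1 r2
    have hsum := arS_sum g0
    obtain ⟨j, hj, hj3⟩ := orb_main (x 0) (x 1) (x 2) (by omega) e1 e2 e3
      (x 3 + x 4 + x 5).toNat 0 (x 3) (x 4) (x 5) (by norm_num) (by omega)
      (by simpa [RR] using r0) (by simpa [RR] using r1) (by simpa [RR] using r2)
    have hj0 : j ≠ 0 := by
      rintro rfl
      simp only [Function.iterate_zero, id, Prod.mk.injEq] at hj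
      omega
    refine ⟨j / 3 - 1, ?_⟩
    have : 3 * (j / 3 - 1 + 1) = j := by omega
    rw [this]
    exact hj
  · rintro ⟨e0, e1, e2, e3, j, hj⟩
    refine ⟨e0, e1, e2, e3, ?_, ?_, ?_⟩
    · have := arS_complete (x 0) (x 1) (x 2) e0 (by omega) (by omega) j
      rw [← hj] at this
      convert this using 1
      funext i
      fin_cases i <;> rfl
    · have := arS_complete (x 2 - x 0) (x 0 + x 2 - x 1) (x 1) (by omega) (by omega) (by omega) j
      have e : Tm^[3 * (j + 1)] (x 2 - x 0, x 0 + x 2 - x 1, x 1) =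
          (x 5 - x 3, x 3 + x 5 - x 4, x 4) := by
        have h := (Um_Tm.iterate_right (3 * (j + 1))) (x 0, x 1, x 2)
        rw [← hj] at h
        exact h.symm
      rw [e] at this
      convert this using 1
      funext i
      fin_cases i <;> rfl
    · have := arS_complete (x 1 + x 2 - x 0) (2 * x 2) (x 0 + x 1 + x 2) (by omega) (by omega)
        (by omega) j
      have e : Tm^[3 * (j + 1)] (x 1 + x 2 - x 0, 2 * x 2, x 0 + x 1 + x 2) =
          (x 4 + x 5 - x 3, 2 * x 5, x 3 + x 4 + x 5) := by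
        have h := (Wm_Tm.iterate_right (3 * (j + 1))) (x 0, x 1, x 2)
        rw [← hj] at h
        exact h.symm
      rw [e] at this
      convert this using 1
      funext i
      fin_cases i <;> rfl

/-! ### linearity and monotonicity of the iterates -/

/-- componentwise order -/
def Le3 (x y : ℤ × ℤ × ℤ) : Prop := x.1 ≤ y.1 ∧ x.2.1 ≤ y.2.1 ∧ x.2.2 ≤ y.2.2

theorem Tm_mono {x y : ℤ × ℤ × ℤ} (h : Le3 x y) : Le3 (Tm x) (Tm y) := by
  obtain ⟨h1, h2, h3⟩ := h
  simp only [Le3, Tm]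
  omega

theorem Tm_iter_mono (n : ℕ) {x y : ℤ × ℤ × ℤ} (h : Le3 x y) : Le3 (Tm^[n] x) (Tm^[n] y) := by
  induction n with
  | zero => exact h
  | succ n ih =>
    rw [Function.iterate_succ_apply', Function.iterate_succ_apply']
    exact Tm_mono ih

theorem Tm_add (x y : ℤ × ℤ × ℤ) : Tm (x + y) = Tm x + Tm y := by
  simp only [Tm]
  refine Prod.ext ?_ (Prod.ext ?_ ?_) <;> simp <;> ring

theorem Tm_iter_add (n : ℕ) (x y : ℤ × ℤ × ℤ) : Tm^[n] (x + y) = Tm^[n] x + Tm^[n] y := by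
  induction n with
  | zero => rfl
  | succ n ih =>
    rw [Function.iterate_succ_apply', Function.iterate_succ_apply', Function.iterate_succ_apply',
      ih, Tm_add]

theorem Tm_smul (c : ℤ) (x : ℤ × ℤ × ℤ) : Tm (c • x) = c • Tm x := by
  simp only [Tm]
  refine Prod.ext ?_ (Prod.ext ?_ ?_) <;> simp <;> ring

theorem Tm_iter_smul (n : ℕ) (c : ℤ) (x : ℤ × ℤ × ℤ) : Tm^[n] (c • x) = c • Tm^[n] x := by
  induction n with
  | zero => rfl
  | succ n ih =>
    rw [Function.iterate_succ_apply', Function.iterate_succ_apply', ih, Tm_smul]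

/-- one application of `T³` multiplies a vector with `0 < a < b < c` by at least `4` -/
theorem Tm3_ge {a b c : ℤ} (ha : 0 < a) (hab : a < b) (hbc : b < c) :
    Le3 (4 * a, 4 * b, 4 * c) (Tm^[3] (a, b, c)) := by
  simp only [Function.iterate_succ, Function.iterate_zero, Function.comp, Tm, id, Le3]
  omega

theorem Tm_iter_pos (n : ℕ) {a b c : ℤ} (ha : 0 < a) (hb : 0 < b) (hc : 0 < c) :
    0 < (Tm^[n] (a, b, c)).1 ∧ 0 < (Tm^[n] (a, b, c)).2.1 ∧ 0 < (Tm^[n] (a, b, c)).2.2 := by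
  induction n with
  | zero => exact ⟨ha, hb, hc⟩
  | succ n ih =>
    rw [Function.iterate_succ_apply']
    simp only [Tm]
    omega

/-- the iterates of `T³` grow: at least factor `4` after the first -/
theorem Tm3_iter_ge (n : ℕ) {a b c : ℤ} (ha : 0 < a) (hab : a < b) (hbc : b < c) :
    Le3 (4 * a, 4 * b, 4 * c) (Tm^[3 * (n + 1)] (a, b, c)) := by
  induction n with
  | zero => exact Tm3_ge ha hab hbc
  | succ n ih =>
    have e : 3 * (n + 1 + 1) = 3 + 3 * (n + 1) := by ring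
    rw [e, Function.iterate_add_apply]
    have hp := Tm_iter_pos (3 * (n + 1)) ha (by omega : 0 < b) (by omega : 0 < c)
    set y := Tm^[3 * (n + 1)] (a, b, c) with hy
    obtain ⟨y1, y2, y3⟩ := y
    simp only [Function.iterate_succ, Function.iterate_zero, Function.comp, Tm, id, Le3] at *
    omega

/-- comparable bases of targets which differ by `e₁` have the same exponent -/
theorem same_exp {a b c a' b' c' : ℤ} (ha : 0 < a) (hab : a < b) (hbc : b < c)
    (ha' : 0 < a') (hab' : a' < b') (hbc' : b' < c')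
    (h1 : Le3 (a', b', c') (2 * a, 2 * b, 2 * c)) (h2 : Le3 (a, b, c) (2 * a', 2 * b', 2 * c'))
    {i j : ℕ} {p q r : ℤ} (e1 : (p, q, r) = Tm^[3 * (i + 1)] (a, b, c))
    (e2 : (p + 1, q, r) = Tm^[3 * (j + 1)] (a', b', c')) : i = j := by
  have pos := Tm_iter_pos (3 * (i + 1)) ha (by omega : 0 < b) (by omega : 0 < c)
  rw [← e1] at pos
  simp only at pos
  rcases Nat.lt_trichotomy i j with hij | hij | hij
  · exfalso
    obtain ⟨d, rfl⟩ : ∃ d, j = i + (d + 1) := ⟨j - i - 1, by omega⟩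
    have e : 3 * (i + (d + 1) + 1) = 3 * (i + 1) + 3 * (d + 1) := by ring
    rw [e, Function.iterate_add_apply] at e2
    have g1 := Tm3_iter_ge d ha' hab' hbc'
    have g2 : Le3 ((2 : ℤ) • ((a, b, c) : ℤ × ℤ × ℤ)) (Tm^[3 * (d + 1)] (a', b', c')) := by
      simp only [Le3, Prod.smul_mk, smul_eq_mul] at *
      omega
    have g3 := Tm_iter_mono (3 * (i + 1)) g2
    rw [Tm_iter_smul, ← e1, ← e2] at g3
    simp only [Le3, Prod.smul_mk, smul_eq_mul] at g3
    omega
  · exact hij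
  · exfalso
    obtain ⟨d, rfl⟩ : ∃ d, i = j + (d + 1) := ⟨i - j - 1, by omega⟩
    have e : 3 * (j + (d + 1) + 1) = 3 * (j + 1) + 3 * (d + 1) := by ring
    rw [e, Function.iterate_add_apply] at e1
    have g1 := Tm3_iter_ge d ha hab hbc
    have g2 : Le3 ((2 : ℤ) • ((a', b', c') : ℤ × ℤ × ℤ)) (Tm^[3 * (d + 1)] (a, b, c)) := by
      simp only [Le3, Prod.smul_mk, smul_eq_mul] at *
      omega
    have g3 := Tm_iter_mono (3 * (j + 1)) g2
    rw [Tm_iter_smul, ← e1, ← e2] at g3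
    simp only [Le3, Prod.smul_mk, smul_eq_mul] at g3
    omega

/-! ### the cubic bound -/

/-- `T` as a matrix -/
def TM : Matrix (Fin 3) (Fin 3) ℤ := !![0, 0, 1; 1, 0, 1; 0, 1, 1]

/-- triples as vectors -/
def vec (x : ℤ × ℤ × ℤ) : Fin 3 → ℤ := ![x.1, x.2.1, x.2.2]

theorem TM_vec (x : ℤ × ℤ × ℤ) : TM.mulVec (vec x) = vec (Tm x) := by
  funext i
  fin_cases i <;> simp [TM, vec, Tm, Matrix.mulVec, dotProduct, Fin.sum_univ_three]

theorem TM_pow_vec (n : ℕ) (x : ℤ × ℤ × ℤ) : (TM ^ n).mulVec (vec x) = vec (Tm^[n] x) := by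
  induction n with
  | zero => simp
  | succ n ih =>
    rw [pow_succ', ← Matrix.mulVec_mulVec, ih, TM_vec, Function.iterate_succ_apply']

theorem TM_det : TM.det = 1 := by
  rw [Matrix.det_fin_three]
  simp [TM]

/-- multiplication by `x + y T + z T²` -/
def GM (x y z : ℤ) : Matrix (Fin 3) (Fin 3) ℤ := x • (1 : Matrix (Fin 3) (Fin 3) ℤ) + y • TM + z • TM ^ 2

theorem GM_eq (x y z : ℤ) :
    GM x y z = !![x, z, y + z; y, x + z, y + 2 * z; z, y + z, x + y + 2 * z] := by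
  have h2 : TM ^ 2 = !![0, 1, 1; 0, 1, 2; 1, 1, 2] := by
    rw [pow_two]
    ext i j
    fin_cases i <;> fin_cases j <;> simp [TM, Matrix.mul_apply, Fin.sum_univ_three]
  unfold GM
  rw [h2, Matrix.one_fin_three]
  ext i j
  fin_cases i <;> fin_cases j <;> simp [TM] <;> ring

theorem GM_comm (x y z : ℤ) : Commute (GM x y z) TM := by
  unfold GM
  refine Commute.add_left (Commute.add_left ?_ ?_) ?_
  · exact (Commute.one_left TM).smul_left x
  · exact (Commute.refl TM).smul_left y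
  · exact ((Commute.refl TM).pow_left 2).smul_left z

/-- a matrix which commutes with `T` and fixes `e₁` is the identity -/
theorem eq_one_of_commute {X : Matrix (Fin 3) (Fin 3) ℤ} (h : Commute X TM)
    (h1 : X.mulVec (vec (1, 0, 0)) = vec (1, 0, 0)) : X = 1 := by
  have e2 : X.mulVec (vec (0, 1, 0)) = vec (0, 1, 0) := by
    have : vec (0, 1, 0) = TM.mulVec (vec (1, 0, 0)) := by rw [TM_vec]; rfl
    rw [this, Matrix.mulVec_mulVec, h.eq, ← Matrix.mulVec_mulVec, h1]
  have e3 : X.mulVec (vec (0, 0, 1)) = vec (0, 0, 1) := by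
    have : vec (0, 0, 1) = TM.mulVec (vec (0, 1, 0)) := by rw [TM_vec]; rfl
    rw [this, Matrix.mulVec_mulVec, h.eq, ← Matrix.mulVec_mulVec, e2]
  ext i j
  have a1 := congrFun h1 i
  have a2 := congrFun e2 i
  have a3 := congrFun e3 i
  simp only [Matrix.mulVec, dotProduct, Fin.sum_univ_three, vec, Matrix.cons_val_zero,
    Matrix.cons_val_one, Matrix.cons_val, mul_one, mul_zero, add_zero, zero_add] at a1 a2 a3
  fin_cases j
  · fin_cases i <;> simpa using a1
  · fin_cases i <;> simpa using a2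
  · fin_cases i <;> simpa using a3

theorem third_coord {n : ℕ} {x y z a b c : ℤ} (h : Tm^[n] (x, y, z) = (1, 0, 0)) :
    (Tm^[n] (a, b, c)).2.2 =
      (y * (y + z) - (x + z) * z) * a + (z * z - x * (y + z)) * b + (x * (x + z) - y * z) * c := by
  have h1 : (TM ^ n * GM x y z) = 1 := by
    apply eq_one_of_commute
    · exact ((Commute.refl TM).pow_left n).mul_left (GM_comm x y z)
    · rw [← Matrix.mulVec_mulVec]
      have : (GM x y z).mulVec (vec (1, 0, 0)) = vec (x, y, z) := by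
        rw [GM_eq]
        funext i
        fin_cases i <;> simp [vec, Matrix.mulVec, dotProduct, Fin.sum_univ_three]
      rw [this, TM_pow_vec, h]
  have hdet : (GM x y z).det = 1 := by
    have := congrArg Matrix.det h1
    rw [Matrix.det_mul, Matrix.det_pow, TM_det, one_pow, one_mul, Matrix.det_one] at this
    exact this
  have h2 : TM ^ n = (GM x y z).adjugate := by
    calc TM ^ n = TM ^ n * (GM x y z * (GM x y z).adjugate) := by
          rw [Matrix.mul_adjugate, hdet, one_smul, mul_one]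
      _ = (GM x y z).adjugate := by rw [← mul_assoc, h1, one_mul]
  have h3 := congrFun (TM_pow_vec n (a, b, c)) 2
  rw [h2, GM_eq, Matrix.adjugate_fin_three] at h3
  simp [vec, Matrix.mulVec, dotProduct, Fin.sum_univ_three] at h3
  rw [← h3]
  ring

theorem cubic_bound {n : ℕ} {x y z a b c H : ℤ} (h : Tm^[n] (x, y, z) = (1, 0, 0))
    (hx : |x| ≤ H) (hy : |y| ≤ H) (hz : |z| ≤ H) (ha : 0 ≤ a) (hb : 0 ≤ b) (hc : 0 ≤ c)
    (hac : a ≤ H) (hbc : b ≤ H) (hcc : c ≤ H) :
    (Tm^[n] (a, b, c)).2.2 ≤ 10 * H ^ 3 := by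
  rw [third_coord h]
  have H0 : 0 ≤ H := le_trans (abs_nonneg x) hx
  have m : ∀ {u w : ℤ}, |u| ≤ H → |w| ≤ H → |u * w| ≤ H * H := by
    intro u w hu hw
    rw [abs_mul]
    exact mul_le_mul hu hw (abs_nonneg _) H0
  have yy := abs_le.1 (m hy hy)
  have yz := abs_le.1 (m hy hz)
  have xz := abs_le.1 (m hx hz)
  have zz := abs_le.1 (m hz hz)
  have xy := abs_le.1 (m hx hy)
  have xx := abs_le.1 (m hx hx)
  have b1 : y * (y + z) - (x + z) * z ≤ 4 * (H * H) := by linarith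
  have b2 : z * z - x * (y + z) ≤ 3 * (H * H) := by linarith
  have b3 : x * (x + z) - y * z ≤ 3 * (H * H) := by linarith
  have HH : 0 ≤ H * H := mul_nonneg H0 H0
  have c1 : (y * (y + z) - (x + z) * z) * a ≤ 4 * (H * H) * H :=
    le_trans (mul_le_mul_of_nonneg_right b1 ha) (mul_le_mul_of_nonneg_left hac (by linarith))
  have c2 : (z * z - x * (y + z)) * b ≤ 3 * (H * H) * H :=
    le_trans (mul_le_mul_of_nonneg_right b2 hb) (mul_le_mul_of_nonneg_left hbc (by linarith))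
  have c3 : (x * (x + z) - y * z) * c ≤ 3 * (H * H) * H :=
    le_trans (mul_le_mul_of_nonneg_right b3 hc) (mul_le_mul_of_nonneg_left hcc (by linarith))
  calc _ ≤ 4 * (H * H) * H + 3 * (H * H) * H + 3 * (H * H) * H := by linarith
    _ = 10 * H ^ 3 := by ring

/-- the bounding relation -/
def UB (K Z : ℤ) : Prop := ∃ a b c p q r a' b' c' : ℤ,
  Orb a b c p q r ∧ Orb a' b' c' (p + 1) q r ∧ a' ≤ 2 * a ∧ b' ≤ 2 * b ∧ c' ≤ 2 * c ∧
  a ≤ 2 * a' ∧ b ≤ 2 * b' ∧ c ≤ 2 * c' ∧ c ≤ K ∧ Z ≤ r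

theorem UB.sound {K Z : ℤ} (h : UB K Z) : Z ≤ 10 * K ^ 3 := by
  obtain ⟨a, b, c, p, q, r, a', b', c', ⟨h1, h2, h3, h4, i, hi⟩, ⟨h1', h2', h3', h4', j, hj⟩,
    g1, g2, g3, g4, g5, g6, gK, gZ⟩ := h
  have hij := same_exp (by omega) h2 h3 (by omega) h2' h3' ⟨g1, g2, g3⟩ ⟨g4, g5, g6⟩ hi hj
  subst hij
  have e : Tm^[3 * (i + 1)] (a' - a, b' - b, c' - c) = (1, 0, 0) := by
    have : ((a', b', c') : ℤ × ℤ × ℤ) = (a, b, c) + (a' - a, b' - b, c' - c) := by
      refine Prod.ext ?_ (Prod.ext ?_ ?_) <;> simp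
    rw [this, Tm_iter_add, ← hi] at hj
    have h5 : Tm^[3 * (i + 1)] (a' - a, b' - b, c' - c) = (p + 1, q, r) - (p, q, r) := by
      rw [hj]; abel
    rw [h5]
    refine Prod.ext ?_ (Prod.ext ?_ ?_) <;> simp
  have := cubic_bound (a := a) (b := b) (c := c) (H := K) e (by rw [abs_le]; omega)
    (by rw [abs_le]; omega) (by rw [abs_le]; omega) (by omega) (by omega) (by omega)
    (by omega) (by omega) gK
  rw [← hi] at this
  simp only at this
  linarith

/-- the inverse of `T` -/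
def Ti (x : ℤ × ℤ × ℤ) : ℤ × ℤ × ℤ := (x.2.1 - x.1, x.2.2 - x.1, x.1)

theorem Tm_Ti (x : ℤ × ℤ × ℤ) : Tm (Ti x) = x := by
  simp only [Tm, Ti]
  refine Prod.ext ?_ (Prod.ext ?_ ?_) <;> simp

theorem Tm_Ti_iter (n : ℕ) (x : ℤ × ℤ × ℤ) : Tm^[n] (Ti^[n] x) = x := by
  induction n with
  | zero => rfl
  | succ n ih =>
    rw [Function.iterate_succ_apply' Ti, Function.iterate_succ_apply, Tm_Ti, ih]

theorem Tm_iter_third (n : ℕ) {a b c : ℤ} (ha : 0 < a) (hb : 0 < b) (hc : 0 < c) :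
    c + n ≤ (Tm^[n] (a, b, c)).2.2 := by
  induction n with
  | zero => simp
  | succ n ih =>
    have := Tm_iter_pos n ha hb hc
    rw [Function.iterate_succ_apply']
    simp only [Tm]
    push_cast
    omega

theorem UB.complete (B N : ℤ) : ∃ t : ℤ, N ≤ t ∧ 1 ≤ t ∧ UB (6 * t) (B * t) := by
  obtain ⟨j, hj⟩ : ∃ j : ℕ, B ≤ j := ⟨B.toNat, Int.self_le_toNat B⟩
  set n := 3 * (j + 1) with hn
  set h := Ti^[n] (1, 0, 0) with hh
  obtain ⟨x, y, z⟩ := h
  have e := Tm_Ti_iter n (1, 0, 0)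
  rw [← hh] at e
  obtain ⟨t, ht1, ht2⟩ : ∃ t : ℤ, N ≤ t ∧ |x| + |y| + |z| + 2 ≤ t :=
    ⟨max N (|x| + |y| + |z| + 2), le_max_left _ _, le_max_right _ _⟩
  have ax := abs_nonneg x
  have ay := abs_nonneg y
  have az := abs_nonneg z
  have bx := le_abs_self x
  have by' := le_abs_self y
  have bz := le_abs_self z
  have nx := neg_abs_le x
  have ny := neg_abs_le y
  have nz := neg_abs_le z
  refine ⟨t, ht1, by omega, 4 * t, 5 * t, 6 * t, (Tm^[n] (4 * t, 5 * t, 6 * t)).1,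
    (Tm^[n] (4 * t, 5 * t, 6 * t)).2.1, (Tm^[n] (4 * t, 5 * t, 6 * t)).2.2,
    4 * t + x, 5 * t + y, 6 * t + z, ⟨by omega, by omega, by omega, by omega, j, rfl⟩,
    ⟨by omega, by omega, by omega, by omega, j, ?_⟩, by omega, by omega, by omega, by omega,
    by omega, by omega, le_refl _, ?_⟩
  · have : ((4 * t + x, 5 * t + y, 6 * t + z) : ℤ × ℤ × ℤ) =
        (4 * t, 5 * t, 6 * t) + (x, y, z) := rfl
    rw [this, ← hn, Tm_iter_add, e]
    refine Prod.ext ?_ (Prod.ext ?_ ?_) <;> simp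
  · have : ((4 * t, 5 * t, 6 * t) : ℤ × ℤ × ℤ) = t • ((4, 5, 6) : ℤ × ℤ × ℤ) := by
      refine Prod.ext ?_ (Prod.ext ?_ ?_) <;> simp <;> ring
    rw [this, Tm_iter_smul]
    have g := Tm_iter_third n (a := 4) (b := 5) (c := 6) (by norm_num) (by norm_num) (by norm_num)
    simp only [Prod.smul_snd, smul_eq_mul]
    rw [mul_comm B t]
    apply mul_le_mul_of_nonneg_left _ (by omega)
    have : (n : ℤ) = 3 * (j + 1) := by rw [hn]; push_cast; ring
    omega

end Run7.h452
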