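import Mathlib
import Pool.Agent.Run7.h452.Orb2
import Pool.Agent.Helper844.Sys

/-!
Squares, products, and all recursively enumerable sets are definable by word equations over four
letters with linear constraints on lengths.
-/

set_option autoImplicit false

namespace Run7.h452

open Pool.Agent.Helper844.Sys

variable {γ : Type}

theorem D.rel2 {k : ℕ} {R : ℤ → ℤ → Prop} (h : D k (fun x : Fin 2 → ℤ => R (x 0) (x 1)))
    {f g : (γ → ℤ) → ℤ} (hf : Aff f) (hg : Aff g) : D k (fun w => R (f w) (g w)) :=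
  D.comp h (f := ![f, g]) (by intro i; fin_cases i; exacts [hf, hg])

theorem D.rel3 {k : ℕ} {R : ℤ → ℤ → ℤ → Prop}
    (h : D k (fun x : Fin 3 → ℤ => R (x 0) (x 1) (x 2)))
    {f g l : (γ → ℤ) → ℤ} (hf : Aff f) (hg : Aff g) (hl : Aff l) :
    D k (fun w => R (f w) (g w) (l w)) :=
  D.comp h (f := ![f, g, l]) (by intro i; fin_cases i; exacts [hf, hg, hl])

theorem D.rel6 {k : ℕ} {R : ℤ → ℤ → ℤ → ℤ → ℤ → ℤ → Prop}
    (h : D k (fun x : Fin 6 → ℤ => R (x 0) (x 1) (x 2) (x 3) (x 4) (x 5)))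
    {f0 f1 f2 f3 f4 f5 : (γ → ℤ) → ℤ} (h0 : Aff f0) (h1 : Aff f1) (h2 : Aff f2) (h3 : Aff f3)
    (h4 : Aff f4) (h5 : Aff f5) :
    D k (fun w => R (f0 w) (f1 w) (f2 w) (f3 w) (f4 w) (f5 w)) :=
  D.comp h (f := ![f0, f1, f2, f3, f4, f5])
    (by intro i; fin_cases i; exacts [h0, h1, h2, h3, h4, h5])

/-- divisibility of a positive number by a number which is at least `2` -/
def Dv (m x : ℤ) : Prop := 2 ≤ m ∧ 1 ≤ x ∧ m ∣ x

theorem D_dv : D 4 (fun x : Fin 2 → ℤ => Dv (x 0) (x 1)) :=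
  ⟨dvdS, dvdS_ne, fun x => (dvdS_holds x).symm⟩

theorem D_ub : D 4 (fun x : Fin 2 → ℤ => UB (x 0) (x 1)) := by
  have l : ∀ i : Fin 2, Aff (fun w : Fin 2 ⊕ Fin 9 → ℤ => w (Sum.inl i)) := fun i => Aff.var _
  have v : ∀ i : Fin 9, Aff (fun w : Fin 2 ⊕ Fin 9 → ℤ => w (Sum.inr i)) := fun i => Aff.var _
  have h := (D.rel6 D_orb (v 0) (v 1) (v 2) (v 3) (v 4) (v 5)).and
    ((D.rel6 D_orb (v 6) (v 7) (v 8) ((v 3).add (Aff.const 1)) (v 4) (v 5)).and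
    ((D.le (v 6) ((v 0).smul 2)).and ((D.le (v 7) ((v 1).smul 2)).and
    ((D.le (v 8) ((v 2).smul 2)).and ((D.le (v 0) ((v 6).smul 2)).and
    ((D.le (v 1) ((v 7).smul 2)).and ((D.le (v 2) ((v 8).smul 2)).and
    ((D.le (v 2) (l 0)).and (D.le (l 1) (v 5))))))))))
  refine (D.exs h).congr fun x => ?_
  constructor
  · rintro ⟨y, hy⟩
    exact ⟨y 0, y 1, y 2, y 3, y 4, y 5, y 6, y 7, y 8, hy⟩
  · rintro ⟨a, b, c, p, q, r, a', b', c', hy⟩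
    exact ⟨![a, b, c, p, q, r, a', b', c'], hy⟩

/-! ### squares -/

theorem crt4 {t Z n : ℤ} (h1 : (1 + 1 * (6 * t)) ∣ (1 * Z + n))
    (h2 : (1 + 2 * (6 * t)) ∣ (2 * Z + n)) (h3 : (1 + 3 * (6 * t)) ∣ (3 * Z + n))
    (h4 : (1 + 4 * (6 * t)) ∣ (4 * Z + n)) :
    (1 + 1 * (6 * t)) * ((1 + 2 * (6 * t)) * ((1 + 3 * (6 * t)) * (1 + 4 * (6 * t)))) ∣
      Z - n * (6 * t) := by
  have key : ∀ i : ℤ, (1 + i * (6 * t)) ∣ (i * Z + n) → (1 + i * (6 * t)) ∣ Z - n * (6 * t) := by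
    intro i h
    have c : IsCoprime (1 + i * (6 * t)) i := ⟨1, -(6 * t), by ring⟩
    apply c.dvd_of_dvd_mul_left
    have e : i * (Z - n * (6 * t)) = (i * Z + n) - n * (1 + i * (6 * t)) := by ring
    rw [e]
    exact dvd_sub h (Dvd.intro_left _ rfl)
  have c12 : IsCoprime (1 + 1 * (6 * t)) (1 + 2 * (6 * t)) := ⟨1 - 12 * t, 6 * t, by ring⟩
  have c13 : IsCoprime (1 + 1 * (6 * t)) (1 + 3 * (6 * t)) := ⟨1 - 9 * t, 3 * t, by ring⟩
  have c14 : IsCoprime (1 + 1 * (6 * t)) (1 + 4 * (6 * t)) := ⟨1 - 8 * t, 2 * t, by ring⟩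
  have c23 : IsCoprime (1 + 2 * (6 * t)) (1 + 3 * (6 * t)) := ⟨1 - 36 * t, 24 * t, by ring⟩
  have c24 : IsCoprime (1 + 2 * (6 * t)) (1 + 4 * (6 * t)) := ⟨1 - 24 * t, 12 * t, by ring⟩
  have c34 : IsCoprime (1 + 3 * (6 * t)) (1 + 4 * (6 * t)) := ⟨1 - 72 * t, 54 * t, by ring⟩
  exact IsCoprime.mul_dvd (c12.mul_right (c13.mul_right c14)) (key 1 h1)
    (IsCoprime.mul_dvd (c23.mul_right c24) (key 2 h2)
      (IsCoprime.mul_dvd c34 (key 3 h3) (key 4 h4)))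

theorem crt_eq {t Z n : ℤ} (ht : 1 ≤ t) (hn : 0 ≤ n) (hn' : n ≤ 6 * t) (hZ : 0 ≤ Z)
    (hZ' : Z ≤ 10 * (6 * t) ^ 3) (h1 : (1 + 1 * (6 * t)) ∣ (1 * Z + n))
    (h2 : (1 + 2 * (6 * t)) ∣ (2 * Z + n)) (h3 : (1 + 3 * (6 * t)) ∣ (3 * Z + n))
    (h4 : (1 + 4 * (6 * t)) ∣ (4 * Z + n)) : Z = n * (6 * t) := by
  have h := crt4 h1 h2 h3 h4
  have ht0 : 0 ≤ t := by omega
  have t2 : 0 ≤ t ^ 2 := by positivity
  have t3 : 0 ≤ t ^ 3 := by positivity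
  have t4 : 0 ≤ t ^ 4 := by positivity
  have e34 : t ^ 3 ≤ t ^ 4 := by nlinarith
  have hnt : 0 ≤ n * (6 * t) := by positivity
  have hnt' : n * (6 * t) ≤ 36 * t ^ 2 := by nlinarith
  have e23 : t ^ 2 ≤ t ^ 3 := by nlinarith
  have := Int.eq_zero_of_abs_lt_dvd h (by
    rw [abs_lt]
    constructor
    · nlinarith
    · nlinarith)
  linarith

/-- the graph of the squaring function -/
def SQ (n S : ℤ) : Prop := ∃ t Z1 Z2 : ℤ, 1 ≤ n ∧ 1 ≤ t ∧ UB (6 * t) Z2 ∧ n ≤ 6 * t ∧ 1 ≤ Z1 ∧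
  Z1 ≤ Z2 ∧ Dv (1 + 1 * (6 * t)) (1 * Z1 + n) ∧ Dv (1 + 2 * (6 * t)) (2 * Z1 + n) ∧
  Dv (1 + 3 * (6 * t)) (3 * Z1 + n) ∧ Dv (1 + 4 * (6 * t)) (4 * Z1 + n) ∧
  Dv (1 + 1 * (6 * (t + n))) (1 * Z2 + n) ∧ Dv (1 + 2 * (6 * (t + n))) (2 * Z2 + n) ∧
  Dv (1 + 3 * (6 * (t + n))) (3 * Z2 + n) ∧ Dv (1 + 4 * (6 * (t + n))) (4 * Z2 + n) ∧
  6 * S + Z1 = Z2

theorem SQ_iff (n S : ℤ) : SQ n S ↔ 1 ≤ n ∧ S = n * n := by
  constructor
  · rintro ⟨t, Z1, Z2, hn, ht, hub, hnt, hZ1, hZ12, ⟨-, -, a1⟩, ⟨-, -, a2⟩, ⟨-, -, a3⟩,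
      ⟨-, -, a4⟩, ⟨-, -, b1⟩, ⟨-, -, b2⟩, ⟨-, -, b3⟩, ⟨-, -, b4⟩, hS⟩
    have hZ2 := hub.sound
    have e1 := crt_eq ht (by omega) hnt (by omega) (by omega) a1 a2 a3 a4
    have mono : (6 * t) ^ 3 ≤ (6 * (t + n)) ^ 3 :=
      pow_le_pow_left₀ (by omega) (by omega) 3
    have e2 := crt_eq (t := t + n) (by omega) (by omega) (by omega) (by omega) (by omega)
      b1 b2 b3 b4
    refine ⟨hn, ?_⟩
    have : 6 * S = 6 * (n * n) := by
      have : 6 * S = Z2 - Z1 := by omega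
      rw [this, e1, e2]
      ring
    linarith
  · rintro ⟨hn, rfl⟩
    obtain ⟨t, htn, ht1, a, b, c, p, q, r, a', b', c', h⟩ := UB.complete (6 * n + 6 * (n * n)) n
    have n2 : 0 ≤ n * n := by positivity
    have hZ : n * (6 * (t + n)) ≤ (6 * n + 6 * (n * n)) * t := by nlinarith
    have hp : 0 ≤ n * t := by positivity
    have hp1 : 1 ≤ n * t := by nlinarith
    refine ⟨t, n * (6 * t), n * (6 * (t + n)), hn, ht1,
      ⟨a, b, c, p, q, r, a', b', c', ?_⟩, by omega, by nlinarith, by nlinarith, ?_⟩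
    · obtain ⟨x1, x2, x3, x4, x5, x6, x7, x8, x9, x10⟩ := h
      exact ⟨x1, x2, x3, x4, x5, x6, x7, x8, x9, le_trans hZ x10⟩
    · have key : ∀ i u : ℤ, 1 ≤ i → 1 ≤ u → Dv (1 + i * (6 * u)) (i * (n * (6 * u)) + n) := by
        intro i u hi hu
        have : 1 ≤ i * u := by nlinarith
        refine ⟨by nlinarith, ?_, n, by ring⟩
        have : 0 ≤ i * (n * (6 * u)) := by positivity
        omega
      refine ⟨key 1 t (by norm_num) ht1, key 2 t (by norm_num) ht1, key 3 t (by norm_num) ht1,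
        key 4 t (by norm_num) ht1, key 1 (t + n) (by norm_num) (by omega),
        key 2 (t + n) (by norm_num) (by omega), key 3 (t + n) (by norm_num) (by omega),
        key 4 (t + n) (by norm_num) (by omega), by ring⟩

theorem D_sq : D 4 (fun x : Fin 2 → ℤ => SQ (x 0) (x 1)) := by
  have n : Aff (fun w : Fin 2 ⊕ Fin 3 → ℤ => w (Sum.inl 0)) := Aff.var _
  have S : Aff (fun w : Fin 2 ⊕ Fin 3 → ℤ => w (Sum.inl 1)) := Aff.var _
  have t : Aff (fun w : Fin 2 ⊕ Fin 3 → ℤ => w (Sum.inr 0)) := Aff.var _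
  have Z1 : Aff (fun w : Fin 2 ⊕ Fin 3 → ℤ => w (Sum.inr 1)) := Aff.var _
  have Z2 : Aff (fun w : Fin 2 ⊕ Fin 3 → ℤ => w (Sum.inr 2)) := Aff.var _
  have dv : ∀ (i : ℤ) {f g : (Fin 2 ⊕ Fin 3 → ℤ) → ℤ}, Aff f → Aff g →
      D 4 (fun w => Dv (1 + i * (6 * f w)) (i * g w + w (Sum.inl 0))) := by
    intro i f g hf hg
    exact D.rel2 D_dv ((Aff.const 1).add ((hf.smul 6).smul i)) ((hg.smul i).add n)
  have h := (D.le (Aff.const 1) n).and ((D.le (Aff.const 1) t).and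
    ((D.rel2 D_ub (t.smul 6) Z2).and ((D.le n (t.smul 6)).and ((D.le (Aff.const 1) Z1).and
    ((D.le Z1 Z2).and ((dv 1 t Z1).and ((dv 2 t Z1).and ((dv 3 t Z1).and ((dv 4 t Z1).and
    ((dv 1 (t.add n) Z2).and ((dv 2 (t.add n) Z2).and ((dv 3 (t.add n) Z2).and
    ((dv 4 (t.add n) Z2).and (D.eq ((S.smul 6).add Z1) Z2))))))))))))))
  refine (D.exs h).congr fun x => ?_
  constructor
  · rintro ⟨y, hy⟩
    exact ⟨y 0, y 1, y 2, hy⟩
  · rintro ⟨a, b, c, hy⟩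
    exact ⟨![a, b, c], hy⟩

theorem D_sq' : D 4 (fun x : Fin 2 → ℤ => 1 ≤ x 0 ∧ x 1 = x 0 * x 0) :=
  D_sq.congr fun x => SQ_iff _ _

/-- products of positive numbers -/
theorem D_pm : D 4 (fun x : Fin 3 → ℤ => 1 ≤ x 0 ∧ 1 ≤ x 1 ∧ x 2 = x 0 * x 1) := by
  have x : Aff (fun w : Fin 3 ⊕ Fin 3 → ℤ => w (Sum.inl 0)) := Aff.var _
  have y : Aff (fun w : Fin 3 ⊕ Fin 3 → ℤ => w (Sum.inl 1)) := Aff.var _
  have z : Aff (fun w : Fin 3 ⊕ Fin 3 → ℤ => w (Sum.inl 2)) := Aff.var _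
  have a : Aff (fun w : Fin 3 ⊕ Fin 3 → ℤ => w (Sum.inr 0)) := Aff.var _
  have b : Aff (fun w : Fin 3 ⊕ Fin 3 → ℤ => w (Sum.inr 1)) := Aff.var _
  have c : Aff (fun w : Fin 3 ⊕ Fin 3 → ℤ => w (Sum.inr 2)) := Aff.var _
  have s := fun {f g : (Fin 3 ⊕ Fin 3 → ℤ) → ℤ} (hf : Aff f) (hg : Aff g) =>
    D.rel2 (R := fun u v => 1 ≤ u ∧ v = u * u) D_sq' hf hg
  have h := (s x a).and ((s y b).and ((s (x.add y) c).and
    (D.eq (((z.smul 2).add a).add b) c)))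
  refine (D.exs h).congr fun x => ?_
  constructor
  · rintro ⟨w, ⟨h1, h2⟩, ⟨h3, h4⟩, ⟨h5, h6⟩, h7⟩
    simp only [Sum.elim_inl, Sum.elim_inr] at h1 h2 h3 h4 h5 h6 h7
    refine ⟨h1, h3, ?_⟩
    rw [h2, h4, h6] at h7
    linarith
  · rintro ⟨h1, h2, h3⟩
    refine ⟨![x 0 * x 0, x 1 * x 1, (x 0 + x 1) * (x 0 + x 1)], ⟨h1, rfl⟩, ⟨h2, rfl⟩,
      ⟨?_, rfl⟩, ?_⟩
    · change 1 ≤ x 0 + x 1
      omega
    · change 2 * x 2 + x 0 * x 0 + x 1 * x 1 = (x 0 + x 1) * (x 0 + x 1)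
      rw [h3]
      ring

/-- products of integers -/
theorem D_mul : D 4 (fun x : Fin 3 → ℤ => x 2 = x 0 * x 1) := by
  have x : Aff (fun w : Fin 3 ⊕ Fin 8 → ℤ => w (Sum.inl 0)) := Aff.var _
  have y : Aff (fun w : Fin 3 ⊕ Fin 8 → ℤ => w (Sum.inl 1)) := Aff.var _
  have z : Aff (fun w : Fin 3 ⊕ Fin 8 → ℤ => w (Sum.inl 2)) := Aff.var _
  have v : ∀ i : Fin 8, Aff (fun w : Fin 3 ⊕ Fin 8 → ℤ => w (Sum.inr i)) := fun i => Aff.var _
  have s := fun {f g l : (Fin 3 ⊕ Fin 8 → ℤ) → ℤ} (hf : Aff f) (hg : Aff g) (hl : Aff l) =>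
    D.rel3 (R := fun u v w => 1 ≤ u ∧ 1 ≤ v ∧ w = u * v) D_pm hf hg hl
  have h := (s (v 0) (v 2) (v 4)).and ((s (v 1) (v 3) (v 5)).and ((s (v 0) (v 3) (v 6)).and
    ((s (v 1) (v 2) (v 7)).and ((D.eq x ((v 0).sub (v 1))).and ((D.eq y ((v 2).sub (v 3))).and
    (D.eq z ((((v 4).add (v 5)).sub (v 6)).sub (v 7))))))))
  refine (D.exs h).congr fun x => ?_
  constructor
  · rintro ⟨w, ⟨-, -, h1⟩, ⟨-, -, h2⟩, ⟨-, -, h3⟩, ⟨-, -, h4⟩, h5, h6, h7⟩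
    simp only [Sum.elim_inl, Sum.elim_inr] at h1 h2 h3 h4 h5 h6 h7
    rw [h7, h1, h2, h3, h4, h5, h6]
    ring
  · intro h
    obtain ⟨a, b, ha, hb, hab⟩ : ∃ a b : ℤ, 1 ≤ a ∧ 1 ≤ b ∧ x 0 = a - b := by
      rcases le_total (x 0) 0 with h0 | h0
      · exact ⟨1, 1 - x 0, by omega, by omega, by omega⟩
      · exact ⟨x 0 + 1, 1, by omega, by omega, by omega⟩
    obtain ⟨c, d, hc, hd, hcd⟩ : ∃ c d : ℤ, 1 ≤ c ∧ 1 ≤ d ∧ x 1 = c - d := by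
      rcases le_total (x 1) 0 with h0 | h0
      · exact ⟨1, 1 - x 1, by omega, by omega, by omega⟩
      · exact ⟨x 1 + 1, 1, by omega, by omega, by omega⟩
    refine ⟨![a, b, c, d, a * c, b * d, a * d, b * c], ⟨ha, hc, rfl⟩, ⟨hb, hd, rfl⟩,
      ⟨ha, hd, rfl⟩, ⟨hb, hc, rfl⟩, hab, hcd, ?_⟩
    change x 2 = a * c + b * d - a * d - b * c
    rw [h, hab, hcd]
    ring

theorem D_eqn {V : Type} (q : Eqn V) : D 4 (fun v : V → ℤ => q.Holds v) := by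
  have v : ∀ i : V, Aff (fun w : V ⊕ Fin 1 → ℤ => w (Sum.inl i)) := fun i => Aff.var _
  have p : Aff (fun w : V ⊕ Fin 1 → ℤ => w (Sum.inr 0)) := Aff.var _
  have h1 := D.rel3 (R := fun a b c => c = a * b) D_mul (v q.i) (v q.j) p
  have h2 := D.eq (k := 4) (((((p.smul q.e).add ((v q.k).smul q.a)).add ((v q.l).smul q.b)).add
    ((v q.m).smul q.c)).add (Aff.const q.d)) (Aff.const 0)
  refine (D.exs (h1.and h2)).congr fun v => ?_
  constructor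
  · rintro ⟨t, h3, h4⟩
    change t 0 = v q.i * v q.j at h3
    change q.e * t 0 + q.a * v q.k + q.b * v q.l + q.c * v q.m + q.d = 0 at h4
    rw [h3] at h4
    exact h4
  · intro h
    exact ⟨fun _ => v q.i * v q.j, rfl, h⟩

theorem D_true {k : ℕ} [NeZero k] : D k (fun _ : γ → ℤ => True) :=
  ⟨⟨[], []⟩, by intro e he; simp at he, fun x =>
    ⟨fun _ => ⟨fun _ => [0], by simp, by simp, by simp⟩, fun _ => trivial⟩⟩

theorem D_sys {V : Type} (L : List (Eqn V)) : D 4 (fun v : V → ℤ => ∀ q ∈ L, q.Holds v) := by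
  induction L with
  | nil => exact D_true.congr fun v => by simp
  | cons a l ih => exact ((D_eqn a).and ih).congr fun v => by simp

/-- every recursively enumerable set of natural numbers is definable -/
theorem D_re {S : ℕ → Prop} (hS : REPred S) :
    D 4 (fun x : Fin 1 → ℤ => ∃ n : ℕ, S n ∧ x 0 = n) := by
  obtain ⟨V, _, f0, L0, h0⟩ := exists_system S (Pool.Agent.Helper844.Dio.dprm hS)
  let e := Fintype.equivFin V
  have h2 := D.comp (D_sys L0) (f := fun (v : V) (w : Fin 1 ⊕ Fin (Fintype.card V) → ℤ) =>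
    w (Sum.inr (e v))) (fun v => Aff.var _)
  have h1 : D 4 (fun w : Fin 1 ⊕ Fin (Fintype.card V) → ℤ =>
      w (Sum.inr (e f0)) = 1 - 4 * w (Sum.inl 0)) :=
    D.eq (Aff.var _) ((Aff.const 1).sub ((Aff.var _).smul 4))
  refine (D.exs (h1.and h2)).congr fun x => ?_
  constructor
  · rintro ⟨y, h3, h4⟩
    simp only [Sum.elim_inl, Sum.elim_inr] at h3 h4
    obtain ⟨n, hn, hn'⟩ := (h0 (1 - 4 * x 0)).1 ⟨fun v => y (e v), h3, h4⟩
    exact ⟨n, hn, by omega⟩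
  · rintro ⟨n, hn, hx⟩
    obtain ⟨y, hy, hy'⟩ := (h0 (1 - 4 * (n : ℤ))).2 ⟨n, hn, rfl⟩
    refine ⟨fun i => y (e.symm i), ?_, ?_⟩
    · simp only [Sum.elim_inl, Sum.elim_inr, Equiv.symm_apply_apply]
      rw [hy, hx]
    · simp only [Sum.elim_inr, Equiv.symm_apply_apply]
      exact hy'

theorem exists_re : ∃ p : ℕ → Prop, REPred p ∧ ¬ ComputablePred p := by
  refine ⟨fun n => ((Denumerable.ofNat Nat.Partrec.Code n).eval 0).Dom, ?_, ?_⟩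
  · have h := Nat.Partrec.Code.eval_part.comp
      (Computable.ofNat Nat.Partrec.Code) (Computable.const (0 : ℕ))
    exact Partrec.dom_re h
  · intro h
    refine ComputablePred.halting_problem 0 ?_
    have : ManyOneReducible (fun c : Nat.Partrec.Code => (Nat.Partrec.Code.eval c 0).Dom)
        (fun n => ((Denumerable.ofNat Nat.Partrec.Code n).eval 0).Dom) := by
      refine ⟨Encodable.encode, Computable.encode, ?_⟩
      intro c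
      simp [Denumerable.ofNat_encode]
    exact ComputablePred.computable_of_manyOneReducible this h

end Run7.h452
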