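import Mathlib
import Pool.Agent.Run7.h452.Mul

/-!
Coding of four letters by blocks of two letters: every recursively enumerable set is definable by
word equations with length constraints over every alphabet with two letters.
-/

set_option autoImplicit false

namespace Run7.h452

variable {A : Type}

/-- value of a word with two constants over an alphabet with two chosen letters -/
def vA (c : Fin 2 → A) (s : ℕ → List A) (w : Wd 2) : List A :=
  w.flatMap (Sum.elim (fun i => [c i]) s)

/-- a linear equation between lengths -/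
def LHolds (y : ℕ → ℕ) (e : List (ℕ × ℤ) × ℤ) : Prop :=
  (e.1.map (fun p => p.2 * (y p.1 : ℤ))).sum = e.2

def code (i j : Fin 2) : Fin 4 := ⟨2 * i.val + j.val, by omega⟩
def hi (a : Fin 4) : Fin 2 := ⟨a.val / 2, by omega⟩
def lo (a : Fin 4) : Fin 2 := ⟨a.val % 2, by omega⟩

theorem code_hi_lo (a : Fin 4) : code (hi a) (lo a) = a := by
  apply Fin.ext
  simp only [code, hi, lo]
  omega

/-- decoding of blocks -/
def dec (b : A → Fin 2) : List A → List (Fin 4)
  | [] => []
  | [_] => []
  | x :: y :: l => code (b x) (b y) :: dec b l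

/-- coding -/
def enc (c : Fin 2 → A) (u : List (Fin 4)) : List A := u.flatMap (fun a => [c (hi a), c (lo a)])

theorem dec_length (b : A → Fin 2) : ∀ u : List A, (dec b u).length = u.length / 2
  | [] => by simp [dec]
  | [_] => by simp [dec]
  | x :: y :: l => by
    simp only [dec, List.length_cons, dec_length b l]
    omega

theorem dec_append (b : A → Fin 2) : ∀ u v : List A, u.length % 2 = 0 →
    dec b (u ++ v) = dec b u ++ dec b v
  | [], v, _ => rfl
  | [_], v, h => by simp at h
  | x :: y :: l, v, h => by
    have h' : l.length % 2 = 0 := by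
      simp only [List.length_cons] at h
      omega
    simp only [List.cons_append, dec, dec_append b l v h']

theorem enc_length (c : Fin 2 → A) (u : List (Fin 4)) : (enc c u).length = 2 * u.length := by
  induction u with
  | nil => rfl
  | cons a u ih =>
    simp only [enc, List.flatMap_cons, List.length_append, List.length_cons, List.length_nil] at *
    omega

theorem enc_append (c : Fin 2 → A) (u v : List (Fin 4)) : enc c (u ++ v) = enc c u ++ enc c v := by
  simp [enc]

/-- coding of equations -/
def trw (w : Wd 4) : Wd 2 :=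
  w.flatMap (Sum.elim (fun a => [Sum.inl (hi a), Sum.inl (lo a)]) (fun j => [Sum.inr (2 * j + 1)]))

theorem vA_append (c : Fin 2 → A) (s : ℕ → List A) (w w' : Wd 2) :
    vA c s (w ++ w') = vA c s w ++ vA c s w' := by
  simp [vA]

theorem trw_ne {w : Wd 4} (h : w ≠ []) : trw w ≠ [] := by
  rcases w with _ | ⟨a, w⟩
  · exact absurd rfl h
  · rcases a with a | a <;> simp [trw]

theorem trw_var {w : Wd 4} {j : ℕ} (h : Sum.inr j ∈ trw w) : ∃ i, Sum.inr i ∈ w ∧ j = 2 * i + 1 := by
  simp only [trw, List.mem_flatMap] at h
  obtain ⟨a, ha, h⟩ := h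
  rcases a with a | a
  · simp at h
  · simp only [Sum.elim_inr, List.mem_singleton, Sum.inr.injEq] at h
    exact ⟨a, ha, h⟩

theorem dec_vA (b : A → Fin 2) (c : Fin 2 → A) (hb : ∀ i, b (c i) = i) (s : ℕ → List A)
    (w : Wd 4) (h : ∀ j, Sum.inr j ∈ w → (s (2 * j + 1)).length % 2 = 0) :
    (vA c s (trw w)).length % 2 = 0 ∧
      dec b (vA c s (trw w)) = val (fun j => dec b (s (2 * j + 1))) w := by
  induction w with
  | nil => exact ⟨rfl, rfl⟩
  | cons a w ih =>
    obtain ⟨i1, i2⟩ := ih (fun j hj => h j (List.mem_cons_of_mem _ hj))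
    rcases a with a | a
    · have e : vA c s (trw (Sum.inl a :: w)) = c (hi a) :: c (lo a) :: vA c s (trw w) := by
        simp [vA, trw]
      rw [e]
      refine ⟨by simp only [List.length_cons]; omega, ?_⟩
      rw [dec, i2, hb, hb, code_hi_lo]
      simp [val]
    · have e : vA c s (trw (Sum.inr a :: w)) = s (2 * a + 1) ++ vA c s (trw w) := by
        simp [vA, trw]
      have ha := h a List.mem_cons_self
      rw [e]
      refine ⟨by simp only [List.length_append]; omega, ?_⟩
      rw [dec_append b _ _ ha, i2]
      simp [val]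

theorem vA_enc (c : Fin 2 → A) (s : ℕ → List A) (s0 : ℕ → List (Fin 4))
    (h : ∀ j, s (2 * j + 1) = enc c (s0 j)) (w : Wd 4) :
    vA c s (trw w) = enc c (val s0 w) := by
  induction w with
  | nil => rfl
  | cons a w ih =>
    rcases a with a | a
    · have e : vA c s (trw (Sum.inl a :: w)) = c (hi a) :: c (lo a) :: vA c s (trw w) := by
        simp [vA, trw]
      rw [e, ih]
      simp [val, enc]
    · have e : vA c s (trw (Sum.inr a :: w)) = s (2 * a + 1) ++ vA c s (trw w) := by
        simp [vA, trw]
      rw [e, ih, h, ← enc_append]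
      simp [val]

/-- coding of linear forms -/
def trl (l : Lin (Fin 1)) : List (ℕ × ℤ) :=
  l.map (fun t => (Sum.elim (fun _ => 0) (fun j => 2 * j + 2) t.1, t.2))

/-- sum of the coefficients of the parameter -/
def pc (l : Lin (Fin 1)) : ℤ := (l.map (fun t => Sum.elim (fun _ => t.2) (fun _ => 0) t.1)).sum

theorem trl_ev (y : ℕ → ℕ) (n : ℕ) (h0 : y 0 = n + 1) (l : Lin (Fin 1)) :
    ((trl l).map (fun p => p.2 * (y p.1 : ℤ))).sum =
      Lin.ev (fun _ => (n : ℤ)) (fun j => (y (2 * j + 2) : ℤ)) l + pc l := by
  induction l with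
  | nil => rfl
  | cons t l ih =>
    have e1 : ((trl (t :: l)).map (fun p => p.2 * (y p.1 : ℤ))).sum =
        t.2 * (y (Sum.elim (fun _ => 0) (fun j => 2 * j + 2) t.1) : ℤ) +
          ((trl l).map (fun p => p.2 * (y p.1 : ℤ))).sum := by
      simp [trl]
    have e2 : pc (t :: l) = Sum.elim (fun _ => t.2) (fun _ => 0) t.1 + pc l := by
      simp [pc]
    rw [e1, e2, ih, Lin.ev_cons]
    rcases t with ⟨a | a, d⟩
    · simp only [Sum.elim_inl, h0]
      push_cast
      ring
    · simp only [Sum.elim_inr]
      ring

/-- bound for a list of numbers -/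
theorem exists_bd (l : List ℕ) : ∃ N, ∀ i ∈ l, i < N := by
  induction l with
  | nil => exact ⟨0, by simp⟩
  | cons a l ih =>
    obtain ⟨N, h⟩ := ih
    refine ⟨max (a + 1) N, fun i hi => ?_⟩
    rcases List.mem_cons.1 hi with rfl | hi
    · exact lt_of_lt_of_le (Nat.lt_succ_self _) (le_max_left _ _)
    · exact lt_of_lt_of_le (h i hi) (le_max_right _ _)

/-- all variables are below a bound -/
theorem LS.exists_bd {k : ℕ} {α : Type} (S : LS k α) : ∃ N : ℕ,
    (∀ e ∈ S.eqs, ∀ j, (Sum.inr j ∈ e.1 ∨ Sum.inr j ∈ e.2) → j < N) ∧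
    (∀ c ∈ S.lens, ∀ t ∈ c.1, ∀ j, t.1 = Sum.inr j → j < N) := by
  let f : Fin k ⊕ ℕ → List ℕ := Sum.elim (fun _ => []) (fun j => [j])
  let g : α ⊕ ℕ → List ℕ := Sum.elim (fun _ => []) (fun j => [j])
  obtain ⟨N, hN⟩ := Run7.h452.exists_bd (S.eqs.flatMap (fun e => (e.1 ++ e.2).flatMap f) ++
    S.lens.flatMap (fun c => c.1.flatMap (fun t => g t.1)))
  refine ⟨N, fun e he j hj => hN j ?_, fun c hc t ht j hj => hN j ?_⟩
  · apply List.mem_append_left
    rw [List.mem_flatMap]
    refine ⟨e, he, ?_⟩
    rw [List.mem_flatMap]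
    refine ⟨Sum.inr j, ?_, by simp [f]⟩
    rcases hj with hj | hj
    · exact List.mem_append_left _ hj
    · exact List.mem_append_right _ hj
  · apply List.mem_append_right
    rw [List.mem_flatMap]
    refine ⟨c, hc, ?_⟩
    rw [List.mem_flatMap]
    exact ⟨t, ht, by simp [g, hj]⟩

theorem val_congr {k : ℕ} {s s' : ℕ → List (Fin k)} {w : Wd k}
    (h : ∀ j, Sum.inr j ∈ w → s j = s' j) : val s w = val s' w := by
  induction w with
  | nil => rfl
  | cons a w ih =>
    have i := ih (fun j hj => h j (List.mem_cons_of_mem _ hj))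
    rcases a with a | a
    · simpa [val] using i
    · have := h a List.mem_cons_self
      simp only [val, List.flatMap_cons, Sum.elim_inr, this] at i ⊢
      rw [i]

theorem ev_congr {α : Type} {x : α → ℤ} {y y' : ℕ → ℤ} {l : Lin α}
    (h : ∀ t ∈ l, ∀ j, t.1 = Sum.inr j → y j = y' j) : Lin.ev x y l = Lin.ev x y' l := by
  unfold Lin.ev
  congr 1
  apply List.map_congr_left
  intro t ht
  rcases t with ⟨a | a, d⟩
  · rfl
  · simp only [Sum.elim_inr]
    rw [h _ ht a rfl]

/-- The core theorem: for every recursively enumerable set `S` there is a finite system of word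
equations over two letters and of linear length constraints, such that over every alphabet with
two letters `n ∈ S` holds iff the system has a solution in which the word `s 0` has length
`n + 1`. -/
theorem core2 {S : ℕ → Prop} (hS : REPred S) : ∃ (E : List (Wd 2 × Wd 2))
    (L : List (List (ℕ × ℤ) × ℤ)) (N : ℕ),
    (∀ e ∈ E, e.1 ≠ [] ∧ e.2 ≠ []) ∧
    (∀ e ∈ E, ∀ j, (Sum.inr j ∈ e.1 ∨ Sum.inr j ∈ e.2) → j < N) ∧
    (∀ l ∈ L, ∀ p ∈ l.1, p.1 < N) ∧ 0 < N ∧
    ∀ (A : Type) (c : Fin 2 → A) (b : A → Fin 2), (∀ i, b (c i) = i) → ∀ n : ℕ,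
      (S n ↔ ∃ s : ℕ → List A, (∀ i, s i ≠ []) ∧ (∀ e ∈ E, vA c s e.1 = vA c s e.2) ∧
        (∀ l ∈ L, LHolds (fun i => (s i).length) l) ∧ (s 0).length = n + 1) := by
  obtain ⟨T, hne, hT⟩ := D_re hS
  obtain ⟨N, hN1, hN2⟩ := T.exists_bd
  refine ⟨T.eqs.map (fun e => (trw e.1, trw e.2)),
    T.lens.map (fun d => (trl d.1, d.2 + pc d.1)) ++
      (List.range N).map (fun j => ([(2 * j + 1, 1), (2 * j + 2, -2)], 0)), 2 * N + 1, ?_, ?_, ?_,
      by omega, ?_⟩
  · intro e he
    obtain ⟨e', he', rfl⟩ := List.mem_map.1 he
    exact ⟨trw_ne (hne e' he').1, trw_ne (hne e' he').2⟩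
  · intro e he j hj
    obtain ⟨e', he', rfl⟩ := List.mem_map.1 he
    rcases hj with hj | hj
    · obtain ⟨i, hi, rfl⟩ := trw_var hj
      have := hN1 e' he' i (Or.inl hi)
      omega
    · obtain ⟨i, hi, rfl⟩ := trw_var hj
      have := hN1 e' he' i (Or.inr hi)
      omega
  · intro l hl p hp
    rcases List.mem_append.1 hl with hl | hl
    · obtain ⟨d, hd, rfl⟩ := List.mem_map.1 hl
      obtain ⟨t, ht, rfl⟩ := List.mem_map.1 hp
      rcases t with ⟨a | a, e⟩
      · simp
      · have := hN2 d hd _ ht a rfl
        simp only [Sum.elim_inr]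
        omega
    · obtain ⟨j, hj, rfl⟩ := List.mem_map.1 hl
      rw [List.mem_range] at hj
      simp only [List.mem_cons, List.not_mem_nil, or_false] at hp
      rcases hp with rfl | rfl
      · simp only; omega
      · simp only; omega
  · intro A c b hb n
    have h1 : S n ↔ T.Holds (fun _ => (n : ℤ)) := by
      rw [← hT]
      constructor
      · intro h
        exact ⟨n, h, rfl⟩
      · rintro ⟨m, hm, he⟩
        have he' : (n : ℤ) = m := he
        have : n = m := by exact_mod_cast he'
        rw [this]
        exact hm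
    rw [h1]
    constructor
    · rintro ⟨s0, hs1, hs2, hs3⟩
      let s : ℕ → List A := fun m => if m = 0 then List.replicate (n + 1) (c 0) else
        if m % 2 = 1 then enc c (s0 (m / 2)) else List.replicate (s0 (m / 2 - 1)).length (c 0)
      have s_0 : s 0 = List.replicate (n + 1) (c 0) := rfl
      have s_1 : ∀ j, s (2 * j + 1) = enc c (s0 j) := by
        intro j
        simp only [s]
        rw [if_neg (by omega), if_pos (by omega)]
        congr 2
        omega
      have s_2 : ∀ j, s (2 * j + 2) = List.replicate (s0 j).length (c 0) := by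
        intro j
        simp only [s]
        rw [if_neg (by omega), if_neg (by omega)]
        congr 3
        omega
      have pos : ∀ j, 0 < (s0 j).length := fun j => List.length_pos_iff.2 (hs1 j)
      refine ⟨s, ?_, ?_, ?_, ?_⟩
      · intro m
        apply List.ne_nil_of_length_pos
        rcases Nat.eq_zero_or_pos m with rfl | hm
        · simp [s_0]
        · rcases Nat.even_or_odd' m with ⟨j, rfl | rfl⟩
          · obtain ⟨i, rfl⟩ : ∃ i, j = i + 1 := ⟨j - 1, by omega⟩
            have := s_2 i
            rw [show 2 * (i + 1) = 2 * i + 2 by ring, this, List.length_replicate]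
            exact pos i
          · rw [s_1, enc_length]
            have := pos j
            omega
      · intro e he
        obtain ⟨e', he', rfl⟩ := List.mem_map.1 he
        simp only
        rw [vA_enc c s s0 s_1, vA_enc c s s0 s_1, hs2 e' he']
      · intro l hl
        rcases List.mem_append.1 hl with hl | hl
        · obtain ⟨d, hd, rfl⟩ := List.mem_map.1 hl
          unfold LHolds
          simp only
          rw [trl_ev (fun i => (s i).length) n (by simp [s_0])]
          have e : (fun j => (((s (2 * j + 2)).length : ℕ) : ℤ)) = len s0 := by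
            funext j
            rw [s_2, List.length_replicate]
            rfl
          rw [e, hs3 d hd]
        · obtain ⟨j, hj, rfl⟩ := List.mem_map.1 hl
          unfold LHolds
          simp only [List.map_cons, List.map_nil, List.sum_cons, List.sum_nil]
          rw [s_1, s_2, enc_length, List.length_replicate]
          push_cast
          ring
      · rw [s_0, List.length_replicate]
    · rintro ⟨s, hs1, hs2, hs3, hs4⟩
      have key : ∀ j, j < N → (s (2 * j + 1)).length = 2 * (s (2 * j + 2)).length := by
        intro j hj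
        have := hs3 _ (List.mem_append_right _ (List.mem_map_of_mem
          (f := fun j : ℕ => (([(2 * j + 1, 1), (2 * j + 2, -2)], 0) : List (ℕ × ℤ) × ℤ))
          (List.mem_range.2 hj)))
        unfold LHolds at this
        simp only [List.map_cons, List.map_nil, List.sum_cons, List.sum_nil] at this
        omega
      have pos : ∀ j, 0 < (s j).length := fun j => List.length_pos_iff.2 (hs1 j)
      let s0 : ℕ → List (Fin 4) := fun j => if j < N then dec b (s (2 * j + 1)) else [0]
      have e0 : ∀ j, j < N → s0 j = dec b (s (2 * j + 1)) := by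
        intro j hj
        simp only [s0]
        rw [if_pos hj]
      have l0 : ∀ j, j < N → (s0 j).length = (s (2 * j + 2)).length := by
        intro j hj
        rw [e0 j hj, dec_length, key j hj]
        omega
      have hval : ∀ w : Wd 4, (∀ j, Sum.inr j ∈ w → j < N) →
          val s0 w = dec b (vA c s (trw w)) := by
        intro w hw
        rw [(dec_vA b c hb s w (fun j hj => by rw [key j (hw j hj)]; omega)).2]
        exact val_congr fun j hj => e0 j (hw j hj)
      refine ⟨s0, ?_, ?_, ?_⟩
      · intro j
        by_cases hj : j < N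
        · apply List.ne_nil_of_length_pos
          rw [l0 j hj]
          exact pos _
        · simp only [s0]
          rw [if_neg hj]
          simp
      · intro e he
        have := hs2 _ (List.mem_map_of_mem (f := fun e : Wd 4 × Wd 4 => (trw e.1, trw e.2)) he)
        rw [hval e.1 (fun j hj => hN1 e he j (Or.inl hj)),
          hval e.2 (fun j hj => hN1 e he j (Or.inr hj))]
        exact congrArg _ this
      · intro d hd
        have := hs3 _ (List.mem_append_left _ (List.mem_map_of_mem
          (f := fun d : Lin (Fin 1) × ℤ => (trl d.1, d.2 + pc d.1)) hd))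
        unfold LHolds at this
        simp only at this
        rw [trl_ev (fun i => (s i).length) n hs4] at this
        have e : Lin.ev (fun _ => (n : ℤ)) (len s0) d.1 = Lin.ev (fun _ => (n : ℤ))
            (fun j => (((s (2 * j + 2)).length : ℕ) : ℤ)) d.1 := by
          apply ev_congr
          intro t ht j hj
          simp only [len]
          rw [l0 j (hN2 d hd t ht j hj)]
        rw [e]
        linarith

end Run7.h452
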