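import Mathlib
import Pool.Agent.Run7.h452.Block

/-!
Undecidability of the decision problem for equations with length constraints in free semigroups.
-/

set_option autoImplicit false

namespace Run7.h452

/-! ### free semigroups -/

/-- the list of letters of an element of a free semigroup -/
def toL {α : Type} (x : FreeSemigroup α) : List α := x.head :: x.tail

theorem toL_ne {α : Type} (x : FreeSemigroup α) : toL x ≠ [] := by simp [toL]

theorem toL_mul {α : Type} (x y : FreeSemigroup α) : toL (x * y) = toL x ++ toL y := by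
  simp [toL]

theorem toL_inj {α : Type} {x y : FreeSemigroup α} (h : toL x = toL y) : x = y := by
  simp only [toL, List.cons.injEq] at h
  exact FreeSemigroup.ext h.1 h.2

theorem toL_length {α : Type} (x : FreeSemigroup α) : (toL x).length = x.length := by
  simp [toL, FreeSemigroup.length]

theorem toL_foldl {α β : Type} (f : α → FreeSemigroup β) (l : List α) (z : FreeSemigroup β) :
    toL (l.foldl (fun a b => a * f b) z) = toL z ++ l.flatMap (fun t => toL (f t)) := by
  induction l generalizing z with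
  | nil => simp
  | cons a l ih =>
    rw [List.foldl_cons, ih, toL_mul, List.flatMap_cons, List.append_assoc]

theorem toL_lift {α β : Type} (f : α → FreeSemigroup β) (a : α) (l : List α) :
    toL (FreeSemigroup.lift f ⟨a, l⟩) = (a :: l).flatMap (fun t => toL (f t)) := by
  rw [FreeSemigroup.lift_mk_eq_foldl, toL_foldl, List.flatMap_cons]

/-- translation of a word with two constants to a nonempty word -/
def toWord {k : ℕ} (c : Fin 2 → Fin k) : Wd 2 → (Fin k ⊕ ℕ) × List (Fin k ⊕ ℕ)
  | [] => (Sum.inl (c 0), [])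
  | a :: l => (Sum.map c id a, l.map (Sum.map c id))

theorem toL_toWord {k : ℕ} (c : Fin 2 → Fin k) (s : ℕ → FreeSemigroup (Fin k)) {w : Wd 2}
    (hw : w ≠ []) :
    toL (FreeSemigroup.lift (Sum.elim FreeSemigroup.of s) ⟨(toWord c w).1, (toWord c w).2⟩) =
      vA c (fun j => toL (s j)) w := by
  rcases w with _ | ⟨a, l⟩
  · exact absurd rfl hw
  · rw [toL_lift]
    have e : (toWord c (a :: l)).1 :: (toWord c (a :: l)).2 = (a :: l).map (Sum.map c id) := rfl
    rw [e, List.flatMap_map]
    unfold vA
    congr 1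
    funext t
    rcases t with t | t <;> simp [toL]

theorem primrec_cast : Primrec (fun n : ℕ => ((n + 1 : ℕ) : ℤ)) := by
  rw [← Primrec.encode_iff]
  have : (fun n : ℕ => Encodable.encode (((n + 1 : ℕ) : ℤ))) = fun n => 2 * (n + 1) := by
    funext n
    rfl
  rw [this]
  exact Primrec.nat_mul.comp (Primrec.const 2) Primrec.succ

theorem two_letters (k : ℕ) (hk : 2 ≤ k) : ∃ (c : Fin 2 → Fin k) (b : Fin k → Fin 2),
    ∀ i, b (c i) = i := by
  refine ⟨fun i => ⟨i.val, by omega⟩, fun a => if a.val = 1 then 1 else 0, ?_⟩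
  intro i
  fin_cases i <;> simp

/-- every recursively enumerable set is encoded by a fixed system over a free semigroup of rank at
least two, in which only the length of the value of `x_0` varies -/
theorem semigroup_re (k : ℕ) (hk : 2 ≤ k) {S : ℕ → Prop} (hS : REPred S) :
    ∃ (E : List (((Fin k ⊕ ℕ) × List (Fin k ⊕ ℕ)) × ((Fin k ⊕ ℕ) × List (Fin k ⊕ ℕ))))
      (L : List (List (ℕ × ℤ) × ℤ)), ∀ n : ℕ, S n ↔
      ∃ s : ℕ → FreeSemigroup (Fin k),
        (∀ e ∈ E, FreeSemigroup.lift (Sum.elim FreeSemigroup.of s) ⟨e.1.1, e.1.2⟩ =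
          FreeSemigroup.lift (Sum.elim FreeSemigroup.of s) ⟨e.2.1, e.2.2⟩) ∧
        ∀ l ∈ ([(0, 1)], ((n + 1 : ℕ) : ℤ)) :: L, LHolds (fun j => (s j).length) l := by
  obtain ⟨E, L, N, hne, -, -, -, h⟩ := core2 hS
  obtain ⟨c, b, hcb⟩ := two_letters k hk
  refine ⟨E.map (fun e => (toWord c e.1, toWord c e.2)), L, fun n => ?_⟩
  rw [h (Fin k) c b hcb n]
  constructor
  · rintro ⟨s, h1, h2, h3, h4⟩
    have : ∀ i, ∃ x : FreeSemigroup (Fin k), toL x = s i := by
      intro i
      have := h1 i
      rcases hs : s i with _ | ⟨a, l⟩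
      · exact absurd hs this
      · exact ⟨⟨a, l⟩, rfl⟩
    choose g hg using this
    have hg' : (fun j => toL (g j)) = s := funext hg
    have hl : (fun j => (g j).length) = fun j => (s j).length := by
      funext j
      rw [← toL_length, hg]
    refine ⟨g, ?_, ?_⟩
    · intro e he
      obtain ⟨e', he', rfl⟩ := List.mem_map.1 he
      apply toL_inj
      rw [toL_toWord c g (hne e' he').1, toL_toWord c g (hne e' he').2, hg', h2 e' he']
    · intro l hl'
      rw [hl]
      rcases List.mem_cons.1 hl' with rfl | hl'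
      · simp [LHolds, h4]
      · exact h3 l hl'
  · rintro ⟨g, h1, h2⟩
    have hl : (fun j => (toL (g j)).length) = fun j => (g j).length := by
      funext j
      rw [← toL_length]
    refine ⟨fun j => toL (g j), fun i => toL_ne _, ?_, ?_, ?_⟩
    · intro e he
      have := h1 _ (List.mem_map_of_mem (f := fun e : Wd 2 × Wd 2 =>
        (toWord c e.1, toWord c e.2)) he)
      have := congrArg toL this
      rwa [toL_toWord c g (hne e he).1, toL_toWord c g (hne e he).2] at this
    · intro l hl'
      rw [hl]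
      exact h2 l (List.mem_cons_of_mem _ hl')
    · have := h2 _ List.mem_cons_self
      simp only [LHolds, List.map_cons, List.map_nil, List.sum_cons, List.sum_nil] at this
      rw [toL_length]
      omega

theorem semigroup_undec (k : ℕ) (hk : 2 ≤ k) :
    ¬ ComputablePred (fun I : List (((Fin k ⊕ ℕ) × List (Fin k ⊕ ℕ)) ×
        ((Fin k ⊕ ℕ) × List (Fin k ⊕ ℕ))) × List (List (ℕ × ℤ) × ℤ) =>
      ∃ s : ℕ → FreeSemigroup (Fin k),
        (∀ e ∈ I.1, FreeSemigroup.lift (Sum.elim FreeSemigroup.of s) ⟨e.1.1, e.1.2⟩ =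
          FreeSemigroup.lift (Sum.elim FreeSemigroup.of s) ⟨e.2.1, e.2.2⟩) ∧
        ∀ l ∈ I.2, LHolds (fun j => (s j).length) l) := by
  intro h
  obtain ⟨p, hp, hn⟩ := exists_re
  obtain ⟨E, L, hEL⟩ := semigroup_re k hk hp
  apply hn
  refine ComputablePred.computable_of_manyOneReducible ?_ h
  refine ⟨fun n => (E, ([(0, 1)], ((n + 1 : ℕ) : ℤ)) :: L), ?_, hEL⟩
  apply Primrec.to_comp
  refine Primrec.pair (Primrec.const E) (Primrec.list_cons.comp ?_ (Primrec.const L))
  exact Primrec.pair (Primrec.const _) primrec_cast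

end Run7.h452
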