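import Mathlib
import Pool.Agent.Run7.h452.Fin1

/-!
Undecidability of the decision problem for equations with length constraints in free groups.
-/

set_option autoImplicit false

namespace Run7.h452

/-- words with letters and variables and their inverses -/
abbrev GW (k : ℕ) : Type := List ((Fin k ⊕ ℕ) × Bool)

/-- evaluation in the free group -/
def gev {k : ℕ} (g : ℕ → FreeGroup (Fin k)) (w : GW k) : FreeGroup (Fin k) :=
  FreeGroup.lift (Sum.elim FreeGroup.of g) (FreeGroup.mk w)

/-- positive word in the variables `3 j` -/
def gw {k : ℕ} (c : Fin 2 → Fin k) (w : Wd 2) : GW k :=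
  w.map (fun t => (Sum.map c (fun j => 3 * j) t, true))

theorem gev_cons {k : ℕ} (g : ℕ → FreeGroup (Fin k)) (t : Fin k ⊕ ℕ) (w : GW k) :
    gev g ((t, true) :: w) = Sum.elim FreeGroup.of g t * gev g w := by
  unfold gev
  have : (FreeGroup.mk ((t, true) :: w)) = FreeGroup.mk [(t, true)] * FreeGroup.mk w := by
    rw [FreeGroup.mul_mk]; rfl
  rw [this, map_mul]
  congr 1
  simp

theorem gev_nil {k : ℕ} (g : ℕ → FreeGroup (Fin k)) : gev g [] = 1 := by
  unfold gev
  simp

theorem gev_single {k : ℕ} (g : ℕ → FreeGroup (Fin k)) (j : ℕ) :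
    gev g [(Sum.inr j, true)] = g j := by
  rw [gev_cons, gev_nil, mul_one]
  rfl

/-- the word of a product is a subword of the concatenation -/
theorem gw_sub {k : ℕ} (c : Fin 2 → Fin k) (g : ℕ → FreeGroup (Fin k)) (w : Wd 2) :
    (gev g (gw c w)).toWord.Sublist
      (vA (fun i => ((c i, true) : Fin k × Bool)) (fun j => (g (3 * j)).toWord) w) := by
  induction w with
  | nil =>
    have : gw c ([] : Wd 2) = [] := rfl
    rw [this, gev_nil]
    simp [vA]
  | cons a w ih =>
    have e : gw c (a :: w) = (Sum.map c (fun j => 3 * j) a, true) :: gw c w := rfl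
    rw [e, gev_cons]
    refine (FreeGroup.toWord_mul_sublist _ _).trans ?_
    have e2 : vA (fun i => ((c i, true) : Fin k × Bool)) (fun j => (g (3 * j)).toWord) (a :: w) =
        (Sum.elim FreeGroup.of g (Sum.map c (fun j => 3 * j) a)).toWord ++
          vA (fun i => ((c i, true) : Fin k × Bool)) (fun j => (g (3 * j)).toWord) w := by
      rcases a with a | a
      · simp [vA]
      · simp [vA]
    rw [e2]
    exact ih.append_left _

/-- the length of the value of a word as a linear form: variables -/
def lf (w : Wd 2) : List (ℕ × ℤ) := w.flatMap (Sum.elim (fun _ => []) (fun j => [(3 * j, -1)]))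

/-- number of constants -/
def nc (w : Wd 2) : ℤ := (w.map (Sum.elim (fun _ => (1 : ℤ)) (fun _ => 0))).sum

theorem lf_eval {A : Type} (c : Fin 2 → A) (s : ℕ → List A) (y : ℕ → ℕ) (w : Wd 2)
    (h : ∀ j, Sum.inr j ∈ w → y (3 * j) = (s j).length) :
    ((lf w).map (fun p => p.2 * (y p.1 : ℤ))).sum = nc w - ((vA c s w).length : ℤ) := by
  induction w with
  | nil => simp [lf, nc, vA]
  | cons a w ih =>
    have i := ih (fun j hj => h j (List.mem_cons_of_mem _ hj))
    rcases a with a | a
    · have e1 : lf (Sum.inl a :: w) = lf w := by simp [lf]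
      have e2 : nc (Sum.inl a :: w) = 1 + nc w := by simp [nc]
      have e3 : vA c s (Sum.inl a :: w) = c a :: vA c s w := by simp [vA]
      rw [e1, e2, e3, i, List.length_cons]
      push_cast
      ring
    · have e1 : lf (Sum.inr a :: w) = (3 * a, -1) :: lf w := by simp [lf]
      have e2 : nc (Sum.inr a :: w) = nc w := by simp [nc]
      have e3 : vA c s (Sum.inr a :: w) = s a ++ vA c s w := by simp [vA]
      rw [e1, e2, e3, List.map_cons, List.sum_cons, i, List.length_append]
      simp only [h a List.mem_cons_self]
      push_cast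
      ring

theorem vA_congr {A : Type} (c : Fin 2 → A) {s s' : ℕ → List A} {w : Wd 2}
    (h : ∀ j, Sum.inr j ∈ w → s j = s' j) : vA c s w = vA c s' w := by
  induction w with
  | nil => rfl
  | cons a w ih =>
    have i := ih (fun j hj => h j (List.mem_cons_of_mem _ hj))
    rcases a with a | a
    · simpa [vA] using i
    · have := h a List.mem_cons_self
      simp only [vA, List.flatMap_cons, Sum.elim_inr, this] at i ⊢
      rw [i]

/-- positive elements -/
def pos {k : ℕ} (u : List (Fin k)) : FreeGroup (Fin k) := FreeGroup.mk (u.map (fun a => (a, true)))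

theorem pos_toWord {k : ℕ} (u : List (Fin k)) : (pos u).toWord = u.map (fun a => (a, true)) := by
  unfold pos
  rw [FreeGroup.toWord_mk]
  apply FreeGroup.IsReduced.reduce_eq
  unfold FreeGroup.IsReduced
  rw [List.isChain_map]
  apply List.Pairwise.isChain
  apply List.pairwise_of_forall
  intro a b _
  rfl

theorem pos_norm {k : ℕ} (u : List (Fin k)) : (pos u).norm = u.length := by
  unfold FreeGroup.norm
  rw [pos_toWord, List.length_map]

theorem pos_append {k : ℕ} (u v : List (Fin k)) : pos (u ++ v) = pos u * pos v := by
  unfold pos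
  rw [FreeGroup.mul_mk, List.map_append]

theorem gev_pos {k : ℕ} (c : Fin 2 → Fin k) (g : ℕ → FreeGroup (Fin k)) (s : ℕ → List (Fin k))
    (h : ∀ j, g (3 * j) = pos (s j)) (w : Wd 2) : gev g (gw c w) = pos (vA c s w) := by
  induction w with
  | nil =>
    have : gw c ([] : Wd 2) = [] := rfl
    rw [this, gev_nil]
    rfl
  | cons a w ih =>
    have e : gw c (a :: w) = (Sum.map c (fun j => 3 * j) a, true) :: gw c w := rfl
    rw [e, gev_cons, ih]
    have e2 : vA c s (a :: w) = Sum.elim (fun i => [c i]) s a ++ vA c s w := by simp [vA]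
    rw [e2, pos_append]
    congr 1
    rcases a with a | a
    · simp [pos, FreeGroup.of]
    · simp [h]

/-- every recursively enumerable set is encoded by a fixed system over a free group of rank at
least two, in which only the length of the value of `x_0` varies -/
theorem group_re (k : ℕ) (hk : 2 ≤ k) {S : ℕ → Prop} (hS : REPred S) :
    ∃ (E : List (GW k × GW k)) (L : List (List (ℕ × ℤ) × ℤ)), ∀ n : ℕ, S n ↔
      ∃ g : ℕ → FreeGroup (Fin k), (∀ e ∈ E, gev g e.1 = gev g e.2) ∧
        ∀ l ∈ ([(0, 1)], ((n + 1 : ℕ) : ℤ)) :: L, LHolds (fun j => (g j).norm) l := by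
  obtain ⟨E, L, N, hne, hN1, hN2, hN, h⟩ := core2 hS
  obtain ⟨c, b, hcb⟩ := two_letters k hk
  let Y : Wd 2 × Wd 2 → ℕ := fun e => 3 * Encodable.encode e + 2
  refine ⟨E.map (fun e => ([(Sum.inr (Y e), true)], gw c e.1)) ++
      E.map (fun e => ([(Sum.inr (Y e), true)], gw c e.2)),
    L.map (fun l => (l.1.map (fun p => (3 * p.1, p.2)), l.2)) ++
      ((List.range N).map (fun j => ([(3 * j, 1), (3 * j + 1, -1)], 1)) ++
        (E.map (fun e => ((Y e, 1) :: lf e.1, nc e.1)) ++
          E.map (fun e => ((Y e, 1) :: lf e.2, nc e.2)))), fun n => ?_⟩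
  have hlin : ∀ (y : ℕ → ℕ) (l : List (ℕ × ℤ) × ℤ),
      LHolds y (l.1.map (fun p => (3 * p.1, p.2)), l.2) ↔ LHolds (fun j => y (3 * j)) l := by
    intro y l
    unfold LHolds
    simp only [List.map_map, Function.comp_def]
  constructor
  · intro hn
    obtain ⟨s, h1, h2, h3, h4⟩ := (h (Fin k) c b hcb n).1 hn
    let g : ℕ → FreeGroup (Fin k) := fun m => if m % 3 = 0 then pos (s (m / 3)) else
      if m % 3 = 1 then pos ((s (m / 3)).tail) else
        (match (Encodable.decode (m / 3) : Option (Wd 2 × Wd 2)) with
          | some e => pos (vA c s e.1)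
          | none => 1)
    have g0 : ∀ j, g (3 * j) = pos (s j) := by
      intro j
      simp only [g]
      rw [if_pos (by omega)]
      congr 2
      omega
    have g1 : ∀ j, g (3 * j + 1) = pos (s j).tail := by
      intro j
      simp only [g]
      rw [if_neg (by omega), if_pos (by omega)]
      congr 3
      omega
    have g2 : ∀ e, g (Y e) = pos (vA c s e.1) := by
      intro e
      simp only [g, Y]
      rw [if_neg (by omega), if_neg (by omega)]
      have : (3 * Encodable.encode e + 2) / 3 = Encodable.encode e := by omega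
      rw [this, Encodable.encodek]
    have posl : ∀ j, 0 < (s j).length := fun j => List.length_pos_iff.2 (h1 j)
    refine ⟨g, ?_, ?_⟩
    · intro e he
      rcases List.mem_append.1 he with he | he
      · obtain ⟨e', he', rfl⟩ := List.mem_map.1 he
        simp only
        rw [gev_single, g2, gev_pos c g s g0]
      · obtain ⟨e', he', rfl⟩ := List.mem_map.1 he
        simp only
        rw [gev_single, g2, gev_pos c g s g0, h2 e' he']
    · intro l hl
      rcases List.mem_cons.1 hl with rfl | hl
      · have : g 0 = pos (s 0) := g0 0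
        simp only [LHolds, List.map_cons, List.map_nil, List.sum_cons, List.sum_nil]
        rw [this, pos_norm, h4]
        ring
      rcases List.mem_append.1 hl with hl | hl
      · obtain ⟨l', hl', rfl⟩ := List.mem_map.1 hl
        rw [hlin]
        have e : (fun j => (g (3 * j)).norm) = fun j => (s j).length := by
          funext j
          rw [g0, pos_norm]
        rw [e]
        exact h3 l' hl'
      rcases List.mem_append.1 hl with hl | hl
      · obtain ⟨j, hj, rfl⟩ := List.mem_map.1 hl
        simp only [LHolds, List.map_cons, List.map_nil, List.sum_cons, List.sum_nil]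
        rw [g0, g1, pos_norm, pos_norm, List.length_tail]
        have := posl j
        omega
      rcases List.mem_append.1 hl with hl | hl
      · obtain ⟨e, he, rfl⟩ := List.mem_map.1 hl
        simp only [LHolds, List.map_cons, List.sum_cons]
        rw [lf_eval c s (fun j => (g j).norm) e.1 (fun j _ => by rw [g0, pos_norm]),
          g2, pos_norm]
        ring
      · obtain ⟨e, he, rfl⟩ := List.mem_map.1 hl
        simp only [LHolds, List.map_cons, List.sum_cons]
        rw [lf_eval c s (fun j => (g j).norm) e.2 (fun j _ => by rw [g0, pos_norm]),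
          g2, pos_norm, h2 e he]
        ring
  · rintro ⟨g, h1, h2⟩
    refine (h (Fin k × Bool) (fun i => (c i, true)) (fun a => b a.1) hcb n).2 ?_
    let c' : Fin 2 → Fin k × Bool := fun i => (c i, true)
    let s : ℕ → List (Fin k × Bool) := fun j => if j < N then (g (3 * j)).toWord else [c' 0]
    have s0 : ∀ j, j < N → s j = (g (3 * j)).toWord := by
      intro j hj
      simp only [s]
      rw [if_pos hj]
    have mL : ∀ l ∈ L, LHolds (fun j => (g (3 * j)).norm) l := by
      intro l hl
      rw [← hlin (fun j => (g j).norm)]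
      exact h2 _ (List.mem_cons_of_mem _ (List.mem_append_left _ (List.mem_map_of_mem
        (f := fun l : List (ℕ × ℤ) × ℤ => (l.1.map (fun p => (3 * p.1, p.2)), l.2)) hl)))
    have mN : ∀ j, j < N → (g (3 * j)).norm = (g (3 * j + 1)).norm + 1 := by
      intro j hj
      have := h2 _ (List.mem_cons_of_mem _ (List.mem_append_right _ (List.mem_append_left _
        (List.mem_map_of_mem (f := fun j : ℕ =>
          (([(3 * j, 1), (3 * j + 1, -1)], 1) : List (ℕ × ℤ) × ℤ)) (List.mem_range.2 hj)))))
      simp only [LHolds, List.map_cons, List.map_nil, List.sum_cons, List.sum_nil] at this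
      omega
    have key : ∀ (w : Wd 2) (y : ℕ), (∀ j, Sum.inr j ∈ w → j < N) → g y = gev g (gw c w) →
        LHolds (fun j => (g j).norm) ((y, 1) :: lf w, nc w) → (g y).toWord = vA c' s w := by
      intro w y hw hy hl
      have e1 : vA c' s w = vA c' (fun j => (g (3 * j)).toWord) w :=
        vA_congr c' (fun j hj => s0 j (hw j hj))
      rw [e1]
      have sub := gw_sub c g w
      rw [← hy] at sub
      apply sub.eq_of_length
      simp only [LHolds, List.map_cons, List.sum_cons] at hl
      rw [lf_eval c' (fun j => (g (3 * j)).toWord) (fun j => (g j).norm) w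
        (fun j _ => rfl)] at hl
      unfold FreeGroup.norm at hl
      change _ = (vA c' (fun j => (g (3 * j)).toWord) w).length
      omega
    refine ⟨s, ?_, ?_, ?_, ?_⟩
    · intro i
      by_cases hi : i < N
      · rw [s0 i hi]
        intro h0
        have := mN i hi
        unfold FreeGroup.norm at this
        rw [h0] at this
        simp at this
      · simp only [s]
        rw [if_neg hi]
        simp
    · intro e he
      have a1 := h1 _ (List.mem_append_left _ (List.mem_map_of_mem (f := fun e : Wd 2 × Wd 2 =>
        (([(Sum.inr (Y e), true)], gw c e.1) : GW k × GW k)) he))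
      have a2 := h1 _ (List.mem_append_right _ (List.mem_map_of_mem (f := fun e : Wd 2 × Wd 2 =>
        (([(Sum.inr (Y e), true)], gw c e.2) : GW k × GW k)) he))
      simp only at a1 a2
      rw [gev_single] at a1 a2
      have b1 := h2 _ (List.mem_cons_of_mem _ (List.mem_append_right _ (List.mem_append_right _
        (List.mem_append_left _ (List.mem_map_of_mem (f := fun e : Wd 2 × Wd 2 =>
          (((Y e, 1) :: lf e.1, nc e.1) : List (ℕ × ℤ) × ℤ)) he)))))
      have b2 := h2 _ (List.mem_cons_of_mem _ (List.mem_append_right _ (List.mem_append_right _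
        (List.mem_append_right _ (List.mem_map_of_mem (f := fun e : Wd 2 × Wd 2 =>
          (((Y e, 1) :: lf e.2, nc e.2) : List (ℕ × ℤ) × ℤ)) he)))))
      have k1 := key e.1 (Y e) (fun j hj => hN1 e he j (Or.inl hj)) a1 b1
      have k2 := key e.2 (Y e) (fun j hj => hN1 e he j (Or.inr hj)) a2 b2
      exact k1.symm.trans k2
    · intro l hl
      have := mL l hl
      unfold LHolds at this ⊢
      rw [← this]
      congr 1
      apply List.map_congr_left
      intro p hp
      simp only
      rw [s0 _ (hN2 l hl p hp)]
      rfl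
    · have := h2 _ List.mem_cons_self
      simp only [LHolds, List.map_cons, List.map_nil, List.sum_cons, List.sum_nil] at this
      rw [s0 0 hN]
      unfold FreeGroup.norm at this
      have e : g (3 * 0) = g 0 := rfl
      rw [e]
      omega

theorem group_undec (k : ℕ) (hk : 2 ≤ k) :
    ¬ ComputablePred (fun I : List (GW k × GW k) × List (List (ℕ × ℤ) × ℤ) =>
      ∃ g : ℕ → FreeGroup (Fin k), (∀ e ∈ I.1, gev g e.1 = gev g e.2) ∧
        ∀ l ∈ I.2, LHolds (fun j => (g j).norm) l) := by
  intro h
  obtain ⟨p, hp, hn⟩ := exists_re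
  obtain ⟨E, L, hEL⟩ := group_re k hk hp
  apply hn
  refine ComputablePred.computable_of_manyOneReducible ?_ h
  refine ⟨fun n => (E, ([(0, 1)], ((n + 1 : ℕ) : ℤ)) :: L), ?_, hEL⟩
  apply Primrec.to_comp
  refine Primrec.pair (Primrec.const E) (Primrec.list_cons.comp ?_ (Primrec.const L))
  exact Primrec.pair (Primrec.const _) primrec_cast

end Run7.h452
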