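import Mathlib
import Pool.Agent.Run7.h452.Fin1

/-!
Systems over the free monoid with `k ≥ 2` letters: variables may be empty, a constraint says that
they are not.
-/

set_option autoImplicit false

namespace Run7.h452

/-- translation of words with two constants -/
def wk {k : ℕ} (c : Fin 2 → Fin k) (w : Wd 2) : List (Fin k ⊕ ℕ) := w.map (Sum.map c id)

theorem wk_val {k : ℕ} (c : Fin 2 → Fin k) (s : ℕ → List (Fin k)) (w : Wd 2) :
    (wk c w).flatMap (Sum.elim (fun a => [a]) s) = vA c s w := by
  unfold wk vA
  rw [List.flatMap_map]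
  congr 1
  funext t
  rcases t with t | t <;> rfl

/-- free monoid version of the core theorem -/
theorem monoid_re (k : ℕ) (hk : 2 ≤ k) {S : ℕ → Prop} (hS : REPred S) :
    ∃ (E : List (List (Fin k ⊕ ℕ) × List (Fin k ⊕ ℕ))) (L : List (List (ℕ × ℤ) × ℤ)) (N : ℕ),
      ∀ n : ℕ, S n ↔ ∃ s : ℕ → List (Fin k),
        (∀ e ∈ E, e.1.flatMap (Sum.elim (fun a => [a]) s) =
          e.2.flatMap (Sum.elim (fun a => [a]) s)) ∧
        (∀ l ∈ L, LHolds (fun j => (s j).length) l) ∧ (∀ j, j < N → 0 < (s j).length) ∧
        (s 0).length = n + 1 := by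
  obtain ⟨E, L, N, hne, hN1, hN2, hN, h⟩ := core2 hS
  obtain ⟨c, b, hcb⟩ := two_letters k hk
  refine ⟨E.map (fun e => (wk c e.1, wk c e.2)), L, N, fun n => ?_⟩
  rw [h (Fin k) c b hcb n]
  constructor
  · rintro ⟨s, h1, h2, h3, h4⟩
    refine ⟨s, ?_, h3, fun j _ => List.length_pos_iff.2 (h1 j), h4⟩
    intro e he
    obtain ⟨e', he', rfl⟩ := List.mem_map.1 he
    simp only
    rw [wk_val, wk_val, h2 e' he']
  · rintro ⟨σ, h1, h2, h3, h4⟩
    let s : ℕ → List (Fin k) := fun j => if j < N then σ j else [c 0]
    have sj : ∀ j, j < N → s j = σ j := by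
      intro j hj
      simp only [s]
      rw [if_pos hj]
    have hval : ∀ w : Wd 2, (∀ j, Sum.inr j ∈ w → j < N) → vA c s w = vA c σ w := by
      intro w hw
      unfold vA
      apply List.flatMap_congr
      intro t ht
      rcases t with t | t
      · rfl
      · exact sj t (hw t ht)
    refine ⟨s, ?_, ?_, ?_, ?_⟩
    · intro j
      by_cases hj : j < N
      · rw [sj j hj]
        exact List.ne_nil_of_length_pos (h3 j hj)
      · simp only [s]
        rw [if_neg hj]
        simp
    · intro e he
      have := h1 _ (List.mem_map_of_mem (f := fun e : Wd 2 × Wd 2 => (wk c e.1, wk c e.2)) he)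
      simp only [wk_val] at this
      rw [hval _ (fun j hj => hN1 e he j (Or.inl hj)),
        hval _ (fun j hj => hN1 e he j (Or.inr hj))]
      exact this
    · intro l hl
      have := h2 l hl
      unfold LHolds at this ⊢
      rw [← this]
      congr 1
      apply List.map_congr_left
      intro p hp
      beta_reduce
      rw [sj _ (hN2 l hl p hp)]
    · rw [sj 0 hN]
      exact h4

end Run7.h452
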