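import Mathlib
import Pool.Agent.Run7.h452.Fin1

/-!
General form of the coding: every recursively enumerable set is encoded by equations in a monoid
`F` together with linear constraints on `|ψ x|`, where `ψ` is a homomorphism from `F` to words and
four elements `κ i` of `F` have different images of the same length.
-/

set_option autoImplicit false

namespace Run7.h452

/-- decoding of `m` blocks of length `ℓ` -/
def decn {A : Type} (ℓ : ℕ) (d : List A → Fin 4) : ℕ → List A → List (Fin 4)
  | 0, _ => []
  | m + 1, u => d (u.take ℓ) :: decn ℓ d m (u.drop ℓ)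

theorem decn_length {A : Type} (ℓ : ℕ) (d : List A → Fin 4) (m : ℕ) (u : List A) :
    (decn ℓ d m u).length = m := by
  induction m generalizing u with
  | zero => rfl
  | succ m ih => simp [decn, ih]

theorem decn_append {A : Type} (ℓ : ℕ) (d : List A → Fin 4) (m m' : ℕ) (u v : List A)
    (h : u.length = m * ℓ) : decn ℓ d (m + m') (u ++ v) = decn ℓ d m u ++ decn ℓ d m' v := by
  induction m generalizing u with
  | zero =>
    have : u = [] := by
      apply List.length_eq_zero_iff.1
      omega
    subst this
    simp [decn]
  | succ m ih =>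
    have e : m + 1 + m' = (m + m') + 1 := by ring
    have hl : ℓ ≤ u.length := by
      rw [h]
      nlinarith
    rw [e]
    simp only [decn, List.cons_append]
    rw [List.take_append_of_le_length hl, List.drop_append_of_le_length hl, ih]
    rw [List.length_drop, h]
    have : (m + 1) * ℓ = m * ℓ + ℓ := by ring
    omega

theorem core_gen {S : ℕ → Prop} (hS : REPred S) (ℓ : ℕ) (hℓ : 0 < ℓ) :
    ∃ (E : List (Wd 4 × Wd 4)) (L : List (List (ℕ × ℤ) × ℤ)) (N : ℕ),
    (∀ e ∈ E, ∀ j, (Sum.inr j ∈ e.1 ∨ Sum.inr j ∈ e.2) → j < N) ∧
    (∀ l ∈ L, ∀ p ∈ l.1, p.1 < N) ∧ 0 < N ∧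
    ∀ (F : Type) [Monoid F] (A : Type) (ψ : F → List A) (κ : Fin 4 → F) (y : F),
      ψ 1 = [] → (∀ u v, ψ (u * v) = ψ u ++ ψ v) → (∀ i, (ψ (κ i)).length = ℓ) →
      Function.Injective (fun i => ψ (κ i)) → (ψ y).length = 1 → ∀ n : ℕ,
      (S n ↔ ∃ s : ℕ → F, (∀ e ∈ E, (e.1.map (Sum.elim κ s)).prod = (e.2.map (Sum.elim κ s)).prod) ∧
        (∀ l ∈ L, LHolds (fun i => (ψ (s i)).length) l) ∧ s 0 = y ^ (n + 1)) := by
  classical
  obtain ⟨T, hne, hT⟩ := D_re hS
  obtain ⟨N, hN1, hN2⟩ := T.exists_bd
  -- variables: `0` parameter, `3 j + 1` words, `3 j + 2` lengths, `3 j + 3` lengths minus one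
  let tw : Wd 4 → Wd 4 := fun w => w.map (Sum.map id (fun j => 3 * j + 1))
  let tl : Lin (Fin 1) → List (ℕ × ℤ) := fun l =>
    l.map (fun t => (Sum.elim (fun _ => 0) (fun j => 3 * j + 2) t.1, t.2))
  have tl_ev : ∀ (z : ℕ → ℕ) (n : ℕ), z 0 = n + 1 → ∀ l : Lin (Fin 1),
      ((tl l).map (fun p => p.2 * (z p.1 : ℤ))).sum =
        Lin.ev (fun _ => (n : ℤ)) (fun j => (z (3 * j + 2) : ℤ)) l + pc l := by
    intro z n h0 l
    induction l with
    | nil => rfl
    | cons t l ih =>
      have e1 : ((tl (t :: l)).map (fun p => p.2 * (z p.1 : ℤ))).sum =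
          t.2 * (z (Sum.elim (fun _ => 0) (fun j => 3 * j + 2) t.1) : ℤ) +
            ((tl l).map (fun p => p.2 * (z p.1 : ℤ))).sum := by
        simp [tl]
      have e2 : pc (t :: l) = Sum.elim (fun _ => t.2) (fun _ => 0) t.1 + pc l := by
        simp [pc]
      rw [e1, e2, ih, Lin.ev_cons]
      rcases t with ⟨a | a, d⟩
      · simp only [Sum.elim_inl, h0]
        push_cast
        ring
      · simp only [Sum.elim_inr]
        ring
  refine ⟨T.eqs.map (fun e => (tw e.1, tw e.2)),
    T.lens.map (fun d => (tl d.1, d.2 + pc d.1)) ++
      ((List.range N).map (fun j => ([(3 * j + 1, 1), (3 * j + 2, -(ℓ : ℤ))], 0)) ++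
      (List.range N).map (fun j => ([(3 * j + 2, 1), (3 * j + 3, -1)], 1))),
    3 * N + 1, ?_, ?_, by omega, ?_⟩
  · intro e he j hj
    obtain ⟨e', he', rfl⟩ := List.mem_map.1 he
    have key : ∀ w : Wd 4, (∀ j, Sum.inr j ∈ w → j < N) → Sum.inr j ∈ tw w → j < 3 * N + 1 := by
      intro w hw hj
      obtain ⟨t, ht, he⟩ := List.mem_map.1 hj
      rcases t with t | t
      · simp at he
      · have := hw t ht
        simp only [Sum.map_inr, Sum.inr.injEq] at he
        omega
    rcases hj with hj | hj
    · exact key _ (fun j hj => hN1 e' he' j (Or.inl hj)) hj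
    · exact key _ (fun j hj => hN1 e' he' j (Or.inr hj)) hj
  · intro l hl p hp
    rcases List.mem_append.1 hl with hl | hl
    · obtain ⟨d, hd, rfl⟩ := List.mem_map.1 hl
      obtain ⟨t, ht, rfl⟩ := List.mem_map.1 hp
      rcases t with ⟨a | a, e⟩
      · simp
      · have := hN2 d hd _ ht a rfl
        simp only [Sum.elim_inr]
        omega
    rcases List.mem_append.1 hl with hl | hl
    · obtain ⟨j, hj, rfl⟩ := List.mem_map.1 hl
      rw [List.mem_range] at hj
      simp only [List.mem_cons, List.not_mem_nil, or_false] at hp
      rcases hp with rfl | rfl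
      · simp only; omega
      · simp only; omega
    · obtain ⟨j, hj, rfl⟩ := List.mem_map.1 hl
      rw [List.mem_range] at hj
      simp only [List.mem_cons, List.not_mem_nil, or_false] at hp
      rcases hp with rfl | rfl
      · simp only; omega
      · simp only; omega
  · intro F _ A ψ κ y hψ1 hψm hκ hinj hy n
    have h1 : S n ↔ T.Holds (fun _ => (n : ℤ)) := by
      rw [← hT]
      constructor
      · intro h
        exact ⟨n, h, rfl⟩
      · rintro ⟨m, hm, he⟩
        have he' : (n : ℤ) = m := he
        have : n = m := by exact_mod_cast he'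
        rw [this]
        exact hm
    have ypow : ∀ m : ℕ, (ψ (y ^ m)).length = m := by
      intro m
      induction m with
      | zero => rw [pow_zero, hψ1]; rfl
      | succ m ih => rw [pow_succ, hψm, List.length_append, ih, hy]
    rw [h1]
    constructor
    · rintro ⟨s0, hs1, hs2, hs3⟩
      let s : ℕ → F := fun m => if m = 0 then y ^ (n + 1) else
        if m % 3 = 1 then ((s0 (m / 3)).map κ).prod else
          if m % 3 = 2 then y ^ (s0 (m / 3)).length else y ^ ((s0 (m / 3 - 1)).length - 1)
      have s_0 : s 0 = y ^ (n + 1) := rfl
      have s_1 : ∀ j, s (3 * j + 1) = ((s0 j).map κ).prod := by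
        intro j
        simp only [s]
        rw [if_neg (by omega), if_pos (by omega)]
        congr 3
        omega
      have s_2 : ∀ j, s (3 * j + 2) = y ^ (s0 j).length := by
        intro j
        simp only [s]
        rw [if_neg (by omega), if_neg (by omega), if_pos (by omega)]
        congr 3
        omega
      have s_3 : ∀ j, s (3 * j + 3) = y ^ ((s0 j).length - 1) := by
        intro j
        simp only [s]
        rw [if_neg (by omega), if_neg (by omega), if_neg (by omega)]
        congr 4
        omega
      have pos : ∀ j, 0 < (s0 j).length := fun j => List.length_pos_iff.2 (hs1 j)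
      have hval : ∀ w : Wd 4, ((tw w).map (Sum.elim κ s)).prod = ((val s0 w).map κ).prod := by
        intro w
        induction w with
        | nil => rfl
        | cons a w ih =>
          rcases a with a | a
          · have e : tw (Sum.inl a :: w) = Sum.inl a :: tw w := rfl
            rw [e, List.map_cons, List.prod_cons, ih]
            simp [val]
          · have e : tw (Sum.inr a :: w) = Sum.inr (3 * a + 1) :: tw w := rfl
            rw [e, List.map_cons, List.prod_cons, ih]
            simp only [Sum.elim_inr, s_1, val, List.flatMap_cons, List.map_append,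
              List.prod_append]
      have hblk : ∀ u : List (Fin 4), (ψ ((u.map κ).prod)).length = ℓ * u.length := by
        intro u
        induction u with
        | nil => simp [hψ1]
        | cons a u ih =>
          rw [List.map_cons, List.prod_cons, hψm, List.length_append, ih, hκ, List.length_cons]
          ring
      refine ⟨s, ?_, ?_, rfl⟩
      · intro e he
        obtain ⟨e', he', rfl⟩ := List.mem_map.1 he
        simp only
        rw [hval, hval, hs2 e' he']
      · intro l hl
        rcases List.mem_append.1 hl with hl | hl
        · obtain ⟨d, hd, rfl⟩ := List.mem_map.1 hl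
          unfold LHolds
          simp only
          rw [tl_ev (fun i => (ψ (s i)).length) n (by simp only [s_0, ypow])]
          have e : (fun j => (((ψ (s (3 * j + 2))).length : ℕ) : ℤ)) = len s0 := by
            funext j
            rw [s_2, ypow]
            rfl
          rw [e, hs3 d hd]
        rcases List.mem_append.1 hl with hl | hl
        · obtain ⟨j, hj, rfl⟩ := List.mem_map.1 hl
          unfold LHolds
          simp only [List.map_cons, List.map_nil, List.sum_cons, List.sum_nil]
          rw [s_1, s_2, hblk, ypow]
          push_cast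
          ring
        · obtain ⟨j, hj, rfl⟩ := List.mem_map.1 hl
          unfold LHolds
          simp only [List.map_cons, List.map_nil, List.sum_cons, List.sum_nil]
          rw [s_2, s_3, ypow, ypow]
          have := pos j
          omega
    · rintro ⟨s, hs2, hs3, hs4⟩
      let d : List A → Fin 4 := fun v => if h : ∃ i, ψ (κ i) = v then h.choose else 0
      have hd : ∀ i, d (ψ (κ i)) = i := by
        intro i
        have hex : ∃ i', ψ (κ i') = ψ (κ i) := ⟨i, rfl⟩
        have := hex.choose_spec
        simp only [d]
        rw [dif_pos hex]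
        exact hinj this
      have k1 : ∀ j, j < N → (ψ (s (3 * j + 1))).length = (ψ (s (3 * j + 2))).length * ℓ := by
        intro j hj
        have := hs3 _ (List.mem_append_right _ (List.mem_append_left _ (List.mem_map_of_mem
          (f := fun j : ℕ => (([(3 * j + 1, 1), (3 * j + 2, -(ℓ : ℤ))], 0) : List (ℕ × ℤ) × ℤ))
          (List.mem_range.2 hj))))
        unfold LHolds at this
        simp only [List.map_cons, List.map_nil, List.sum_cons, List.sum_nil] at this
        zify
        linarith
      have k2 : ∀ j, j < N → 0 < (ψ (s (3 * j + 2))).length := by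
        intro j hj
        have := hs3 _ (List.mem_append_right _ (List.mem_append_right _ (List.mem_map_of_mem
          (f := fun j : ℕ => (([(3 * j + 2, 1), (3 * j + 3, -1)], 1) : List (ℕ × ℤ) × ℤ))
          (List.mem_range.2 hj))))
        unfold LHolds at this
        simp only [List.map_cons, List.map_nil, List.sum_cons, List.sum_nil] at this
        omega
      let dc : List A → List (Fin 4) := fun u => decn ℓ d (u.length / ℓ) u
      have dc_app : ∀ (m m' : ℕ) (u v : List A), u.length = m * ℓ → v.length = m' * ℓ →
          dc (u ++ v) = dc u ++ dc v := by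
        intro m m' u v hu hv
        simp only [dc]
        have e1 : u.length / ℓ = m := by rw [hu]; exact Nat.mul_div_cancel _ hℓ
        have e2 : v.length / ℓ = m' := by rw [hv]; exact Nat.mul_div_cancel _ hℓ
        have e3 : (u ++ v).length / ℓ = m + m' := by
          rw [List.length_append, hu, hv, ← Nat.add_mul]
          exact Nat.mul_div_cancel _ hℓ
        rw [e1, e2, e3]
        exact decn_append ℓ d m m' u v hu
      let s0 : ℕ → List (Fin 4) := fun j => if j < N then dc (ψ (s (3 * j + 1))) else [0]
      have e0 : ∀ j, j < N → s0 j = dc (ψ (s (3 * j + 1))) := by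
        intro j hj
        simp only [s0]
        rw [if_pos hj]
      have l0 : ∀ j, j < N → (s0 j).length = (ψ (s (3 * j + 2))).length := by
        intro j hj
        rw [e0 j hj]
        simp only [dc]
        rw [decn_length, k1 j hj]
        exact Nat.mul_div_cancel _ hℓ
      have hval : ∀ w : Wd 4, (∀ j, Sum.inr j ∈ w → j < N) →
          (∃ m, (ψ ((tw w).map (Sum.elim κ s)).prod).length = m * ℓ) ∧
          val s0 w = dc (ψ ((tw w).map (Sum.elim κ s)).prod) := by
        intro w hw
        induction w with
        | nil =>
          have : tw ([] : Wd 4) = [] := rfl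
          rw [this, List.map_nil, List.prod_nil, hψ1]
          exact ⟨⟨0, by simp⟩, by simp [val, dc, decn]⟩
        | cons a w ih =>
          obtain ⟨⟨m, hm⟩, ih2⟩ := ih (fun j hj => hw j (List.mem_cons_of_mem _ hj))
          rcases a with a | a
          · have e : tw (Sum.inl a :: w) = Sum.inl a :: tw w := rfl
            rw [e, List.map_cons, List.prod_cons, hψm]
            have hk : (ψ (Sum.elim κ s (Sum.inl a))).length = 1 * ℓ := by
              rw [one_mul]; exact hκ a
            refine ⟨⟨1 + m, by rw [List.length_append, hk, hm]; ring⟩, ?_⟩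
            rw [dc_app 1 m _ _ hk hm, ← ih2]
            have : dc (ψ (Sum.elim κ s (Sum.inl a))) = [a] := by
              simp only [dc]
              rw [hk, Nat.mul_div_cancel _ hℓ]
              simp only [decn, Sum.elim_inl]
              rw [List.take_of_length_le (by rw [hκ a]), hd]
            rw [this]
            simp [val]
          · have e : tw (Sum.inr a :: w) = Sum.inr (3 * a + 1) :: tw w := rfl
            rw [e, List.map_cons, List.prod_cons, hψm]
            have ha := hw a List.mem_cons_self
            have hk := k1 a ha
            simp only [Sum.elim_inr]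
            refine ⟨⟨(ψ (s (3 * a + 2))).length + m, by
              rw [List.length_append, hk, hm]; ring⟩, ?_⟩
            rw [dc_app _ m _ _ hk hm, ← ih2, ← e0 a ha]
            simp [val]
      refine ⟨s0, ?_, ?_, ?_⟩
      · intro j
        by_cases hj : j < N
        · apply List.ne_nil_of_length_pos
          rw [l0 j hj]
          exact k2 j hj
        · simp only [s0]
          rw [if_neg hj]
          simp
      · intro e he
        have := hs2 _ (List.mem_map_of_mem (f := fun e : Wd 4 × Wd 4 => (tw e.1, tw e.2)) he)
        rw [(hval e.1 (fun j hj => hN1 e he j (Or.inl hj))).2,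
          (hval e.2 (fun j hj => hN1 e he j (Or.inr hj))).2]
        exact congrArg _ (congrArg _ this)
      · intro d' hd'
        have := hs3 _ (List.mem_append_left _ (List.mem_map_of_mem
          (f := fun d : Lin (Fin 1) × ℤ => (tl d.1, d.2 + pc d.1)) hd'))
        unfold LHolds at this
        simp only at this
        rw [tl_ev (fun i => (ψ (s i)).length) n (by simp only [hs4, ypow])] at this
        have e : Lin.ev (fun _ => (n : ℤ)) (len s0) d'.1 = Lin.ev (fun _ => (n : ℤ))
            (fun j => (((ψ (s (3 * j + 2))).length : ℕ) : ℤ)) d'.1 := by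
          apply ev_congr
          intro t ht j hj
          simp only [len]
          rw [l0 j (hN2 d' hd' t ht j hj)]
        rw [e]
        linarith

end Run7.h452
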