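import Mathlib
import Pool.Agent.Run7.h452.Gen

/-!
The monoid `⟨b, c ∣ b b c = 1⟩`: the elements `z` with `b ^ m * z = 1` for some `m` form a free
monoid on `c` and `b c`, and `m` is a weight (`2` for `c`, `1` for `b c`). Hence its Diophantine
problem is undecidable.
-/

set_option autoImplicit false

namespace Run7.h452.OneRel

open Run7.h452

/-- words in `b = 0` and `c = 1` -/
abbrev W : Type := List (Fin 2)

/-- the congruence generated by `b b c = 1` -/
def cg : Con (FreeMonoid (Fin 2)) :=
  conGen (fun x y : FreeMonoid (Fin 2) => x = FreeMonoid.ofList [0, 0, 1] ∧ y = 1)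

/-- class of a word -/
def mk (u : W) : cg.Quotient := cg.mk' (FreeMonoid.ofList u)

theorem mk_append (u v : W) : mk (u ++ v) = mk u * mk v := by
  unfold mk
  rw [FreeMonoid.ofList_append, map_mul]

theorem mk_nil : mk [] = 1 := map_one _

theorem mk_cons (a : Fin 2) (u : W) : mk (a :: u) = mk [a] * mk u := mk_append [a] u

theorem mk_rel : mk [0, 0, 1] = 1 := by
  unfold mk
  rw [← map_one cg.mk']
  exact (Con.eq _).2 (ConGen.Rel.of _ _ ⟨rfl, rfl⟩)

theorem mk_surj (x : cg.Quotient) : ∃ u : W, mk u = x := by
  obtain ⟨y, hy⟩ := Con.mk'_surjective (c := cg) x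
  exact ⟨FreeMonoid.toList y, hy⟩

/-- left action of a letter on words -/
def act : Fin 2 → W → W
  | 0, 0 :: 1 :: z => z
  | a, z => a :: z

theorem act_one (z : W) : act 1 z = 1 :: z := by
  unfold act
  rfl

theorem act_zero_one (z : W) : act 0 (0 :: 1 :: z) = z := rfl

theorem act_zero {z : W} (h : ¬ ∃ z', z = 0 :: 1 :: z') : act 0 z = 0 :: z := by
  unfold act
  split
  · rename_i z' _ 
    exact absurd ⟨_, rfl⟩ h
  · rfl

/-- action of words -/
def fa (u : W) (z : W) : W := u.foldr act z

theorem fa_append (u v z : W) : fa (u ++ v) z = fa u (fa v z) := by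
  simp [fa]

theorem fa_rel (z : W) : fa [0, 0, 1] z = z := by
  simp only [fa, List.foldr_cons, List.foldr_nil, act_one]
  rw [act_zero (z := 1 :: z) (by rintro ⟨z', h⟩; simp at h)]
  exact act_zero_one z

/-- the action factors through the monoid -/
theorem fa_congr {u v : W} (h : mk u = mk v) (z : W) : fa u z = fa v z := by
  have h1 : cg (FreeMonoid.ofList u) (FreeMonoid.ofList v) := (Con.eq _).1 h
  let φ : FreeMonoid (Fin 2) →* Function.End W := FreeMonoid.lift (fun a => act a)
  have hφ : ∀ (u : W) (z : W), φ (FreeMonoid.ofList u) z = fa u z := by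
    intro u z
    induction u with
    | nil => simp [φ, fa]; rfl
    | cons a u ih =>
      rw [FreeMonoid.ofList_cons, map_mul]
      have : φ (FreeMonoid.of a) = act a := by simp [φ]
      rw [this]
      change act a (φ (FreeMonoid.ofList u) z) = _
      rw [ih]
      rfl
  have hk : cg ≤ Con.ker φ := by
    unfold cg
    rw [Con.conGen_le]
    rintro x y ⟨rfl, rfl⟩
    rw [Con.ker_rel, map_one]
    funext z
    rw [hφ, fa_rel]
    rfl
  have := hk h1
  rw [Con.ker_rel] at this
  rw [← hφ, ← hφ, this]

theorem mk_act (a : Fin 2) (z : W) : mk (act a z) = mk [a] * mk z := by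
  have h01 : a = 0 ∨ a = 1 := by omega
  rcases h01 with rfl | rfl
  · by_cases h : ∃ z', z = 0 :: 1 :: z'
    · obtain ⟨z', rfl⟩ := h
      rw [act_zero_one, ← mk_append]
      have : [0] ++ 0 :: 1 :: z' = [0, 0, 1] ++ z' := rfl
      rw [this, mk_append, mk_rel, one_mul]
    · rw [act_zero h, ← mk_append]
      rfl
  · rw [act_one, ← mk_append]
    rfl

theorem mk_fa (u z : W) : mk (fa u z) = mk u * mk z := by
  induction u with
  | nil => simp [fa, mk_nil]
  | cons a u ih =>
    have : fa (a :: u) z = act a (fa u z) := rfl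
    rw [this, mk_act, ih, mk_cons a u, mul_assoc]

/-- reduced words -/
def Rd : W → Prop
  | [] => True
  | a :: t => Rd t ∧ ¬ (a = 0 ∧ ∃ z, t = 0 :: 1 :: z)

theorem rd_act (a : Fin 2) {t : W} (h : Rd t) : Rd (act a t) := by
  have h01 : a = 0 ∨ a = 1 := by omega
  rcases h01 with rfl | rfl
  · by_cases h' : ∃ z', t = 0 :: 1 :: z'
    · obtain ⟨z', rfl⟩ := h'
      rw [act_zero_one]
      exact h.1.1
    · rw [act_zero h']
      exact ⟨h, fun ⟨_, h''⟩ => h' h''⟩
  · rw [act_one]
    exact ⟨h, fun ⟨h'', _⟩ => by simp at h''⟩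

theorem rd_fa (u : W) {t : W} (h : Rd t) : Rd (fa u t) := by
  induction u with
  | nil => exact h
  | cons a u ih => exact rd_act a ih

theorem fa_rd {t : W} (h : Rd t) : fa t [] = t := by
  induction t with
  | nil => rfl
  | cons a t ih =>
    have e : fa (a :: t) [] = act a (fa t []) := rfl
    rw [e, ih h.1]
    have h01 : a = 0 ∨ a = 1 := by omega
    rcases h01 with rfl | rfl
    · exact act_zero (fun h' => h.2 ⟨rfl, h'⟩)
    · exact act_one t

/-- normal form -/
theorem exists_rd (x : cg.Quotient) : ∃ t : W, Rd t ∧ mk t = x := by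
  obtain ⟨u, rfl⟩ := mk_surj x
  refine ⟨fa u [], rd_fa u trivial, ?_⟩
  rw [mk_fa, mk_nil, mul_one]

theorem rd_inj {t t' : W} (h : Rd t) (h' : Rd t') (e : mk t = mk t') : t = t' := by
  rw [← fa_rd h, ← fa_rd h', fa_congr e]

theorem fa_snoc {t : W} (h : Rd t) : fa t [0] = t ++ [0] := by
  induction t with
  | nil => rfl
  | cons a t ih =>
    have e : fa (a :: t) [0] = act a (fa t [0]) := rfl
    rw [e, ih h.1]
    have h01 : a = 0 ∨ a = 1 := by omega
    rcases h01 with rfl | rfl
    · apply act_zero
      rintro ⟨z', hz⟩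
      apply h.2
      refine ⟨rfl, ?_⟩
      rcases t with _ | ⟨x, _ | ⟨y, t⟩⟩
      · simp at hz
      · simp at hz
      · simp only [List.cons_append, List.cons.injEq] at hz
        exact ⟨t, by rw [hz.1, hz.2.1]⟩
    · exact act_one _

/-- centraliser of `b` -/
theorem comm_b {x : cg.Quotient} (h : x * mk [0] = mk [0] * x) :
    ∃ m : ℕ, x = mk (List.replicate m 0) := by
  obtain ⟨t, ht, rfl⟩ := exists_rd x
  have h1 : fa (t ++ [0]) [] = fa ([0] ++ t) [] := by
    apply fa_congr
    rw [mk_append, mk_append, h]
  rw [fa_append, fa_append, fa_rd ht] at h1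
  have e0 : fa [0] [] = [0] := rfl
  have e1 : fa [0] t = act 0 t := rfl
  rw [e0, e1, fa_snoc ht] at h1
  by_cases h' : ∃ z', t = 0 :: 1 :: z'
  · obtain ⟨z', rfl⟩ := h'
    rw [act_zero_one] at h1
    have := congrArg List.length h1
    simp at this
    omega
  · rw [act_zero h'] at h1
    exact ⟨t.length, by rw [← commute_rep 0 t h1.symm]⟩

/-- image of a word in `X = c`, `Y = b c` -/
def img (u : W) : W := u.flatMap (fun a => if a = 0 then [1] else [0, 1])

/-- weight -/
def wt (u : W) : ℕ := (u.map (fun a => if a = 0 then 2 else 1)).sum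

theorem img_append (u v : W) : img (u ++ v) = img u ++ img v := by
  simp [img]

theorem wt_append (u v : W) : wt (u ++ v) = wt u + wt v := by
  simp [wt]

theorem img_zero (u : W) : img (0 :: u) = 1 :: img u := by simp [img]
theorem img_one (u : W) : img (1 :: u) = 0 :: 1 :: img u := by simp [img]
theorem wt_zero (u : W) : wt (0 :: u) = wt u + 2 := by simp [wt]; omega
theorem wt_one (u : W) : wt (1 :: u) = wt u + 1 := by simp [wt]; omega

theorem rd_img (u : W) : Rd (img u) := by
  induction u with
  | nil => trivial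
  | cons a u ih =>
    have h01 : a = 0 ∨ a = 1 := by omega
    rcases h01 with rfl | rfl
    · rw [img_zero]
      exact ⟨ih, fun ⟨h, _⟩ => by simp at h⟩
    · rw [img_one]
      refine ⟨⟨ih, fun ⟨h, _⟩ => by simp at h⟩, ?_⟩
      rintro ⟨-, z, hz⟩
      simp at hz

theorem img_inj : Function.Injective img := by
  intro u
  induction u with
  | nil =>
    intro v h
    rcases v with _ | ⟨a, v⟩
    · rfl
    · have h01 : a = 0 ∨ a = 1 := by omega
      rcases h01 with rfl | rfl
      · rw [img_zero] at h; simp [img] at h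
      · rw [img_one] at h; simp [img] at h
  | cons a u ih =>
    intro v h
    rcases v with _ | ⟨b, v⟩
    · have h01 : a = 0 ∨ a = 1 := by omega
      rcases h01 with rfl | rfl
      · rw [img_zero] at h; simp [img] at h
      · rw [img_one] at h; simp [img] at h
    · have h01 : a = 0 ∨ a = 1 := by omega
      have h01' : b = 0 ∨ b = 1 := by omega
      rcases h01 with rfl | rfl <;> rcases h01' with rfl | rfl
      · rw [img_zero, img_zero, List.cons.injEq] at h
        rw [ih h.2]
      · rw [img_zero, img_one, List.cons.injEq] at h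
        simp at h
      · rw [img_zero, img_one, List.cons.injEq] at h
        simp at h
      · rw [img_one, img_one, List.cons.injEq, List.cons.injEq] at h
        rw [ih h.2.2]

theorem mk_img_inj {u v : W} (h : mk (img u) = mk (img v)) : u = v :=
  img_inj (rd_inj (rd_img u) (rd_img v) h)

theorem pow_mul_img (u : W) : mk (List.replicate (wt u) 0) * mk (img u) = 1 := by
  induction u with
  | nil => simp [wt, img, mk_nil]
  | cons a u ih =>
    have h01 : a = 0 ∨ a = 1 := by omega
    rcases h01 with rfl | rfl
    · rw [wt_zero, img_zero, List.replicate_add, ← mk_append]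
      have : List.replicate (wt u) 0 ++ List.replicate 2 (0 : Fin 2) ++ 1 :: img u =
          List.replicate (wt u) 0 ++ ([0, 0, 1] ++ img u) := by
        simp [List.replicate]
      rw [this, mk_append, mk_append, mk_rel, one_mul, ih]
    · rw [wt_one, img_one, List.replicate_add, ← mk_append]
      have : List.replicate (wt u) 0 ++ List.replicate 1 (0 : Fin 2) ++ 0 :: 1 :: img u =
          List.replicate (wt u) 0 ++ ([0, 0, 1] ++ img u) := by
        simp [List.replicate]
      rw [this, mk_append, mk_append, mk_rel, one_mul, ih]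

theorem fa_rep_zero (m : ℕ) (z : W) (h : ¬ ∃ z', z = 1 :: z') (h' : ¬ ∃ z', z = 0 :: 1 :: z') :
    fa (List.replicate m 0) z = List.replicate m 0 ++ z := by
  induction m with
  | zero => rfl
  | succ m ih =>
    have e : fa (List.replicate (m + 1) 0) z = act 0 (fa (List.replicate m 0) z) := rfl
    rw [e, ih, act_zero, List.replicate_succ, List.cons_append]
    rintro ⟨z', hz⟩
    rcases m with _ | _ | m
    · exact h' ⟨z', by simpa using hz⟩
    · simp only [List.replicate_succ, List.replicate_zero, List.cons_append, List.nil_append,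
        List.cons.injEq, true_and] at hz
      exact h ⟨z', hz⟩
    · simp [List.replicate_succ] at hz

/-- right inverses of the powers of `b` -/
theorem structure_img (k : ℕ) : ∀ (m : ℕ) (z : W), z.length ≤ k →
    fa (List.replicate m 0) z = [] → ∃ u : W, z = img u ∧ wt u = m := by
  induction k with
  | zero =>
    intro m z hz h
    have : z = [] := List.length_eq_zero_iff.1 (by omega)
    subst this
    rw [fa_rep_zero m [] (by simp) (by simp)] at h
    have : m = 0 := by
      have := congrArg List.length h
      simpa using this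
    subst this
    exact ⟨[], rfl, rfl⟩
  | succ k ih =>
    intro m z hz h
    by_cases c1 : ∃ z', z = 1 :: z'
    · obtain ⟨z', rfl⟩ := c1
      rcases m with _ | _ | m
      · simp [fa] at h
      · have : fa (List.replicate (0 + 1) 0) (1 :: z') = act 0 (1 :: z') := rfl
        rw [this, act_zero (by simp)] at h
        simp at h
      · have e : fa (List.replicate (m + 1 + 1) 0) (1 :: z') = fa (List.replicate m 0) z' := by
          have : List.replicate (m + 1 + 1) (0 : Fin 2) = List.replicate m 0 ++ [0, 0] := by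
            rw [List.replicate_succ', List.replicate_succ']
            simp
          rw [this, fa_append]
          have : fa [0, 0] (1 :: z') = z' := by
            have := fa_rel z'
            exact this
          rw [this]
        rw [e] at h
        obtain ⟨u, hu, hw⟩ := ih m z' (by simpa using hz) h
        refine ⟨0 :: u, ?_, ?_⟩
        · rw [img_zero, hu]
        · rw [wt_zero, hw]
    · by_cases c2 : ∃ z', z = 0 :: 1 :: z'
      · obtain ⟨z', rfl⟩ := c2
        rcases m with _ | m
        · simp [fa] at h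
        · have e : fa (List.replicate (m + 1) 0) (0 :: 1 :: z') = fa (List.replicate m 0) z' := by
            rw [List.replicate_succ', fa_append]
            rfl
          rw [e] at h
          obtain ⟨u, hu, hw⟩ := ih m z' (by simp only [List.length_cons] at hz; omega) h
          refine ⟨1 :: u, ?_, ?_⟩
          · rw [img_one, hu]
          · rw [wt_one, hw]
      · rw [fa_rep_zero m z c1 c2] at h
        have h2 := congrArg List.length h
        simp only [List.length_append, List.length_replicate, List.length_nil] at h2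
        have : z = [] := List.length_eq_zero_iff.1 (by omega)
        subst this
        exact ⟨[], rfl, by simp [wt]; omega⟩

theorem right_inv {m : ℕ} {x : cg.Quotient} (h : mk (List.replicate m 0) * x = 1) :
    ∃ u : W, x = mk (img u) ∧ wt u = m := by
  obtain ⟨z, hz, rfl⟩ := exists_rd x
  have h1 : fa (List.replicate m 0 ++ z) [] = fa [] [] := by
    apply fa_congr
    rw [mk_append, h, mk_nil]
  rw [fa_append, fa_rd hz] at h1
  obtain ⟨u, hu, hw⟩ := structure_img z.length m z le_rfl h1
  exact ⟨u, by rw [hu], hw⟩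

/-! ### the reduction -/

/-- evaluation of words with variables -/
def ev (σ : ℕ → cg.Quotient) (w : Wd 2) : cg.Quotient :=
  (w.map (Sum.elim (fun a => mk [a]) σ)).prod

theorem ev_append (σ : ℕ → cg.Quotient) (w w' : Wd 2) : ev σ (w ++ w') = ev σ w * ev σ w' := by
  simp [ev]

/-- constant word -/
def cw (u : W) : Wd 2 := u.map Sum.inl

theorem ev_cw (σ : ℕ → cg.Quotient) (u : W) : ev σ (cw u) = mk u := by
  induction u with
  | nil => simp [ev, cw, mk_nil]
  | cons a u ih =>
    have : cw (a :: u) = Sum.inl a :: cw u := rfl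
    rw [this, mk_cons]
    unfold ev at ih ⊢
    rw [List.map_cons, List.prod_cons, ih]
    rfl

theorem ev_var (σ : ℕ → cg.Quotient) (j : ℕ) : ev σ [Sum.inr j] = σ j := by
  simp [ev]

/-- blocks -/
def blkW : Fin 4 → W := ![[0, 0], [0, 1, 1], [1, 0, 1], [1, 1, 0]]

/-- the map to words over three letters -/
def psi (u : W) : List (Fin 3) := u.flatMap (fun a => if a = 0 then [0, 1] else [2])

theorem psi_append (u v : W) : psi (u ++ v) = psi u ++ psi v := by
  simp [psi]

theorem psi_length (u : W) : (psi u).length = wt u := by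
  induction u with
  | nil => rfl
  | cons a u ih =>
    have h01 : a = 0 ∨ a = 1 := by omega
    rcases h01 with rfl | rfl
    · rw [wt_zero, ← ih]
      simp [psi]
    · rw [wt_one, ← ih]
      simp [psi]

/-- translation of words with constants in `Fin 4` -/
def trE (w : Wd 4) : Wd 2 :=
  w.flatMap (Sum.elim (fun a => cw (img (blkW a))) (fun j => [Sum.inr (3 * j)]))

theorem ev_trE (σ : ℕ → cg.Quotient) (s : ℕ → FreeMonoid (Fin 2)) (w : Wd 4)
    (h : ∀ j, Sum.inr j ∈ w → σ (3 * j) = mk (img (FreeMonoid.toList (s j)))) :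
    ev σ (trE w) = mk (img (FreeMonoid.toList
      ((w.map (Sum.elim (fun a => FreeMonoid.ofList (blkW a)) s)).prod))) := by
  induction w with
  | nil => simp [ev, trE, img, mk_nil]
  | cons a w ih =>
    have i := ih (fun j hj => h j (List.mem_cons_of_mem _ hj))
    have e : trE (a :: w) = Sum.elim (fun a => cw (img (blkW a))) (fun j => [Sum.inr (3 * j)]) a ++
        trE w := rfl
    rw [e, ev_append, i, List.map_cons, List.prod_cons, FreeMonoid.toList_mul, img_append,
      mk_append]
    congr 1
    rcases a with a | a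
    · simp only [Sum.elim_inl, ev_cw]
      rfl
    · simp only [Sum.elim_inr, ev_var]
      exact h a List.mem_cons_self

/-- the two words whose weights are compared -/
def wU (l : List (ℕ × ℤ) × ℤ) : Wd 2 :=
  l.1.flatMap (fun p => List.replicate p.2.toNat (Sum.inr (3 * p.1))) ++
    cw (img (List.replicate (-l.2).toNat 1))

/-- see `wU` -/
def wV (l : List (ℕ × ℤ) × ℤ) : Wd 2 :=
  l.1.flatMap (fun p => List.replicate (-p.2).toNat (Sum.inr (3 * p.1))) ++
    cw (img (List.replicate l.2.toNat 1))

theorem ev_rep (σ : ℕ → cg.Quotient) (u : W) (j : ℕ) (h : σ (3 * j) = mk (img u)) (m : ℕ) :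
    ∃ v : W, ev σ (List.replicate m (Sum.inr (3 * j))) = mk (img v) ∧ wt v = m * wt u := by
  induction m with
  | zero => exact ⟨[], by simp [ev, img, mk_nil], by simp [wt]⟩
  | succ m ih =>
    obtain ⟨v, hv, hw⟩ := ih
    refine ⟨u ++ v, ?_, ?_⟩
    · have e : List.replicate (m + 1) (Sum.inr (3 * j) : Fin 2 ⊕ ℕ) =
          [Sum.inr (3 * j)] ++ List.replicate m (Sum.inr (3 * j)) := rfl
      rw [e, ev_append, ev_var, hv, h, img_append, mk_append]
    · rw [wt_append, hw]
      ring

theorem ev_lin (σ : ℕ → cg.Quotient) (s : ℕ → W) (f : ℤ → ℕ) (l : List (ℕ × ℤ))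
    (h : ∀ p ∈ l, σ (3 * p.1) = mk (img (s p.1))) :
    ∃ v : W, ev σ (l.flatMap (fun p => List.replicate (f p.2) (Sum.inr (3 * p.1)))) = mk (img v) ∧
      wt v = (l.map (fun p => f p.2 * wt (s p.1))).sum := by
  induction l with
  | nil => exact ⟨[], by simp [ev, img, mk_nil], by simp [wt]⟩
  | cons p l ih =>
    obtain ⟨v, hv, hw⟩ := ih (fun p hp => h p (List.mem_cons_of_mem _ hp))
    obtain ⟨v', hv', hw'⟩ := ev_rep σ (s p.1) p.1 (h p List.mem_cons_self) (f p.2)
    refine ⟨v' ++ v, ?_, ?_⟩
    · rw [List.flatMap_cons, ev_append, hv, hv', img_append, mk_append]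
    · rw [wt_append, hw, hw', List.map_cons, List.sum_cons]

theorem wt_rep (m : ℕ) : wt (List.replicate m 1) = m := by
  simp [wt]

theorem ev_wU (σ : ℕ → cg.Quotient) (s : ℕ → W) (l : List (ℕ × ℤ) × ℤ)
    (h : ∀ p ∈ l.1, σ (3 * p.1) = mk (img (s p.1))) :
    ∃ v : W, ev σ (wU l) = mk (img v) ∧
      wt v = (l.1.map (fun p => p.2.toNat * wt (s p.1))).sum + (-l.2).toNat := by
  obtain ⟨v, hv, hw⟩ := ev_lin σ s Int.toNat l.1 h
  refine ⟨v ++ List.replicate (-l.2).toNat 1, ?_, ?_⟩
  · unfold wU
    rw [ev_append, hv, ev_cw, img_append, mk_append]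
  · rw [wt_append, hw, wt_rep]

theorem ev_wV (σ : ℕ → cg.Quotient) (s : ℕ → W) (l : List (ℕ × ℤ) × ℤ)
    (h : ∀ p ∈ l.1, σ (3 * p.1) = mk (img (s p.1))) :
    ∃ v : W, ev σ (wV l) = mk (img v) ∧
      wt v = (l.1.map (fun p => (-p.2).toNat * wt (s p.1))).sum + l.2.toNat := by
  obtain ⟨v, hv, hw⟩ := ev_lin σ s (fun z => (-z).toNat) l.1 h
  refine ⟨v ++ List.replicate l.2.toNat 1, ?_, ?_⟩
  · unfold wV
    rw [ev_append, hv, ev_cw, img_append, mk_append]
  · rw [wt_append, hw, wt_rep]

theorem lin_iff (s : ℕ → W) (l : List (ℕ × ℤ) × ℤ) :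
    (l.1.map (fun p => p.2.toNat * wt (s p.1))).sum + (-l.2).toNat =
      (l.1.map (fun p => (-p.2).toNat * wt (s p.1))).sum + l.2.toNat ↔
    LHolds (fun j => wt (s j)) l := by
  have key : ∀ l : List (ℕ × ℤ), (l.map (fun p => p.2 * ((wt (s p.1) : ℕ) : ℤ))).sum =
      (((l.map (fun p => p.2.toNat * wt (s p.1))).sum : ℕ) : ℤ) -
        (((l.map (fun p => (-p.2).toNat * wt (s p.1))).sum : ℕ) : ℤ) := by
    intro l
    induction l with
    | nil => simp
    | cons p l ih =>
      simp only [List.map_cons, List.sum_cons]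
      rw [ih]
      push_cast
      have : p.2 = (p.2.toNat : ℤ) - ((-p.2).toNat : ℤ) := by omega
      have e : p.2 * (wt (s p.1) : ℤ) = (p.2.toNat : ℤ) * (wt (s p.1) : ℤ) -
          ((-p.2).toNat : ℤ) * (wt (s p.1) : ℤ) := by
        rw [← sub_mul, ← this]
      rw [e]
      push_cast
      ring
  unfold LHolds
  rw [key]
  omega

theorem onerel_re {S : ℕ → Prop} (hS : REPred S) : ∃ (E : List (Wd 2 × Wd 2)), ∀ n : ℕ,
    S n ↔ ∃ σ : ℕ → cg.Quotient,
      ∀ e ∈ ([Sum.inr 0], (List.range (n + 1)).flatMap (fun _ => ([Sum.inl 0, Sum.inl 1] : Wd 2))) :: E,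
        ev σ e.1 = ev σ e.2 := by
  obtain ⟨E, L, N, hN1, hN2, hN, h⟩ := core_gen hS 4 (by norm_num)
  have H := h (FreeMonoid (Fin 2)) (Fin 3) (fun x => psi (FreeMonoid.toList x))
    (fun i => FreeMonoid.ofList (blkW i)) (FreeMonoid.of 1) rfl
    (fun u v => by rw [FreeMonoid.toList_mul, psi_append])
    (fun i => by fin_cases i <;> rfl)
    (by intro i j; fin_cases i <;> fin_cases j <;> simp [psi, blkW])
    rfl
  let T : List (ℕ × ℤ) × ℤ → ℕ := fun l => 3 * Encodable.encode l + 2
  have hypow : ∀ m : ℕ, FreeMonoid.toList ((FreeMonoid.of (1 : Fin 2)) ^ m) =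
      List.replicate m 1 := by
    intro m
    induction m with
    | zero => rfl
    | succ m ih =>
      rw [pow_succ, FreeMonoid.toList_mul, ih, List.replicate_succ']
      rfl
  have hpar : ∀ (σ : ℕ → cg.Quotient) (m : ℕ),
      ev σ ((List.range m).flatMap (fun _ => ([Sum.inl 0, Sum.inl 1] : Wd 2))) =
        mk (img (List.replicate m 1)) := by
    intro σ m
    induction m with
    | zero => simp [ev, img, mk_nil]
    | succ m ih =>
      rw [List.range_succ, List.flatMap_append, ev_append, ih, List.replicate_succ', img_append,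
        mk_append]
      congr 1
  refine ⟨E.map (fun e => (trE e.1, trE e.2)) ++
    ((List.range N).map (fun j => ([Sum.inr (3 * j + 1), Sum.inl 0], [Sum.inl 0, Sum.inr (3 * j + 1)])) ++
    ((List.range N).map (fun j => ([Sum.inr (3 * j + 1), Sum.inr (3 * j)], [])) ++
    (L.map (fun l => ([Sum.inr (T l), Sum.inl 0], [Sum.inl 0, Sum.inr (T l)])) ++
    (L.map (fun l => (Sum.inr (T l) :: wU l, [])) ++
    L.map (fun l => (Sum.inr (T l) :: wV l, [])))))), fun n => ?_⟩
  rw [H n]
  constructor
  · rintro ⟨s, h1, h2, h3⟩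
    let σ : ℕ → cg.Quotient := fun m => if m % 3 = 0 then mk (img (FreeMonoid.toList (s (m / 3))))
      else if m % 3 = 1 then mk (List.replicate (wt (FreeMonoid.toList (s (m / 3)))) 0) else
        (match (Encodable.decode (m / 3) : Option (List (ℕ × ℤ) × ℤ)) with
          | some l => mk (List.replicate ((l.1.map (fun p => p.2.toNat *
              wt (FreeMonoid.toList (s p.1)))).sum + (-l.2).toNat) 0)
          | none => 1)
    have s0 : ∀ j, σ (3 * j) = mk (img (FreeMonoid.toList (s j))) := by
      intro j
      simp only [σ]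
      rw [if_pos (by omega)]
      congr 4
      omega
    have s1 : ∀ j, σ (3 * j + 1) = mk (List.replicate (wt (FreeMonoid.toList (s j))) 0) := by
      intro j
      simp only [σ]
      rw [if_neg (by omega), if_pos (by omega)]
      congr 5
      omega
    have s2 : ∀ l, σ (T l) = mk (List.replicate ((l.1.map (fun p => p.2.toNat *
        wt (FreeMonoid.toList (s p.1)))).sum + (-l.2).toNat) 0) := by
      intro l
      simp only [σ, T]
      rw [if_neg (by omega), if_neg (by omega)]
      have : (3 * Encodable.encode l + 2) / 3 = Encodable.encode l := by omega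
      rw [this, Encodable.encodek]
    have hcomm : ∀ m : ℕ, mk (List.replicate m 0) * mk [0] = mk [0] * mk (List.replicate m 0) := by
      intro m
      rw [← mk_append, ← mk_append]
      congr 1
      have : ([0] : W) = List.replicate 1 0 := rfl
      rw [this, List.replicate_append_replicate, List.replicate_append_replicate, add_comm]
    refine ⟨σ, ?_⟩
    intro e he
    rcases List.mem_cons.1 he with rfl | he
    · simp only
      rw [hpar, ev_var]
      have : σ 0 = mk (img (FreeMonoid.toList (s 0))) := s0 0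
      rw [this, h3, hypow]
    rcases List.mem_append.1 he with he | he
    · obtain ⟨e', he', rfl⟩ := List.mem_map.1 he
      simp only
      rw [ev_trE σ s e'.1 (fun j _ => s0 j), ev_trE σ s e'.2 (fun j _ => s0 j), h1 e' he']
    rcases List.mem_append.1 he with he | he
    · obtain ⟨j, hj, rfl⟩ := List.mem_map.1 he
      simp only [ev, List.map_cons, List.map_nil, List.prod_cons, List.prod_nil, Sum.elim_inl,
        Sum.elim_inr, mul_one, s1]
      exact hcomm _
    rcases List.mem_append.1 he with he | he
    · obtain ⟨j, hj, rfl⟩ := List.mem_map.1 he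
      simp only [ev, List.map_cons, List.map_nil, List.prod_cons, List.prod_nil,
        Sum.elim_inr, mul_one, s0, s1]
      exact pow_mul_img _
    rcases List.mem_append.1 he with he | he
    · obtain ⟨l, hl, rfl⟩ := List.mem_map.1 he
      simp only [ev, List.map_cons, List.map_nil, List.prod_cons, List.prod_nil, Sum.elim_inl,
        Sum.elim_inr, mul_one, s2]
      exact hcomm _
    rcases List.mem_append.1 he with he | he
    · obtain ⟨l, hl, rfl⟩ := List.mem_map.1 he
      obtain ⟨v, hv, hw⟩ := ev_wU σ (fun j => FreeMonoid.toList (s j)) l (fun p _ => s0 p.1)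
      have e : (Sum.inr (T l) :: wU l : Wd 2) = [Sum.inr (T l)] ++ wU l := rfl
      simp only
      rw [e, ev_append, ev_var, hv, s2, ← hw, pow_mul_img]
      simp [ev]
    · obtain ⟨l, hl, rfl⟩ := List.mem_map.1 he
      obtain ⟨v, hv, hw⟩ := ev_wV σ (fun j => FreeMonoid.toList (s j)) l (fun p _ => s0 p.1)
      have e : (Sum.inr (T l) :: wV l : Wd 2) = [Sum.inr (T l)] ++ wV l := rfl
      have hl' : LHolds (fun j => wt (FreeMonoid.toList (s j))) l := by
        have := h2 l hl
        simpa only [psi_length] using this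
      have := (lin_iff (fun j => FreeMonoid.toList (s j)) l).2 hl'
      simp only
      rw [e, ev_append, ev_var, hv, s2, this, ← hw, pow_mul_img]
      simp [ev]
  · rintro ⟨σ, hσ⟩
    have a0 := hσ _ List.mem_cons_self
    have aE := fun e (he : e ∈ E) => hσ _ (List.mem_cons_of_mem _ (List.mem_append_left _
      (List.mem_map_of_mem (f := fun e : Wd 4 × Wd 4 => (trE e.1, trE e.2)) he)))
    have ab := fun j (hj : j < N) => hσ _ (List.mem_cons_of_mem _ (List.mem_append_right _
      (List.mem_append_left _ (List.mem_map_of_mem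
        (f := fun j : ℕ => (([Sum.inr (3 * j + 1), Sum.inl 0], [Sum.inl 0, Sum.inr (3 * j + 1)]) :
          Wd 2 × Wd 2)) (List.mem_range.2 hj)))))
    have ac := fun j (hj : j < N) => hσ _ (List.mem_cons_of_mem _ (List.mem_append_right _
      (List.mem_append_right _ (List.mem_append_left _ (List.mem_map_of_mem
        (f := fun j : ℕ => (([Sum.inr (3 * j + 1), Sum.inr (3 * j)], []) :
          Wd 2 × Wd 2)) (List.mem_range.2 hj))))))
    have ad := fun l (hl : l ∈ L) => hσ _ (List.mem_cons_of_mem _ (List.mem_append_right _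
      (List.mem_append_right _ (List.mem_append_right _ (List.mem_append_left _
        (List.mem_map_of_mem (f := fun l : List (ℕ × ℤ) × ℤ =>
          (([Sum.inr (T l), Sum.inl 0], [Sum.inl 0, Sum.inr (T l)]) : Wd 2 × Wd 2)) hl))))))
    have ae := fun l (hl : l ∈ L) => hσ _ (List.mem_cons_of_mem _ (List.mem_append_right _
      (List.mem_append_right _ (List.mem_append_right _ (List.mem_append_right _
        (List.mem_append_left _ (List.mem_map_of_mem (f := fun l : List (ℕ × ℤ) × ℤ =>
          ((Sum.inr (T l) :: wU l, []) : Wd 2 × Wd 2)) hl)))))))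
    have af := fun l (hl : l ∈ L) => hσ _ (List.mem_cons_of_mem _ (List.mem_append_right _
      (List.mem_append_right _ (List.mem_append_right _ (List.mem_append_right _
        (List.mem_append_right _ (List.mem_map_of_mem (f := fun l : List (ℕ × ℤ) × ℤ =>
          ((Sum.inr (T l) :: wV l, []) : Wd 2 × Wd 2)) hl)))))))
    have ex : ∀ j, ∃ u : W, j < N → σ (3 * j) = mk (img u) := by
      intro j
      by_cases hj : j < N
      · have b1 := ab j hj
        have b2 := ac j hj
        simp only [ev, List.map_cons, List.map_nil, List.prod_cons, List.prod_nil, Sum.elim_inl,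
          Sum.elim_inr, mul_one] at b1 b2
        obtain ⟨m, hm⟩ := comm_b b1
        rw [hm] at b2
        obtain ⟨u, hu, -⟩ := right_inv b2
        exact ⟨u, fun _ => hu⟩
      · exact ⟨[], fun h => absurd h hj⟩
    choose u hu using ex
    refine ⟨fun j => FreeMonoid.ofList (u j), ?_, ?_, ?_⟩
    · intro e he
      have := aE e he
      simp only at this
      rw [ev_trE σ (fun j => FreeMonoid.ofList (u j)) e.1
          (fun j hj => hu j (hN1 e he j (Or.inl hj))),
        ev_trE σ (fun j => FreeMonoid.ofList (u j)) e.2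
          (fun j hj => hu j (hN1 e he j (Or.inr hj)))] at this
      exact FreeMonoid.toList.injective (mk_img_inj this)
    · intro l hl
      have b1 := ad l hl
      have b2 := ae l hl
      have b3 := af l hl
      simp only at b2 b3
      have e1 : (Sum.inr (T l) :: wU l : Wd 2) = [Sum.inr (T l)] ++ wU l := rfl
      have e2 : (Sum.inr (T l) :: wV l : Wd 2) = [Sum.inr (T l)] ++ wV l := rfl
      rw [e1, ev_append, ev_var] at b2
      rw [e2, ev_append, ev_var] at b3
      simp only [ev, List.map_cons, List.map_nil, List.prod_cons, List.prod_nil, Sum.elim_inl,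
        Sum.elim_inr, mul_one] at b1
      obtain ⟨m, hm⟩ := comm_b b1
      have hev : ev σ [] = 1 := by simp [ev]
      rw [hm, hev] at b2 b3
      obtain ⟨v, hv, hw⟩ := ev_wU σ u l (fun p hp => hu p.1 (hN2 l hl p hp))
      obtain ⟨v', hv', hw'⟩ := ev_wV σ u l (fun p hp => hu p.1 (hN2 l hl p hp))
      rw [hv] at b2
      rw [hv'] at b3
      obtain ⟨x, hx, hx'⟩ := right_inv b2
      obtain ⟨x', hx2, hx2'⟩ := right_inv b3
      have g1 := mk_img_inj hx
      have g2 := mk_img_inj hx2
      subst g1
      subst g2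
      have := (lin_iff u l).1 (by rw [← hw, ← hw', hx', hx2'])
      simpa only [psi_length, FreeMonoid.toList_ofList] using this
    · simp only at a0
      rw [hpar, ev_var] at a0
      have h0 : σ 0 = mk (img (u 0)) := hu 0 hN
      rw [h0] at a0
      apply FreeMonoid.toList.injective
      rw [hypow]
      exact mk_img_inj a0

end Run7.h452.OneRel
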