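import Mathlib
import Pool.Agent.Run7.h452.Fin1

/-!
Free monoid version with regular and length constraints, in the format of a disjunctive normal
form.
-/

set_option autoImplicit false

namespace Run7.h452

/-- literals -/
abbrev Lit (k : ℕ) : Type :=
  Bool × ((List (ℕ ⊕ Fin k) × List (ℕ ⊕ Fin k)) ⊕ ((ℕ × List (ℕ × Fin k × ℕ) × List ℕ × List ℕ) ⊕
    (List (ℕ × (ℕ × ℕ) × (ℕ × ℕ)) × Bool)))

/-- value of the atom of a literal -/
def atomHolds {k : ℕ} (σ : ℕ → List (Fin k))
    (a : (List (ℕ ⊕ Fin k) × List (ℕ ⊕ Fin k)) ⊕ ((ℕ × List (ℕ × Fin k × ℕ) × List ℕ × List ℕ) ⊕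
    (List (ℕ × (ℕ × ℕ) × (ℕ × ℕ)) × Bool))) : Prop :=
  Sum.elim
        (fun e : List (ℕ ⊕ Fin k) × List (ℕ ⊕ Fin k) =>
          e.1.flatMap (Sum.elim σ (fun a => [a])) = e.2.flatMap (Sum.elim σ (fun a => [a])))
        (Sum.elim
          (fun r : ℕ × List (ℕ × Fin k × ℕ) × List ℕ × List ℕ =>
            σ r.1 ∈ ({ step := fun q a => {q' : ℕ | (q, a, q') ∈ r.2.1},
                       start := {q : ℕ | q ∈ r.2.2.1},
                       accept := {q : ℕ | q ∈ r.2.2.2} } : NFA (Fin k) ℕ).accepts)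
          (fun l : List (ℕ × (ℕ × ℕ) × (ℕ × ℕ)) × Bool =>
            (l.2 = true ∧
              (l.1.map (fun t : ℕ × (ℕ × ℕ) × (ℕ × ℕ) => ((t.2.1.1 : ℤ) - (t.2.1.2 : ℤ)) * ((σ t.1).length : ℤ))).sum >
              (l.1.map (fun t : ℕ × (ℕ × ℕ) × (ℕ × ℕ) => ((t.2.2.1 : ℤ) - (t.2.2.2 : ℤ)) * ((σ t.1).length : ℤ))).sum) ∨
            (l.2 = false ∧
              (l.1.map (fun t : ℕ × (ℕ × ℕ) × (ℕ × ℕ) => ((t.2.1.1 : ℤ) - (t.2.1.2 : ℤ)) * ((σ t.1).length : ℤ))).sum =
              (l.1.map (fun t : ℕ × (ℕ × ℕ) × (ℕ × ℕ) => ((t.2.2.1 : ℤ) - (t.2.2.2 : ℤ)) * ((σ t.1).length : ℤ))).sum)))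
        a

/-- word in the format `variable ⊕ letter` -/
def sw (w : Wd 2) : List (ℕ ⊕ Fin 2) := w.map (Sum.elim Sum.inr Sum.inl)

theorem sw_val (σ : ℕ → List (Fin 2)) (w : Wd 2) :
    (sw w).flatMap (Sum.elim σ (fun a => [a])) = vA id σ w := by
  unfold sw vA
  rw [List.flatMap_map]
  congr 1
  funext t
  rcases t with t | t <;> rfl

/-- homogeneous form of a linear equation; the variable `N` has length one -/
def hom (N : ℕ) (l : List (ℕ × ℤ) × ℤ) : List (ℕ × (ℕ × ℕ) × (ℕ × ℕ)) :=
  (N, (0, 0), (l.2.toNat, (-l.2).toNat)) :: l.1.map (fun p => (p.1, (p.2.toNat, (-p.2).toNat), (0, 0)))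

theorem hom_left (N : ℕ) (l : List (ℕ × ℤ) × ℤ) (y : ℕ → ℤ) :
    ((hom N l).map (fun t : ℕ × (ℕ × ℕ) × (ℕ × ℕ) => ((t.2.1.1 : ℤ) - (t.2.1.2 : ℤ)) * y t.1)).sum =
      (l.1.map (fun p => p.2 * y p.1)).sum := by
  unfold hom
  rw [List.map_cons, List.sum_cons, List.map_map]
  simp only [Nat.cast_zero, sub_zero, zero_mul, zero_add]
  congr 1
  apply List.map_congr_left
  intro p _
  simp only [Function.comp]
  congr 1
  omega

theorem hom_right (N : ℕ) (l : List (ℕ × ℤ) × ℤ) (y : ℕ → ℤ) :
    ((hom N l).map (fun t : ℕ × (ℕ × ℕ) × (ℕ × ℕ) => ((t.2.2.1 : ℤ) - (t.2.2.2 : ℤ)) * y t.1)).sum =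
      l.2 * y N := by
  unfold hom
  rw [List.map_cons, List.sum_cons, List.map_map]
  have : (List.map ((fun t : ℕ × (ℕ × ℕ) × (ℕ × ℕ) => ((t.2.2.1 : ℤ) - (t.2.2.2 : ℤ)) * y t.1) ∘
      fun p : ℕ × ℤ => (p.1, (p.2.toNat, (-p.2).toNat), (0, 0))) l.1).sum = 0 := by
    apply List.sum_eq_zero
    intro x hx
    obtain ⟨p, -, rfl⟩ := List.mem_map.1 hx
    simp
  rw [this, add_zero]
  congr 1
  simp only
  omega

theorem dnf_re {S : ℕ → Prop} (hS : REPred S) : ∃ (N : ℕ) (C : List (Lit 2)), ∀ n : ℕ, S n ↔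
    ∃ σ : ℕ → List (Fin 2), ∃ C' ∈ [((true, Sum.inr (Sum.inr ([(0, (1, 0), (0, 0)),
      (N, (0, 0), (n + 1, 0))], false))) : Lit 2) :: C], ∀ lit ∈ C',
      (atomHolds σ lit.2 ↔ lit.1 = true) := by
  obtain ⟨E, L, N, hne, hN1, hN2, hN, h⟩ := core2 hS
  refine ⟨N, (true, Sum.inl ([Sum.inl N], [Sum.inr 0])) ::
    (E.map (fun e => (true, Sum.inl (sw e.1, sw e.2))) ++
    (L.map (fun l => (true, Sum.inr (Sum.inr (hom N l, false)))) ++
    (List.range N).map (fun j => (true, Sum.inr (Sum.inr ([(j, (1, 0), (0, 0))], true)))))),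
    fun n => ?_⟩
  constructor
  · intro hn
    obtain ⟨s, h1, h2, h3, h4⟩ := (h (Fin 2) id id (fun _ => rfl) n).1 hn
    let σ : ℕ → List (Fin 2) := fun j => if j = N then [0] else s j
    have sN : σ N = [0] := by simp [σ]
    have sj : ∀ j, j < N → σ j = s j := by
      intro j hj
      simp only [σ]
      rw [if_neg (by omega)]
    have hval : ∀ w : Wd 2, (∀ j, Sum.inr j ∈ w → j < N) → vA id σ w = vA id s w := by
      intro w hw
      unfold vA
      apply List.flatMap_congr
      intro t ht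
      rcases t with t | t
      · rfl
      · exact sj t (hw t ht)
    refine ⟨σ, _, List.mem_singleton.2 rfl, ?_⟩
    intro lit hl
    rcases List.mem_cons.1 hl with rfl | hl
    · simp only [atomHolds, Sum.elim_inr, iff_true]
      right
      refine ⟨trivial, ?_⟩
      simp only [List.map_cons, List.map_nil, List.sum_cons, List.sum_nil, sN, sj 0 hN, h4,
        List.length_singleton]
      push_cast
      ring
    rcases List.mem_cons.1 hl with rfl | hl
    · simp [atomHolds, sN]
    rcases List.mem_append.1 hl with hl | hl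
    · obtain ⟨e, he, rfl⟩ := List.mem_map.1 hl
      simp only [atomHolds, Sum.elim_inl, iff_true]
      rw [sw_val, sw_val, hval _ (fun j hj => hN1 e he j (Or.inl hj)),
        hval _ (fun j hj => hN1 e he j (Or.inr hj))]
      exact h2 e he
    rcases List.mem_append.1 hl with hl | hl
    · obtain ⟨l, hl', rfl⟩ := List.mem_map.1 hl
      simp only [atomHolds, Sum.elim_inr, iff_true]
      right
      refine ⟨trivial, ?_⟩
      rw [hom_left N l (fun j => ((σ j).length : ℤ)), hom_right N l (fun j => ((σ j).length : ℤ))]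
      rw [sN, List.length_singleton, Nat.cast_one, mul_one]
      have := h3 l hl'
      unfold LHolds at this
      rw [← this]
      congr 1
      apply List.map_congr_left
      intro p hp
      rw [sj _ (hN2 l hl' p hp)]
    · obtain ⟨j, hj, rfl⟩ := List.mem_map.1 hl
      rw [List.mem_range] at hj
      simp only [atomHolds, Sum.elim_inr, iff_true]
      left
      refine ⟨trivial, ?_⟩
      simp only [List.map_cons, List.map_nil, List.sum_cons, List.sum_nil, sj j hj]
      have := List.length_pos_iff.2 (h1 j)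
      push_cast
      omega
  · rintro ⟨σ, C', hC', hσ⟩
    rw [List.mem_singleton] at hC'
    subst hC'
    refine (h (Fin 2) id id (fun _ => rfl) n).2 ?_
    have a0 := hσ _ List.mem_cons_self
    have a1 := hσ _ (List.mem_cons_of_mem _ List.mem_cons_self)
    have aE := fun e (he : e ∈ E) => hσ _ (List.mem_cons_of_mem _ (List.mem_cons_of_mem _
      (List.mem_append_left _ (List.mem_map_of_mem (f := fun e : Wd 2 × Wd 2 =>
        ((true, Sum.inl (sw e.1, sw e.2)) : Lit 2)) he))))
    have aL := fun l (hl : l ∈ L) => hσ _ (List.mem_cons_of_mem _ (List.mem_cons_of_mem _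
      (List.mem_append_right _ (List.mem_append_left _ (List.mem_map_of_mem
        (f := fun l : List (ℕ × ℤ) × ℤ => ((true, Sum.inr (Sum.inr (hom N l, false))) : Lit 2))
          hl)))))
    have aj := fun j (hj : j < N) => hσ _ (List.mem_cons_of_mem _ (List.mem_cons_of_mem _
      (List.mem_append_right _ (List.mem_append_right _ (List.mem_map_of_mem
        (f := fun j : ℕ => ((true, Sum.inr (Sum.inr ([(j, (1, 0), (0, 0))], true))) : Lit 2))
          (List.mem_range.2 hj))))))
    simp only [atomHolds, Sum.elim_inl, Sum.elim_inr, iff_true, Bool.false_eq_true, false_and,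
      false_or, true_and, List.map_cons, List.map_nil, List.sum_cons, List.sum_nil,
      List.flatMap_cons, List.flatMap_nil, List.append_nil, sw_val, Bool.true_eq_false,
      or_false] at a0 a1 aE aL aj
    have lN : (σ N).length = 1 := by rw [a1]; rfl
    let s : ℕ → List (Fin 2) := fun j => if j < N then σ j else [0]
    have sj : ∀ j, j < N → s j = σ j := by
      intro j hj
      simp only [s]
      rw [if_pos hj]
    have hval : ∀ w : Wd 2, (∀ j, Sum.inr j ∈ w → j < N) → vA id s w = vA id σ w := by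
      intro w hw
      unfold vA
      apply List.flatMap_congr
      intro t ht
      rcases t with t | t
      · rfl
      · exact sj t (hw t ht)
    refine ⟨s, ?_, ?_, ?_, ?_⟩
    · intro j
      by_cases hj : j < N
      · rw [sj j hj]
        apply List.ne_nil_of_length_pos
        have := aj j hj
        push_cast at this
        omega
      · simp only [s]
        rw [if_neg hj]
        simp
    · intro e he
      rw [hval _ (fun j hj => hN1 e he j (Or.inl hj)),
        hval _ (fun j hj => hN1 e he j (Or.inr hj))]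
      exact aE e he
    · intro l hl
      have := aL l hl
      rw [hom_left N l (fun j => ((σ j).length : ℤ)),
        hom_right N l (fun j => ((σ j).length : ℤ)), lN, Nat.cast_one, mul_one] at this
      unfold LHolds
      rw [← this]
      congr 1
      apply List.map_congr_left
      intro p hp
      beta_reduce
      rw [sj _ (hN2 l hl p hp)]
    · rw [sj 0 hN]
      rw [lN] at a0
      push_cast at a0
      omega

end Run7.h452
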