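import Mathlib
import Pool.Agent.Run7.h452.Fin1

/-!
# Equations with length constraints in free semigroups

For every alphabet `A` with `k ≥ 2` letters there is no algorithm which decides, for every finite
system of equations over the free semigroup `A⁺` and every finite system of integer linear
equations between the lengths of the variables, whether some solution of the equations satisfies
the length constraints.
-/

set_option autoImplicit false

namespace Run7.h452.SemigroupUndecidable

/-- A nonempty word over the alphabet `A = Fin k` and the variables `x_0, x_1, ...`: its first
symbol and the list of its other symbols. The symbol `Sum.inl a` is the letter `a`, the symbol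
`Sum.inr j` is the variable `x_j`. -/
abbrev Word (k : ℕ) : Type := (Fin k ⊕ ℕ) × List (Fin k ⊕ ℕ)

/-- The element of the free semigroup `A⁺` obtained from a word when `s j ∈ A⁺` is substituted
for `x_j`, every `j`. -/
def eval {k : ℕ} (s : ℕ → FreeSemigroup (Fin k)) (w : Word k) : FreeSemigroup (Fin k) :=
  FreeSemigroup.lift (Sum.elim FreeSemigroup.of s) ⟨w.1, w.2⟩

/-- An integer linear equation between the lengths of the variables: the pair `(l, d)` stands for
`∑ c * |x_j| = d`, the sum over the entries `(j, c)` of the list `l`. -/
abbrev LinEq : Type := List (ℕ × ℤ) × ℤ

/-- The linear equation holds for the lengths `ℓ j` of the `x_j`. -/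
def LinEq.Holds (ℓ : ℕ → ℕ) (e : LinEq) : Prop :=
  (e.1.map fun p => p.2 * (ℓ p.1 : ℤ)).sum = e.2

/-- The inputs of the decision problem: a finite system of equations `u = v` between nonempty
words, and a length constraint, that is, a finite system of linear equations. -/
abbrev Input (k : ℕ) : Type := List (Word k × Word k) × List LinEq

/-- Some solution of the equations in the free semigroup satisfies the length constraint. -/
def Solvable (k : ℕ) (I : Input k) : Prop :=
  ∃ s : ℕ → FreeSemigroup (Fin k), (∀ e ∈ I.1, eval s e.1 = eval s e.2) ∧
    ∀ c ∈ I.2, LinEq.Holds (fun j => (s j).length) c

/-- For every alphabet with `k ≥ 2` letters, the decision problem for equations with length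
constraints in the free semigroup is undecidable. -/
theorem result : ∀ k : ℕ, 2 ≤ k → ¬ ComputablePred (Solvable k) :=
  fun k hk => Run7.h452.semigroup_undec k hk

end Run7.h452.SemigroupUndecidable
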